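import Mathlib

set_option autoImplicit false

open MeasureTheory Matrix Set

namespace Pool.Agent.Helper213.Div

abbrev E := EuclideanSpace ℝ (Fin 3)

/-- tensor power matrix -/
def Mt {R : Type*} [CommRing R] (d : ℕ) (G : Matrix (Fin 3) (Fin 3) R) :
    Matrix (Fin d → Fin 3) (Fin d → Fin 3) R := fun i j => ∏ k, G (i k) (j k)

section algebra
variable {R : Type*} [CommRing R]

theorem Mt_one (d : ℕ) : Mt d (1 : Matrix (Fin 3) (Fin 3) R) = 1 := by
  ext i j
  simp only [Mt, Matrix.one_apply]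
  by_cases h : i = j
  · subst h; simp
  · rw [if_neg h]
    obtain ⟨k, hk⟩ := Function.ne_iff.mp h
    exact Finset.prod_eq_zero (Finset.mem_univ k) (by simp [hk])

theorem Mt_mul (d : ℕ) (G H : Matrix (Fin 3) (Fin 3) R) : Mt d (G * H) = Mt d G * Mt d H := by
  ext i j
  simp only [Mt, Matrix.mul_apply]
  rw [Finset.prod_univ_sum]
  simp only [Fintype.piFinset_univ]
  refine Finset.sum_congr rfl fun x _ => ?_
  rw [Finset.prod_mul_distrib]

theorem Mt_smul (d : ℕ) (c : R) (G : Matrix (Fin 3) (Fin 3) R) :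
    Mt d (c • G) = c ^ d • Mt d G := by
  ext i j
  simp [Mt, Finset.prod_mul_distrib]

theorem Mt_map {S : Type*} [CommRing S] (f : R →+* S) (d : ℕ) (G : Matrix (Fin 3) (Fin 3) R) :
    Mt d (G.map f) = (Mt d G).map f := by
  ext i j
  simp [Mt]

end algebra

/-- the matrix of the averaging operator on tensors of degree `d` -/
def Td (d : ℕ) (G H : Matrix (Fin 3) (Fin 3) ℝ) : Matrix (Fin d → Fin 3) (Fin d → Fin 3) ℝ :=
  1 + Mt d G + Mt d H

theorem zmod2_double (x : ZMod 2) : x + x = 0 := by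
  fin_cases x <;> rfl

theorem det_zmod2 (d : ℕ) (G H : Matrix (Fin 3) (Fin 3) (ZMod 2))
    (hG : IsUnit G.det) (hH : IsUnit H.det) (h : G = H ∨ G = 1 ∨ H = 1) :
    (1 + Mt d G + Mt d H).det ≠ 0 := by
  have hdd : ∀ X : Matrix (Fin d → Fin 3) (Fin d → Fin 3) (ZMod 2), X + X = 0 := by
    intro X; ext i j; simp [zmod2_double]
  have hu : ∀ K : Matrix (Fin 3) (Fin 3) (ZMod 2), IsUnit K.det → (Mt d K).det ≠ 0 := by
    intro K hK
    have h1 : Mt d K * Mt d K⁻¹ = 1 := by
      rw [← Mt_mul, Matrix.mul_nonsing_inv _ hK, Mt_one]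
    have h2 : (Mt d K).det * (Mt d K⁻¹).det = 1 := by rw [← Matrix.det_mul, h1, Matrix.det_one]
    intro h0
    rw [h0, zero_mul] at h2
    exact zero_ne_one h2
  rcases h with h | h | h
  · subst h
    rw [add_assoc, hdd, add_zero, Matrix.det_one]; exact one_ne_zero
  · subst h
    rw [Mt_one, hdd, zero_add]; exact hu H hH
  · subst h
    rw [Mt_one, add_comm, ← add_assoc, hdd, zero_add]; exact hu G hG

/-- the 2-adic criterion -/
theorem det_of_two_adic (d N : ℕ) (hN : Odd N) (G H : Matrix (Fin 3) (Fin 3) ℝ)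
    (G' H' : Matrix (Fin 3) (Fin 3) ℤ)
    (hG : (N : ℝ) • G = G'.map (Int.castRingHom ℝ)) (hH : (N : ℝ) • H = H'.map (Int.castRingHom ℝ))
    (hGo : Gᵀ * G = 1) (hHo : Hᵀ * H = 1)
    (h : (G'.map (Int.castRingHom (ZMod 2)) = H'.map (Int.castRingHom (ZMod 2))) ∨
      (G'.map (Int.castRingHom (ZMod 2)) = 1) ∨ (H'.map (Int.castRingHom (ZMod 2)) = 1)) :
    (Td d G H).det ≠ 0 := by
  have hN2 : ((N : ℕ) : ZMod 2) = 1 := by
    obtain ⟨k, rfl⟩ := hN
    push_cast
    have : (2 : ZMod 2) = 0 := by rfl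
    rw [this]; simp
  -- integer matrix
  set T : Matrix (Fin d → Fin 3) (Fin d → Fin 3) ℤ :=
    ((N : ℤ) ^ d) • (1 : Matrix (Fin d → Fin 3) (Fin d → Fin 3) ℤ) + Mt d G' + Mt d H' with hT
  have unitdet : ∀ (K : Matrix (Fin 3) (Fin 3) ℝ) (K' : Matrix (Fin 3) (Fin 3) ℤ),
      (N : ℝ) • K = K'.map (Int.castRingHom ℝ) → Kᵀ * K = 1 →
      IsUnit (K'.map (Int.castRingHom (ZMod 2))).det := by
    intro K K' hK hKo
    have e1 : (K'ᵀ * K').map (Int.castRingHom ℝ) =
        (((N : ℤ) ^ 2) • (1 : Matrix (Fin 3) (Fin 3) ℤ)).map (Int.castRingHom ℝ) := by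
      rw [Matrix.map_mul, Matrix.transpose_map, ← hK, Matrix.transpose_smul, Matrix.smul_mul,
        Matrix.mul_smul, hKo]
      ext i j
      simp only [Matrix.smul_apply, Matrix.one_apply, Matrix.map_apply]
      by_cases hij : i = j
      · simp [hij]; ring
      · simp [hij]
    have e2 : K'ᵀ * K' = ((N : ℤ) ^ 2) • (1 : Matrix (Fin 3) (Fin 3) ℤ) :=
      Matrix.map_injective (Int.cast_injective) e1
    have e3 : (K'.map (Int.castRingHom (ZMod 2)))ᵀ * (K'.map (Int.castRingHom (ZMod 2))) = 1 := by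
      rw [← Matrix.transpose_map, ← Matrix.map_mul, e2]
      ext i j
      simp only [Matrix.map_apply, Matrix.smul_apply, Matrix.one_apply]
      by_cases hij : i = j
      · simp [hij, hN2]
      · simp [hij]
    have e4 := congrArg Matrix.det e3
    rw [Matrix.det_mul, Matrix.det_one] at e4
    exact IsUnit.of_mul_eq_one_right _ e4
  have hmod : T.map (Int.castRingHom (ZMod 2)) =
      1 + Mt d (G'.map (Int.castRingHom (ZMod 2))) + Mt d (H'.map (Int.castRingHom (ZMod 2))) := by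
    rw [Mt_map, Mt_map]
    ext i j
    simp only [hT, Matrix.map_apply, Matrix.add_apply, Matrix.smul_apply, Matrix.one_apply, map_add]
    by_cases hij : i = j
    · simp [hij, hN2]
    · simp [hij]
  have hdet2 : (T.map (Int.castRingHom (ZMod 2))).det ≠ 0 := by
    rw [hmod]
    exact det_zmod2 d _ _ (unitdet G G' hG hGo) (unitdet H H' hH hHo) h
  have hTdet : T.det ≠ 0 := by
    intro h0
    apply hdet2
    have := RingHom.map_det (Int.castRingHom (ZMod 2)) T
    rw [h0, map_zero] at this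
    exact this.symm
  have hreal : T.map (Int.castRingHom ℝ) = ((N : ℝ) ^ d) • Td d G H := by
    have e5 : (Mt d G').map (Int.castRingHom ℝ) = (N : ℝ) ^ d • Mt d G := by
      rw [← Mt_map, ← hG, Mt_smul]
    have e6 : (Mt d H').map (Int.castRingHom ℝ) = (N : ℝ) ^ d • Mt d H := by
      rw [← Mt_map, ← hH, Mt_smul]
    have e7 : T.map (Int.castRingHom ℝ) =
        ((N : ℝ) ^ d) • (1 : Matrix (Fin d → Fin 3) (Fin d → Fin 3) ℝ) +
          (Mt d G').map (Int.castRingHom ℝ) + (Mt d H').map (Int.castRingHom ℝ) := by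
      ext i j
      simp only [hT, Matrix.map_apply, Matrix.add_apply, Matrix.smul_apply, Matrix.one_apply,
        map_add]
      by_cases hij : i = j
      · simp [hij]
      · simp [hij]
    rw [e7, e5, e6, Td, smul_add, smul_add]
  intro h0
  apply hTdet
  have h1 := RingHom.map_det (Int.castRingHom ℝ) T
  have h2 : (T.map (Int.castRingHom ℝ)).det = 0 := by
    rw [hreal, Matrix.det_smul, h0, mul_zero]
  have h3 : (Int.castRingHom ℝ) T.det = 0 := by rw [h1]; exact h2
  simpa using h3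

end Pool.Agent.Helper213.Div
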