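import Pool.Agent.Helper213.Div.Unit

set_option autoImplicit false

open MeasureTheory Matrix Set Filter Topology

namespace Pool.Agent.Helper213.Div

theorem dense_fiber (ρ : Matrix (Fin 3) (Fin 3) ℝ) (hρ : ρᵀ * ρ = 1) (d : ℕ) :
    Dense {τ : SO3 | (Td d ρ τ.1).det ≠ 0} := by
  have hA : ((1 + Mt d ρ) + (1 : ℝ) • 1).det ≠ 0 := by
    rw [one_smul]; exact det_two_add _ (Mt_orth d ρ hρ)
  have := dense_SO3_of (fun K hK => mem_closure_good d (1 + Mt d ρ) 1 hA K hK)
  refine this.mono ?_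
  intro M hM
  show (Td d ρ M.1).det ≠ 0
  rw [Td_eq]; exact hM

theorem dense_fiber_O3 (ρ : Matrix (Fin 3) (Fin 3) ℝ) (hρ : ρᵀ * ρ = 1) (d : ℕ) :
    Dense {τ : O3 | (Td d ρ τ.1).det ≠ 0} := fun K => mem_closure_O3 d ρ hρ K

/-- transfer of genericity to any space of matrices -/
theorem residual_fiber_of {X : Type*} [TopologicalSpace X] (Y : Type*) [TopologicalSpace Y]
    (f : X → Matrix (Fin 3) (Fin 3) ℝ) (hf : Continuous f) (g : Y → Matrix (Fin 3) (Fin 3) ℝ)
    (h : X ≃ₜ Y) (hgf : ∀ x, g (h x) = f x) (ρ : Matrix (Fin 3) (Fin 3) ℝ)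
    (hd : ∀ d, Dense {y : Y | (Td d ρ (g y)).det ≠ 0}) :
    ∀ᶠ x : X in residual X, ∀ d, (Td d ρ (f x)).det ≠ 0 := by
  rw [eventually_countable_forall]
  intro d
  refine residual_of_dense_open (s := {x : X | (Td d ρ (f x)).det ≠ 0}) ?_ ?_
  · exact isOpen_ne_fun (continuous_Td d _ _ continuous_const hf) continuous_const
  · have := (hd d).preimage h.isOpenMap
    refine this.mono ?_
    intro x hx
    have hx' : (Td d ρ (g (h x))).det ≠ 0 := hx
    rw [hgf] at hx'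
    exact hx'

theorem residual_pair_of {X : Type*} [TopologicalSpace X]
    (f : X → Matrix (Fin 3) (Fin 3) ℝ) (hf : Continuous f)
    (hd : Dense {x : X | ∃ M : O3, OneModTwo M ∧ M.1 = f x}) :
    ∀ᶠ p : X × X in residual (X × X), ∀ d, (Td d (f p.1) (f p.2)).det ≠ 0 := by
  rw [eventually_countable_forall]
  intro d
  refine residual_of_dense_open (s := {p : X × X | (Td d (f p.1) (f p.2)).det ≠ 0}) ?_ ?_
  · exact isOpen_ne_fun (continuous_Td d _ _ (hf.comp continuous_fst)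
      (hf.comp continuous_snd)) continuous_const
  · refine (hd.prod hd).mono ?_
    rintro ⟨x, y⟩ ⟨⟨M, hM, hM'⟩, ⟨K, hK, hK'⟩⟩
    show (Td d (f x) (f y)).det ≠ 0
    rw [← hM', ← hK']
    exact det_oneModTwo hM hK d

end Pool.Agent.Helper213.Div
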