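import Pool.Agent.Helper213.Div.Resid

set_option autoImplicit false

open MeasureTheory Matrix Set Filter Topology
open scoped Pointwise ENNReal

namespace Pool.Agent.Helper213.Div

/-- orthogonality of tensor powers -/
theorem Mt_orth (d : ℕ) (ρ : Matrix (Fin 3) (Fin 3) ℝ) (h : ρᵀ * ρ = 1) :
    (Mt d ρ)ᵀ * Mt d ρ = 1 := by
  have : (Mt d ρ)ᵀ = Mt d ρᵀ := by
    ext i j; simp [Mt]
  rw [this, ← Mt_mul, h, Mt_one]

theorem det_two_add {n : Type*} [Fintype n] [DecidableEq n] (X : Matrix n n ℝ) (h : Xᵀ * X = 1) :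
    (1 + X + 1).det ≠ 0 := by
  intro h0
  obtain ⟨v, hv, hv0⟩ := Matrix.exists_mulVec_eq_zero_iff.2 h0
  have h1 : X *ᵥ v = (-2 : ℝ) • v := by
    rw [Matrix.add_mulVec, Matrix.add_mulVec, Matrix.one_mulVec] at hv0
    have h2 : X *ᵥ v = -v - v := by
      have := hv0
      rw [add_right_comm] at this
      rw [← sub_eq_zero]
      rw [← this]; abel
    rw [h2, neg_smul, two_smul]; abel
  have h3 : (X *ᵥ v) ⬝ᵥ (X *ᵥ v) = v ⬝ᵥ v := by
    rw [Matrix.dotProduct_mulVec, ← Matrix.mulVec_transpose, Matrix.mulVec_mulVec, h,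
      Matrix.one_mulVec]
  rw [h1, smul_dotProduct, dotProduct_smul] at h3
  simp only [smul_eq_mul] at h3
  have h4 : v ⬝ᵥ v = 0 := by linarith
  exact hv (dotProduct_self_eq_zero.1 h4)

section poly
variable {R : Type*} [CommRing R]

/-- numerators of a reflection -/
def Rn (v : Fin 3 → R) : Matrix (Fin 3) (Fin 3) R :=
  fun i j => (∑ k, v k ^ 2) * (if i = j then 1 else 0) - 2 * v i * v j

def nv (v : Fin 3 → R) : R := ∑ k, v k ^ 2

theorem Rn_sq (v : Fin 3 → R) : Rn v * Rn v = nv v ^ 2 • (1 : Matrix (Fin 3) (Fin 3) R) := by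
  ext i j
  rw [Matrix.mul_apply, Matrix.smul_apply, Matrix.one_apply]
  simp only [Rn, nv, Fin.sum_univ_three]
  fin_cases i <;> fin_cases j <;> simp <;> ring

def DR (d : ℕ) (A : Matrix (Fin d → Fin 3) (Fin d → Fin 3) R) (ε : R) (u v : Fin 3 → R) : R :=
  ((nv u * nv v) ^ d • A + ε • Mt d (Rn u * Rn v)).det

theorem nv_map {S : Type*} [CommRing S] (f : R →+* S) (v : Fin 3 → R) :
    nv (fun i => f (v i)) = f (nv v) := by simp [nv]

theorem Rn_map {S : Type*} [CommRing S] (f : R →+* S) (v : Fin 3 → R) :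
    Rn (fun i => f (v i)) = (Rn v).map f := by
  have h2 : f 2 = 2 := map_ofNat f 2
  ext i j
  by_cases hij : i = j
  · simp [Rn, hij, h2]
  · simp [Rn, hij, h2]

theorem DR_map {S : Type*} [CommRing S] (f : R →+* S) (d : ℕ)
    (A : Matrix (Fin d → Fin 3) (Fin d → Fin 3) R) (ε : R) (u v : Fin 3 → R) :
    DR d (A.map f) (f ε) (fun i => f (u i)) (fun i => f (v i)) = f (DR d A ε u v) := by
  unfold DR
  rw [RingHom.map_det, nv_map, nv_map, Rn_map, Rn_map, ← Matrix.map_mul, Mt_map]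
  congr 1
  ext i j
  simp only [RingHom.mapMatrix_apply, Matrix.map_apply, Matrix.add_apply, Matrix.smul_apply,
    map_add, smul_eq_mul, map_mul, map_pow]

theorem DR_self (d : ℕ) (A : Matrix (Fin d → Fin 3) (Fin d → Fin 3) R) (ε : R) (u : Fin 3 → R) :
    DR d A ε u u = ((nv u ^ 2) ^ d) ^ Fintype.card (Fin d → Fin 3) * (A + ε • 1).det := by
  unfold DR
  rw [Rn_sq, Mt_smul, Mt_one, ← Matrix.det_smul]
  congr 1
  rw [smul_add, smul_smul, smul_smul, mul_comm ε, ← pow_two]

def DQ (d : ℕ) (A : Matrix (Fin d → Fin 3) (Fin d → Fin 3) R) (q : Fin 4 → R) : R :=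
  (nq q ^ d • A + Mt d (Qm q)).det

theorem DQ_map {S : Type*} [CommRing S] (f : R →+* S) (d : ℕ)
    (A : Matrix (Fin d → Fin 3) (Fin d → Fin 3) R) (q : Fin 4 → R) :
    DQ d (A.map f) (fun i => f (q i)) = f (DQ d A q) := by
  unfold DQ
  rw [RingHom.map_det, nq_map, Qm_map, Mt_map]
  congr 1
  ext i j
  simp only [RingHom.mapMatrix_apply, Matrix.map_apply, Matrix.add_apply, Matrix.smul_apply,
    map_add, smul_eq_mul, map_mul, map_pow]

theorem DQ_q1 (d : ℕ) (A : Matrix (Fin d → Fin 3) (Fin d → Fin 3) R) :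
    DQ d A q1 = (A + 1).det := by
  have h1 : Qm (q1 : Fin 4 → R) = 1 := by
    ext i j
    fin_cases i <;> fin_cases j <;> simp [Qm, q1]
  have h2 : nq (q1 : Fin 4 → R) = 1 := by simp [nq, q1]
  unfold DQ
  rw [h1, h2, Mt_one, one_pow, one_smul]

end poly

theorem null_of_lines4 (P : (Fin 4 → ℝ) → ℝ) (hP : Continuous P) (q0 : Fin 4 → ℝ)
    (h : ∀ v : Fin 4 → ℝ, (volume : Measure ℝ) {t | P (q0 + t • v) = 0} = 0) :
    (volume : Measure (Fin 4 → ℝ)) {x | P x = 0} = 0 := by
  set Z : Set (Fin 4 → ℝ) := {x | P (q0 + x) = 0} with hZ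
  have hS : MeasurableSet {y : (Fin 4 → ℝ) × ℝ | P (q0 + y.2 • y.1) = 0} :=
    (isClosed_eq (hP.comp (continuous_const.add (continuous_snd.smul continuous_fst)))
      continuous_const).measurableSet
  have h1 : ((volume : Measure (Fin 4 → ℝ)).prod (volume : Measure ℝ))
      {y : (Fin 4 → ℝ) × ℝ | P (q0 + y.2 • y.1) = 0} = 0 := by
    rw [Measure.measure_prod_null hS]
    exact Filter.Eventually.of_forall fun v => h v
  have hS' : MeasurableSet {y : ℝ × (Fin 4 → ℝ) | P (q0 + y.1 • y.2) = 0} :=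
    (isClosed_eq (hP.comp (continuous_const.add (continuous_fst.smul continuous_snd)))
      continuous_const).measurableSet
  have h2 : ((volume : Measure ℝ).prod (volume : Measure (Fin 4 → ℝ)))
      {y : ℝ × (Fin 4 → ℝ) | P (q0 + y.1 • y.2) = 0} = 0 := by
    rw [← Measure.prod_swap, Measure.map_apply measurable_swap hS']
    exact h1
  rw [Measure.measure_prod_null hS'] at h2
  have h3 : ∀ᵐ t : ℝ, t ≠ 0 := by
    rw [ae_iff]; simp
  obtain ⟨t, ht, ht0⟩ := (h2.and h3).exists
  have h4 : (volume : Measure (Fin 4 → ℝ)) ((fun x => t • x) ⁻¹' Z) = 0 := ht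
  rw [Measure.addHaar_preimage_smul _ ht0] at h4
  have h5 : (volume : Measure (Fin 4 → ℝ)) Z = 0 := by
    rcases mul_eq_zero.1 h4 with h6 | h6
    · exfalso
      rw [ENNReal.ofReal_eq_zero] at h6
      have : 0 < |(t ^ Module.finrank ℝ (Fin 4 → ℝ))⁻¹| :=
        abs_pos.2 (inv_ne_zero (pow_ne_zero _ ht0))
      linarith
    · exact h6
  have h7 : {x | P x = 0} = (fun x => -q0 + x) ⁻¹' Z := by
    ext x; simp [hZ]
  rw [h7, measure_preimage_add]
  exact h5

theorem DQ_cont (d : ℕ) (A : Matrix (Fin d → Fin 3) (Fin d → Fin 3) ℝ) :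
    Continuous fun q : Fin 4 → ℝ => DQ d A q := by
  unfold DQ
  apply Continuous.matrix_det
  refine continuous_matrix fun i j => ?_
  have hk : ∀ k, Continuous fun p : Fin 4 → ℝ => p k := fun k => continuous_apply k
  have hq : Continuous fun p : Fin 4 → ℝ => nq p := by
    unfold nq
    fun_prop
  have hM : Continuous fun p : Fin 4 → ℝ => Mt d (Qm p) i j := by
    unfold Mt
    refine continuous_finsetProd _ fun k _ => ?_
    have : ∀ a b : Fin 3, Continuous fun p : Fin 4 → ℝ => Qm p a b := by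
      intro a b
      fin_cases a <;> fin_cases b <;> simp [Qm] <;> fun_prop
    exact this _ _
  simp only [Matrix.add_apply, Matrix.smul_apply, smul_eq_mul]
  exact ((hq.pow d).mul continuous_const).add hM

theorem DQ_null (d : ℕ) (A : Matrix (Fin d → Fin 3) (Fin d → Fin 3) ℝ) (hA : (A + 1).det ≠ 0) :
    (volume : Measure (Fin 4 → ℝ)) {q | DQ d A q = 0} = 0 := by
  refine null_of_lines4 (fun q => DQ d A q) (DQ_cont d A) q1 fun v => ?_
  set F : Polynomial ℝ := DQ d (A.map Polynomial.C)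
    (fun i => Polynomial.C (q1 i) + Polynomial.X * Polynomial.C (v i)) with hF
  have hev : ∀ t : ℝ, F.eval t = DQ d A (q1 + t • v) := by
    intro t
    have := DQ_map (Polynomial.evalRingHom t) d (A.map Polynomial.C)
      (fun i => Polynomial.C (q1 i) + Polynomial.X * Polynomial.C (v i))
    rw [← hF] at this
    rw [Polynomial.coe_evalRingHom] at this
    rw [← this]
    congr 1
    · ext i j; simp
    · ext i; simp; ring
  have hne : F ≠ 0 := by
    intro h0
    have := hev 0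
    rw [h0] at this
    simp only [Polynomial.eval_zero, zero_smul, add_zero] at this
    rw [DQ_q1] at this
    exact hA this.symm
  have hset : {t : ℝ | DQ d A (q1 + t • v) = 0} ⊆ (F.roots.toFinset : Set ℝ) := by
    intro t ht
    simp only [Set.mem_ofPred_eq] at ht
    rw [Finset.mem_coe, Multiset.mem_toFinset, Polynomial.mem_roots hne]
    show F.eval t = 0
    rw [hev]; exact ht
  exact measure_mono_null hset (Finset.measure_zero _ _)

end Pool.Agent.Helper213.Div
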