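import Pool.Agent.Helper213.Div.Fiber

set_option autoImplicit false

open MeasureTheory Matrix Set Filter Topology
open scoped Pointwise ENNReal

namespace Pool.Agent.Helper213.Div

theorem tendsto_refl {ι : Type*} {l : Filter ι} (w : ι → E) (v : E) (hv : v ≠ 0)
    (h : ∀ i : Fin 3, Tendsto (fun n => (w n) i) l (𝓝 (v i))) :
    Tendsto (fun n => refl (w n)) l (𝓝 (refl v)) := by
  rw [tendsto_subtype_rng]
  refine tendsto_pi_nhds.2 fun i => tendsto_pi_nhds.2 fun j => ?_
  simp only [refl_entry]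
  have hne : (∑ k, v k ^ 2) ≠ 0 := by
    have hn : ‖v‖ ^ 2 = ∑ k, v k ^ 2 := by
      rw [EuclideanSpace.norm_sq_eq]; simp
    rw [← hn]
    exact pow_ne_zero _ (norm_ne_zero_iff.2 hv)
  refine Tendsto.sub tendsto_const_nhds (Tendsto.div ?_ ?_ hne)
  · exact ((h i).const_mul 2).mul (h j)
  · exact tendsto_finsetSum _ fun k _ => (h k).pow 2

theorem nv_ne (v : E) (hv : v ≠ 0) : nv (fun i => v i) ≠ 0 := by
  have hn : ‖v‖ ^ 2 = ∑ k, v k ^ 2 := by
    rw [EuclideanSpace.norm_sq_eq]; simp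
  show (∑ k, v k ^ 2) ≠ 0
  rw [← hn]
  exact pow_ne_zero _ (norm_ne_zero_iff.2 hv)

theorem Rn_eq (v : E) (hv : nv (fun i => v i) ≠ 0) :
    Rn (fun i => v i) = nv (fun i => v i) • (refl v).1 := by
  ext i j
  rw [Matrix.smul_apply, refl_entry]
  have hs : (∑ k, v k ^ 2) ≠ 0 := hv
  simp only [Rn, nv, smul_eq_mul]
  field_simp

theorem DR_ne (d : ℕ) (A : Matrix (Fin d → Fin 3) (Fin d → Fin 3) ℝ) (ε : ℝ) (u v : E)
    (hu : nv (fun i => u i) ≠ 0) (hv : nv (fun i => v i) ≠ 0)
    (h : DR d A ε (fun i => u i) (fun i => v i) ≠ 0) :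
    (A + ε • Mt d (refl u * refl v).1).det ≠ 0 := by
  intro h0
  apply h
  unfold DR
  have h1 : Rn (fun i => u i) * Rn (fun i => v i) =
      (nv (fun i => u i) * nv (fun i => v i)) • (refl u * refl v).1 := by
    rw [Rn_eq u hu, Rn_eq v hv]
    show _ = (nv (fun i => u i) * nv (fun i => v i)) • ((refl u).1 * (refl v).1)
    rw [Matrix.smul_mul, Matrix.mul_smul, smul_smul]
  rw [h1, Mt_smul, smul_comm ε, ← smul_add, Matrix.det_smul, h0, mul_zero]

theorem path_dense (d : ℕ) (A : Matrix (Fin d → Fin 3) (Fin d → Fin 3) ℝ) (ε : ℝ)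
    (hA : (A + ε • 1).det ≠ 0) (u v : E) (hu : u ≠ 0) (hv : v ≠ 0) :
    refl u * refl v ∈ closure {τ : O3 | (A + ε • Mt d τ.1).det ≠ 0} := by
  set w : ℝ → E := fun t => v + t • (u - v) with hw
  set F : Polynomial ℝ := DR d (A.map Polynomial.C) (Polynomial.C ε)
    (fun i => Polynomial.C (u i))
    (fun i => Polynomial.C (v i) + Polynomial.X * Polynomial.C (u i - v i)) with hF
  set G : Polynomial ℝ :=
    nv (fun i => Polynomial.C (v i) + Polynomial.X * Polynomial.C (u i - v i)) with hG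
  have hevF : ∀ t : ℝ, F.eval t = DR d A ε (fun i => u i) (fun i => (w t) i) := by
    intro t
    have := DR_map (Polynomial.evalRingHom t) d (A.map Polynomial.C) (Polynomial.C ε)
      (fun i => Polynomial.C (u i))
      (fun i => Polynomial.C (v i) + Polynomial.X * Polynomial.C (u i - v i))
    rw [← hF, Polynomial.coe_evalRingHom] at this
    rw [← this]
    congr 1
    · ext i j; simp
    · simp
    · ext i; simp
    · ext i; simp [hw]
  have hevG : ∀ t : ℝ, G.eval t = nv (fun i => (w t) i) := by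
    intro t
    have := nv_map (Polynomial.evalRingHom t)
      (fun i => Polynomial.C (v i) + Polynomial.X * Polynomial.C (u i - v i))
    rw [← hG, Polynomial.coe_evalRingHom] at this
    rw [← this]
    congr 1
    ext i; simp [hw]
  have hw1 : w 1 = u := by simp [hw]
  have hF0 : F ≠ 0 := by
    intro h0
    have := hevF 1
    rw [h0, Polynomial.eval_zero, hw1, DR_self] at this
    exact mul_ne_zero (pow_ne_zero _ (pow_ne_zero _ (pow_ne_zero _ (nv_ne u hu)))) hA this.symm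
  have hG0 : G ≠ 0 := by
    intro h0
    have := hevG 1
    rw [h0, Polynomial.eval_zero, hw1] at this
    exact nv_ne u hu this.symm
  have hbad : ∀ᶠ t in 𝓝[≠] (0 : ℝ), F.eval t ≠ 0 ∧ G.eval t ≠ 0 := by
    have hfin : ((F * G).roots.toFinset : Set ℝ).Finite := Finset.finite_toSet _
    have hcl : IsClosed (((F * G).roots.toFinset : Set ℝ) \ {0}) :=
      (hfin.subset Set.sdiff_subset).isClosed
    have hmem : (((F * G).roots.toFinset : Set ℝ) \ {0})ᶜ ∈ 𝓝 (0 : ℝ) :=
      hcl.isOpen_compl.mem_nhds (by simp)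
    have h1 : ∀ᶠ t in 𝓝[≠] (0 : ℝ), t ∈ (((F * G).roots.toFinset : Set ℝ) \ {0})ᶜ :=
      mem_nhdsWithin_of_mem_nhds hmem
    have h2 : ∀ᶠ t in 𝓝[≠] (0 : ℝ), t ∈ ({0} : Set ℝ)ᶜ := self_mem_nhdsWithin
    filter_upwards [h1, h2] with t ht1 ht2
    have h3 : (F * G).eval t ≠ 0 := by
      intro h0
      apply ht1
      refine ⟨?_, ht2⟩
      rw [Finset.mem_coe, Multiset.mem_toFinset, Polynomial.mem_roots (mul_ne_zero hF0 hG0)]
      exact h0
    rw [Polynomial.eval_mul] at h3
    exact ⟨left_ne_zero_of_mul h3, right_ne_zero_of_mul h3⟩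
  refine mem_closure_of_tendsto (f := fun t : ℝ => refl u * refl (w t)) (b := 𝓝[≠] (0 : ℝ)) ?_ ?_
  · refine tendsto_const_nhds.mul (tendsto_refl w v hv fun i => ?_)
    have hc : Continuous fun t : ℝ => (w t) i := by
      simp only [hw, PiLp.add_apply, PiLp.smul_apply]
      fun_prop
    have := hc.tendsto 0
    have h0 : (w 0) i = v i := by simp [hw]
    rw [h0] at this
    exact this.mono_left nhdsWithin_le_nhds
  · filter_upwards [hbad] with t ht
    have h1 : nv (fun i => (w t) i) ≠ 0 := by rw [← hevG]; exact ht.2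
    exact DR_ne d A ε u (w t) (nv_ne u hu) h1 (by rw [← hevF]; exact ht.1)

theorem refl_zero : refl 0 = 1 := by
  ext i j
  rw [refl_entry]
  simp [Matrix.one_apply]

theorem det_refl (v : E) (hv : v ≠ 0) : (refl v).1.det = -1 := by
  have hs : (∑ k, v k ^ 2) ≠ 0 := nv_ne v hv
  rw [Matrix.det_fin_three]
  simp only [refl_entry]
  rw [Fin.sum_univ_three] at hs ⊢
  simp
  field_simp
  ring

theorem two_refl (K : O3) (hK : K.1.det = 1) (a b : E) (h : K = refl a * refl b) :
    K = 1 ∨ ∃ u v : E, u ≠ 0 ∧ v ≠ 0 ∧ K = refl u * refl v := by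
  by_cases ha : a = 0
  · subst ha
    rw [refl_zero, one_mul] at h
    by_cases hb : b = 0
    · subst hb; left; rw [h, refl_zero]
    · exfalso
      rw [h, det_refl b hb] at hK
      norm_num at hK
  · by_cases hb : b = 0
    · subst hb
      rw [refl_zero, mul_one] at h
      exfalso
      rw [h, det_refl a ha] at hK
      norm_num at hK
    · exact Or.inr ⟨a, b, ha, hb, h⟩

theorem decomp (K : O3) (hK : K.1.det = 1) :
    K = 1 ∨ ∃ u v : E, u ≠ 0 ∧ v ≠ 0 ∧ K = refl u * refl v := by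
  obtain ⟨l, hl3, hl⟩ := LinearIsometryEquiv.reflections_generate_dim (isoE K)
  have h1 : K = (l.map refl).prod := by
    have h2 : K = isoE.symm (isoE K) := (MulEquiv.symm_apply_apply _ _).symm
    rw [h2, hl, map_list_prod, List.map_map]
    rfl
  rw [finrank_euclideanSpace, Fintype.card_fin] at hl3
  rcases l with _ | ⟨a, _ | ⟨b, _ | ⟨c, _ | ⟨e, l⟩⟩⟩⟩
  · left; simpa using h1
  · refine two_refl K hK a 0 ?_
    rw [refl_zero, mul_one]; simpa using h1
  · refine two_refl K hK a b ?_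
    simpa using h1
  · have h2 : K = refl a * (refl b * refl c) := by simpa using h1
    by_cases ha : a = 0
    · subst ha
      rw [refl_zero, one_mul] at h2
      exact two_refl K hK b c h2
    by_cases hb : b = 0
    · subst hb
      rw [refl_zero, one_mul] at h2
      exact two_refl K hK a c h2
    by_cases hc : c = 0
    · subst hc
      rw [refl_zero, mul_one] at h2
      exact two_refl K hK a b h2
    exfalso
    have h3 : K.1 = (refl a).1 * ((refl b).1 * (refl c).1) := by rw [h2]; rfl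
    rw [h3, Matrix.det_mul, Matrix.det_mul, det_refl a ha, det_refl b hb, det_refl c hc] at hK
    norm_num at hK
  · exfalso
    simp at hl3
    omega

theorem mem_closure_good (d : ℕ) (A : Matrix (Fin d → Fin 3) (Fin d → Fin 3) ℝ) (ε : ℝ)
    (hA : (A + ε • 1).det ≠ 0) (K : O3) (hK : K.1.det = 1) :
    K ∈ closure {τ : O3 | (A + ε • Mt d τ.1).det ≠ 0} := by
  rcases decomp K hK with h | ⟨u, v, hu, hv, h⟩
  · apply subset_closure
    subst h
    show (A + ε • Mt d (1 : Matrix (Fin 3) (Fin 3) ℝ)).det ≠ 0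
    rw [Mt_one]; exact hA
  · rw [h]; exact path_dense d A ε hA u v hu hv

theorem dense_SO3_of {S : Set O3} (h : ∀ K : O3, K.1.det = 1 → K ∈ closure S) :
    Dense {M : SO3 | toO3 M ∈ S} := by
  rw [dense_iff_inter_open]
  rintro U hU ⟨M, hM⟩
  obtain ⟨V, hV, rfl⟩ := isOpen_induced_iff.1 hU
  have hW : IsOpen {K : O3 | K.1 ∈ V ∧ 0 < K.1.det} := by
    apply IsOpen.inter
    · exact hV.preimage continuous_subtype_val
    · exact isOpen_lt continuous_const (Continuous.matrix_det continuous_subtype_val)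
  have hMW : toO3 M ∈ {K : O3 | K.1 ∈ V ∧ 0 < K.1.det} := by
    refine ⟨hM, ?_⟩
    have : (toO3 M).1.det = 1 := M.2.2
    rw [this]; exact one_pos
  obtain ⟨K, ⟨hKV, hKd⟩, hK⟩ := mem_closure_iff.1 (h (toO3 M) M.2.2) _ hW hMW
  have hd : K.1.det = 1 := by
    rcases det_O3 K with h | h
    · exact h
    · rw [h] at hKd; norm_num at hKd
  exact ⟨⟨K.1, K.2, hd⟩, hKV, hK⟩

theorem Td_eq (d : ℕ) (ρ τ : Matrix (Fin 3) (Fin 3) ℝ) :
    Td d ρ τ = (1 + Mt d ρ) + (1 : ℝ) • Mt d τ := by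
  rw [Td, one_smul]

/-- for every `ρ`, generic `τ` (category) -/
theorem residual_fiber (ρ : Matrix (Fin 3) (Fin 3) ℝ) (hρ : ρᵀ * ρ = 1) :
    ∀ᶠ τ : SO3 in residual SO3, ∀ d, (Td d ρ τ.1).det ≠ 0 := by
  rw [eventually_countable_forall]
  intro d
  refine residual_of_dense_open (s := {τ : SO3 | (Td d ρ τ.1).det ≠ 0}) ?_ ?_
  · exact isOpen_ne_fun (continuous_Td d _ _ continuous_const continuous_subtype_val)
      continuous_const
  · have hA : ((1 + Mt d ρ) + (1 : ℝ) • 1).det ≠ 0 := by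
      rw [one_smul]; exact det_two_add _ (Mt_orth d ρ hρ)
    have := dense_SO3_of (fun K hK => mem_closure_good d (1 + Mt d ρ) 1 hA K hK)
    refine this.mono ?_
    intro M hM
    show (Td d ρ M.1).det ≠ 0
    rw [Td_eq]; exact hM

/-- for every `ρ`, generic `τ` (measure) -/
theorem ae_fiber (ρ : Matrix (Fin 3) (Fin 3) ℝ) (hρ : ρᵀ * ρ = 1) :
    ∀ᵐ q : Fin 4 → ℝ, ∀ τ : Matrix (Fin 3) (Fin 3) ℝ, nq q • τ = Qm q →
      ∀ d, (Td d ρ τ).det ≠ 0 := by
  have h1 : ∀ᵐ q : Fin 4 → ℝ, ∀ d, DQ d (1 + Mt d ρ) q ≠ 0 := by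
    rw [ae_all_iff]
    intro d
    rw [ae_iff]
    have := DQ_null d (1 + Mt d ρ) (det_two_add _ (Mt_orth d ρ hρ))
    simpa using this
  filter_upwards [h1] with q hq τ hτ d h0
  apply hq d
  unfold DQ
  rw [← hτ, Mt_smul, ← smul_add, Matrix.det_smul]
  have : (1 + Mt d ρ + Mt d τ).det = 0 := h0
  rw [this, mul_zero]

end Pool.Agent.Helper213.Div
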