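import Pool.Agent.Helper213.Div.Measure

set_option autoImplicit false

open MeasureTheory Matrix Set Filter Topology
open scoped Pointwise ENNReal

namespace Pool.Agent.Helper213.Div

theorem det_field {k : Type*} [Field k] (d : ℕ) (G H : Matrix (Fin 3) (Fin 3) k)
    (hG : IsUnit G.det) (hH : IsUnit H.det)
    (h : ((2 : k) = 0 ∧ (G = H ∨ G = 1 ∨ H = 1)) ∨ ((3 : k) ≠ 0 ∧ G = 1 ∧ H = 1)) :
    (1 + Mt d G + Mt d H).det ≠ 0 := by
  have hu : ∀ K : Matrix (Fin 3) (Fin 3) k, IsUnit K.det → (Mt d K).det ≠ 0 := by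
    intro K hK
    have h1 : Mt d K * Mt d K⁻¹ = 1 := by
      rw [← Mt_mul, Matrix.mul_nonsing_inv _ hK, Mt_one]
    have h2 : (Mt d K).det * (Mt d K⁻¹).det = 1 := by rw [← Matrix.det_mul, h1, Matrix.det_one]
    intro h0
    rw [h0, zero_mul] at h2
    exact zero_ne_one h2
  rcases h with ⟨h2, h⟩ | ⟨h3, hg, hh⟩
  · have hdd : ∀ X : Matrix (Fin d → Fin 3) (Fin d → Fin 3) k, X + X = 0 := by
      intro X; ext i j
      simp only [Matrix.add_apply, Matrix.zero_apply]
      rw [← two_mul, h2, zero_mul]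
    rcases h with h | h | h
    · subst h
      rw [add_assoc, hdd, add_zero, Matrix.det_one]; exact one_ne_zero
    · subst h
      rw [Mt_one, hdd, zero_add]; exact hu H hH
    · subst h
      rw [Mt_one, add_comm, ← add_assoc, hdd, zero_add]; exact hu G hG
  · subst hg; subst hh
    rw [Mt_one]
    have : (1 : Matrix (Fin d → Fin 3) (Fin d → Fin 3) k) + 1 + 1 = (3 : k) • 1 := by
      have e : (3 : k) = 1 + 1 + 1 := by norm_num
      rw [e, add_smul, add_smul, one_smul]
    rw [this, Matrix.det_smul, Matrix.det_one, mul_one]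
    exact pow_ne_zero _ h3

theorem arith (R : Subring ℝ) {k : Type*} [Field k] (π : R →+* k)
    (G H : Matrix (Fin 3) (Fin 3) R) (ρ τ : Matrix (Fin 3) (Fin 3) ℝ)
    (hG : G.map R.subtype = ρ) (hH : H.map R.subtype = τ) (hρ : ρᵀ * ρ = 1) (hτ : τᵀ * τ = 1)
    (h : ((2 : k) = 0 ∧ (G.map π = H.map π ∨ G.map π = 1 ∨ H.map π = 1)) ∨
      ((3 : k) ≠ 0 ∧ G.map π = 1 ∧ H.map π = 1)) (d : ℕ) : (Td d ρ τ).det ≠ 0 := by
  have hinj : Function.Injective R.subtype := Subtype.val_injective
  have unitdet : ∀ (K : Matrix (Fin 3) (Fin 3) R) (K' : Matrix (Fin 3) (Fin 3) ℝ),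
      K.map R.subtype = K' → K'ᵀ * K' = 1 → IsUnit (K.map π).det := by
    intro K K' hK hKo
    have e1 : (Kᵀ * K).map R.subtype = (1 : Matrix (Fin 3) (Fin 3) R).map R.subtype := by
      rw [Matrix.map_mul, Matrix.transpose_map, hK, hKo, Matrix.map_one _ (map_zero _) (map_one _)]
    have e2 : Kᵀ * K = 1 := Matrix.map_injective hinj e1
    have e3 : (K.map π)ᵀ * (K.map π) = 1 := by
      rw [← Matrix.transpose_map, ← Matrix.map_mul, e2, Matrix.map_one _ (map_zero _) (map_one _)]
    have e4 := congrArg Matrix.det e3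
    rw [Matrix.det_mul, Matrix.det_one] at e4
    exact IsUnit.of_mul_eq_one_right _ e4
  set T : Matrix (Fin d → Fin 3) (Fin d → Fin 3) R := 1 + Mt d G + Mt d H with hT
  have hk : T.map π = 1 + Mt d (G.map π) + Mt d (H.map π) := by
    rw [Mt_map, Mt_map, hT]
    ext i j
    simp only [Matrix.map_apply, Matrix.add_apply, map_add, Matrix.one_apply]
    by_cases hij : i = j
    · simp [hij]
    · simp [hij]
  have hr : T.map R.subtype = Td d ρ τ := by
    rw [Td, ← hG, ← hH, Mt_map, Mt_map, hT]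
    ext i j
    simp only [Matrix.map_apply, Matrix.add_apply, map_add, Matrix.one_apply]
    by_cases hij : i = j
    · simp [hij]
    · simp [hij]
  have hTk : (T.map π).det ≠ 0 := by
    rw [hk]
    exact det_field d _ _ (unitdet G ρ hG hρ) (unitdet H τ hH hτ) h
  have hT0 : T.det ≠ 0 := by
    intro h0
    apply hTk
    have := RingHom.map_det π T
    rw [h0, map_zero] at this
    exact this.symm
  intro h0
  apply hT0
  have h1 := RingHom.map_det R.subtype T
  have h2 : (T.map R.subtype).det = 0 := by rw [hr]; exact h0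
  have h3 : R.subtype T.det = 0 := by rw [h1]; exact h2
  exact hinj (by rw [h3, map_zero])

end Pool.Agent.Helper213.Div
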