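import Pool.Agent.Helper213.Div.NoSplit

set_option autoImplicit false

open MeasureTheory Matrix Set Filter Topology
open scoped Pointwise ENNReal

namespace Pool.Agent.Helper213.Div

abbrev O3 := Matrix.orthogonalGroup (Fin 3) ℝ

/-- the isometry `x ↦ M x`, as a group isomorphism -/
noncomputable def isoE : O3 ≃* (E ≃ₗᵢ[ℝ] E) :=
  (Unitary.mapEquiv
    ({ toMulEquiv := (Matrix.toEuclideanCLM (n := Fin 3) (𝕜 := ℝ)).toStarRingEquiv.toRingEquiv.toMulEquiv
       map_star' := (Matrix.toEuclideanCLM (n := Fin 3) (𝕜 := ℝ)).map_star' } :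
      Matrix (Fin 3) (Fin 3) ℝ ≃⋆* (E →L[ℝ] E))).toMulEquiv.trans
    Unitary.linearIsometryEquiv

theorem isoE_apply (M : O3) (x : E) : isoE M x = WithLp.toLp 2 (M.1 *ᵥ x.ofLp) := rfl

theorem mat_isoE (M : O3) : mat (isoE M) = M.1 := by
  ext i j
  simp only [mat, isoE_apply]
  simp [Matrix.mulVec, dotProduct]

theorem isoE_symm_apply (φ : E ≃ₗᵢ[ℝ] E) (i j : Fin 3) :
    (isoE.symm φ).1 i j = (φ (EuclideanSpace.single j 1)) i := by
  have h := mat_isoE (isoE.symm φ)
  rw [MulEquiv.apply_symm_apply] at h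
  rw [← h]; rfl

theorem O3_orth (M : O3) : M.1ᵀ * M.1 = 1 := by
  have := (Matrix.mem_orthogonalGroup_iff' (A := M.1)).1 M.2
  exact this

/-- entries of the reflection -/
noncomputable def refl (v : E) : O3 := isoE.symm (Submodule.reflection (ℝ ∙ v)ᗮ)

theorem refl_entry (v : E) (i j : Fin 3) :
    (refl v).1 i j = (if i = j then 1 else 0) - 2 * v i * v j / (∑ k, v k ^ 2) := by
  rw [refl, isoE_symm_apply, Submodule.reflection_orthogonal_apply,
    Submodule.reflection_singleton_apply]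
  have hn : ‖v‖ ^ 2 = ∑ k, v k ^ 2 := by
    rw [EuclideanSpace.norm_sq_eq]; simp
  have hin : inner ℝ v (EuclideanSpace.single j (1 : ℝ)) = v j := by
    rw [EuclideanSpace.inner_single_right]; simp
  rw [hin]
  simp only [PiLp.neg_apply, PiLp.sub_apply, PiLp.smul_apply]
  rw [← hn]
  simp only [PiLp.single_apply]
  simp
  ring

/-- the dense group of rational matrices congruent to one modulo two -/
def OneModTwo (M : O3) : Prop :=
  ∃ (N : ℕ) (G : Matrix (Fin 3) (Fin 3) ℤ), Odd N ∧ (∀ i j, (N : ℝ) * M.1 i j = G i j) ∧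
    ∀ i j, Even (G i j - (1 : Matrix (Fin 3) (Fin 3) ℤ) i j)

theorem oneModTwo_one : OneModTwo 1 :=
  ⟨1, 1, odd_one, fun i j => by simp [Matrix.one_apply], fun i j => by simp⟩

theorem oneModTwo_mul {M K : O3} (hM : OneModTwo M) (hK : OneModTwo K) : OneModTwo (M * K) := by
  obtain ⟨N, G, hN, hG, hG2⟩ := hM
  obtain ⟨N', H, hN', hH, hH2⟩ := hK
  refine ⟨N * N', G * H, hN.mul hN', fun i j => ?_, fun i j => ?_⟩
  · have : (M * K).1 i j = ∑ k, M.1 i k * K.1 k j := by
      show (M.1 * K.1) i j = _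
      rw [Matrix.mul_apply]
    rw [this, Matrix.mul_apply]
    push_cast
    rw [Finset.mul_sum]
    refine Finset.sum_congr rfl fun k _ => ?_
    rw [← hG, ← hH]; ring
  · have e1 : ((G * H) i j - (1 : Matrix (Fin 3) (Fin 3) ℤ) i j) =
        ∑ k, (G i k - (1 : Matrix (Fin 3) (Fin 3) ℤ) i k) * H k j
          + (H i j - (1 : Matrix (Fin 3) (Fin 3) ℤ) i j) := by
      rw [Matrix.mul_apply]
      have e2 : ∑ k, (1 : Matrix (Fin 3) (Fin 3) ℤ) i k * H k j = H i j := by
        rw [← Matrix.mul_apply, Matrix.one_mul]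
      simp only [sub_mul, Finset.sum_sub_distrib, e2]
      ring
    rw [e1]
    exact (Finset.even_sum _ fun k _ => (hG2 i k).mul_right _).add (hH2 i j)


/-- integer approximations of a vector -/
noncomputable def ivec (v : E) (n : ℕ) : Fin 3 → ℤ :=
  fun i => 2 * ⌊(n : ℝ) * v i⌋ + (if i = 0 then 1 else 0)

noncomputable def wvec (v : E) (n : ℕ) : E :=
  WithLp.toLp 2 (fun i => ((ivec v n i : ℤ) : ℝ) / (2 * n))

theorem tendsto_wvec (v : E) (i : Fin 3) :
    Tendsto (fun n : ℕ => (wvec v n) i) atTop (𝓝 (v i)) := by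
  have h1 : Tendsto (fun n : ℕ => (⌊(n : ℝ) * v i⌋ : ℝ) / n) atTop (𝓝 (v i)) := by
    have := (tendsto_nat_floor_mul_div_atTop (R := ℝ) (a := 1) (by norm_num))
    have h2 : Tendsto (fun n : ℕ => v i - Int.fract ((n : ℝ) * v i) * (1 / (n : ℝ))) atTop
        (𝓝 (v i - 0)) := by
      apply Tendsto.const_sub
      have hz : Tendsto (fun n : ℕ => (1 / (n : ℝ))) atTop (𝓝 0) :=
        tendsto_one_div_atTop_nhds_zero_nat
      refine squeeze_zero (fun n => ?_) (fun n => ?_) hz
      · exact mul_nonneg (Int.fract_nonneg _) (by positivity)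
      · have h3 : Int.fract ((n : ℝ) * v i) ≤ 1 := (Int.fract_lt_one _).le
        have h4 : (0 : ℝ) ≤ 1 / (n : ℝ) := by positivity
        calc Int.fract ((n : ℝ) * v i) * (1 / (n : ℝ)) ≤ 1 * (1 / (n : ℝ)) :=
              mul_le_mul_of_nonneg_right h3 h4
          _ = 1 / (n : ℝ) := one_mul _
    rw [sub_zero] at h2
    refine h2.congr' ?_
    filter_upwards [eventually_gt_atTop 0] with n hn
    have hn' : (n : ℝ) ≠ 0 := by exact_mod_cast hn.ne'
    have h5 : (⌊(n : ℝ) * v i⌋ : ℝ) = (n : ℝ) * v i - Int.fract ((n : ℝ) * v i) := by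
      have := Int.floor_add_fract ((n : ℝ) * v i)
      linarith
    rw [h5]
    field_simp
  have h6 : Tendsto (fun n : ℕ => (if i = 0 then (1 : ℝ) else 0) / 2 * (1 / (n : ℝ))) atTop
      (𝓝 ((if i = 0 then (1 : ℝ) else 0) / 2 * 0)) :=
    tendsto_one_div_atTop_nhds_zero_nat.const_mul _
  have h7 := h1.add h6
  rw [mul_zero, add_zero] at h7
  refine h7.congr' ?_
  filter_upwards [eventually_gt_atTop 0] with n hn
  have hn' : (n : ℝ) ≠ 0 := by exact_mod_cast hn.ne'
  simp only [wvec, ivec]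
  push_cast
  by_cases hi : i = 0
  · simp only [hi, if_true]; field_simp
  · simp only [hi, if_false]; field_simp

theorem oneModTwo_refl (v : E) {n : ℕ} (hn : 0 < n) : OneModTwo (refl (wvec v n)) := by
  set u := ivec v n with hu
  have hn' : (n : ℝ) ≠ 0 := by exact_mod_cast hn.ne'
  set S : ℤ := ∑ k, u k ^ 2 with hS
  have hSodd : Odd S := by
    rw [hS, Fin.sum_univ_three]
    have h0 : Odd (u 0) := ⟨⌊(n : ℝ) * v 0⌋, by simp [hu, ivec]⟩
    have h1 : Even (u 1) := ⟨⌊(n : ℝ) * v 1⌋, by simp [hu, ivec]; ring⟩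
    have h2 : Even (u 2) := ⟨⌊(n : ℝ) * v 2⌋, by simp [hu, ivec]; ring⟩
    exact ((h0.pow).add_even (h1.pow_of_ne_zero (by norm_num))).add_even
      (h2.pow_of_ne_zero (by norm_num))
  have hSnn : 0 ≤ S := Finset.sum_nonneg fun k _ => sq_nonneg _
  have hSR : (S : ℝ) ≠ 0 := by
    intro h0
    have : S = 0 := by exact_mod_cast h0
    rw [this] at hSodd
    exact (by decide : ¬ Odd (0 : ℤ)) hSodd
  obtain ⟨N, hN⟩ := Int.eq_ofNat_of_zero_le hSnn
  refine ⟨N, fun i j => S * (1 : Matrix (Fin 3) (Fin 3) ℤ) i j - 2 * u i * u j, ?_, ?_, ?_⟩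
  · have : Odd ((N : ℤ)) := by rw [← hN]; exact hSodd
    exact_mod_cast this
  · intro i j
    rw [refl_entry]
    have hw : ∀ k, (wvec v n) k = (u k : ℝ) / (2 * n) := fun k => rfl
    have hsum : (∑ k, (wvec v n) k ^ 2) = (S : ℝ) / (2 * n) ^ 2 := by
      simp only [hw, div_pow]
      rw [← Finset.sum_div, hS]
      push_cast; rfl
    rw [hsum, hw, hw]
    have hNR : (N : ℝ) = (S : ℝ) := by rw [hN]; simp
    rw [hNR]
    push_cast
    have h1 : ((1 : Matrix (Fin 3) (Fin 3) ℤ) i j : ℝ) = if i = j then (1 : ℝ) else 0 := by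
      rw [Matrix.one_apply]; split_ifs <;> simp
    rw [h1]
    field_simp
  · intro i j
    have e1 : S * (1 : Matrix (Fin 3) (Fin 3) ℤ) i j - 2 * u i * u j -
        (1 : Matrix (Fin 3) (Fin 3) ℤ) i j =
        (S - 1) * (1 : Matrix (Fin 3) (Fin 3) ℤ) i j - 2 * (u i * u j) := by ring
    show Even (S * (1 : Matrix (Fin 3) (Fin 3) ℤ) i j - 2 * u i * u j -
        (1 : Matrix (Fin 3) (Fin 3) ℤ) i j)
    rw [e1]
    exact ((hSodd.sub_odd odd_one).mul_right _).sub (even_two_mul _)

theorem refl_mem_closure (v : E) : refl v ∈ closure {M : O3 | OneModTwo M} := by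
  by_cases hv : v = 0
  · have : refl v = 1 := by
      ext i j
      rw [refl_entry, hv]
      simp [Matrix.one_apply]
    rw [this]
    exact subset_closure oneModTwo_one
  · refine mem_closure_of_tendsto (f := fun n : ℕ => refl (wvec v n)) (b := atTop) ?_ ?_
    · rw [tendsto_subtype_rng]
      refine tendsto_pi_nhds.2 fun i => tendsto_pi_nhds.2 fun j => ?_
      simp only [refl_entry]
      have hne : (∑ k, v k ^ 2) ≠ 0 := by
        have hn : ‖v‖ ^ 2 = ∑ k, v k ^ 2 := by
          rw [EuclideanSpace.norm_sq_eq]; simp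
        rw [← hn]
        exact pow_ne_zero _ (norm_ne_zero_iff.2 hv)
      refine Tendsto.sub tendsto_const_nhds (Tendsto.div ?_ ?_ hne)
      · exact ((tendsto_wvec v i).const_mul 2).mul (tendsto_wvec v j)
      · exact tendsto_finset_sum _ fun k _ => (tendsto_wvec v k).pow 2
    · filter_upwards [eventually_gt_atTop 0] with n hn
      exact oneModTwo_refl v hn

/-- the submonoid -/
def D : Submonoid O3 where
  carrier := {M | OneModTwo M}
  mul_mem' := oneModTwo_mul
  one_mem' := oneModTwo_one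

theorem dense_D : Dense {M : O3 | OneModTwo M} := by
  intro M
  have hcl : (D.topologicalClosure : Set O3) = closure {M : O3 | OneModTwo M} :=
    rfl
  rw [← hcl]
  obtain ⟨l, -, hl⟩ := LinearIsometryEquiv.reflections_generate_dim (isoE M)
  have h1 : M = (l.map refl).prod := by
    have h2 : M = isoE.symm (isoE M) := (MulEquiv.symm_apply_apply _ _).symm
    rw [h2, hl, map_list_prod, List.map_map]
    rfl
  rw [h1]
  apply Submonoid.list_prod_mem
  intro K hK
  rw [List.mem_map] at hK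
  obtain ⟨v, -, rfl⟩ := hK
  have := refl_mem_closure v
  rw [← hcl] at this
  exact this

end Pool.Agent.Helper213.Div
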