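import Pool.Agent.Helper213.Div.Last

set_option autoImplicit false

open MeasureTheory Matrix Set Filter Topology
open scoped Pointwise ENNReal Manifold ContDiff

namespace Pool.Agent.Helper213.Div

/-- polynomial functions on the sphere -/
noncomputable def alg : Subalgebra ℝ C(S2, ℝ) := Algebra.adjoin ℝ (Set.range coord)

noncomputable def monoC (d : ℕ) (i : Fin d → Fin 3) : C(S2, ℝ) := ⟨mono d i, mono_cont d i⟩

noncomputable def cmp (φ : E ≃ₗᵢ[ℝ] E) (g : C(S2, ℝ)) : C(S2, ℝ) :=
  ⟨fun x => g (actH φ x), g.continuous.comp (actH φ).continuous⟩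

def SD (D : ℕ) : Set C(S2, ℝ) := ⋃ d ∈ Finset.range (D + 1), Set.range (monoC d)

def PP (D : ℕ) : Submodule ℝ C(S2, ℝ) := Submodule.span ℝ (SD D)

instance (D : ℕ) : FiniteDimensional ℝ (PP D) := by
  apply FiniteDimensional.span_of_finite
  exact Set.Finite.biUnion (Finset.finite_toSet _) fun d _ => Set.finite_range _

theorem monoC_mem_PP {d D : ℕ} (h : d ≤ D) (i : Fin d → Fin 3) : monoC d i ∈ PP D := by
  apply Submodule.subset_span
  simp only [SD, Set.mem_iUnion]
  exact ⟨d, Finset.mem_range.2 (Nat.lt_succ_of_le h), i, rfl⟩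

theorem PP_mono {D D' : ℕ} (h : D ≤ D') : PP D ≤ PP D' := by
  rw [PP, Submodule.span_le]
  intro g hg
  simp only [SD, Set.mem_iUnion] at hg
  obtain ⟨d, hd, i, rfl⟩ := hg
  exact monoC_mem_PP ((Nat.lt_succ_iff.1 (Finset.mem_range.1 hd)).trans h) i

theorem monoC_mem_alg (d : ℕ) (i : Fin d → Fin 3) : monoC d i ∈ alg := by
  have : monoC d i = ∏ k, coord (i k) := by
    ext x
    rw [ContinuousMap.prod_apply]
    rfl
  rw [this]
  exact Subalgebra.prod_mem _ fun k _ => Algebra.subset_adjoin ⟨i k, rfl⟩

theorem PP_le_alg (D : ℕ) : PP D ≤ Subalgebra.toSubmodule alg := by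
  rw [PP, Submodule.span_le]
  intro g hg
  simp only [SD, Set.mem_iUnion] at hg
  obtain ⟨d, hd, i, rfl⟩ := hg
  exact monoC_mem_alg d i

theorem exists_PP (g : C(S2, ℝ)) (hg : g ∈ alg) : ∃ D, g ∈ PP D := by
  have hg' : g ∈ Submodule.span ℝ (Submonoid.closure (Set.range coord) : Set C(S2, ℝ)) := by
    rw [← Algebra.adjoin_eq_span]; exact hg
  clear hg
  induction hg' using Submodule.span_induction with
  | mem g hg =>
    obtain ⟨d, i, hi⟩ := closure_mono g hg
    refine ⟨d, ?_⟩
    have : g = monoC d i := by ext x; exact hi x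
    rw [this]; exact monoC_mem_PP le_rfl i
  | zero => exact ⟨0, zero_mem _⟩
  | add g h _ _ ig ih =>
    obtain ⟨D, hD⟩ := ig
    obtain ⟨D', hD'⟩ := ih
    exact ⟨max D D', add_mem (PP_mono (le_max_left _ _) hD) (PP_mono (le_max_right _ _) hD')⟩
  | smul c g _ ig =>
    obtain ⟨D, hD⟩ := ig
    exact ⟨D, Submodule.smul_mem _ _ hD⟩

theorem cmp_mem (φ : E ≃ₗᵢ[ℝ] E) {D : ℕ} {g : C(S2, ℝ)} (hg : g ∈ PP D) : cmp φ g ∈ PP D := by
  rw [PP] at hg
  induction hg using Submodule.span_induction with
  | mem g hg =>
    simp only [SD, Set.mem_iUnion] at hg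
    obtain ⟨d, hd, i, rfl⟩ := hg
    have : cmp φ (monoC d i) = ∑ j, Mt d (mat φ) i j • monoC d j := by
      ext x
      rw [ContinuousMap.sum_apply]
      show mono d i (actH φ x) = _
      rw [mono_act]
      rfl
    rw [this]
    exact Submodule.sum_mem _ fun j _ => Submodule.smul_mem _ _
      (monoC_mem_PP (Nat.lt_succ_iff.1 (Finset.mem_range.1 hd)) j)
  | zero =>
    have : cmp φ 0 = 0 := by ext x; rfl
    rw [this]; exact zero_mem _
  | add g h _ _ ig ih =>
    have : cmp φ (g + h) = cmp φ g + cmp φ h := by ext x; rfl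
    rw [this]; exact add_mem ig ih
  | smul c g _ ig =>
    have : cmp φ (c • g) = c • cmp φ g := by ext x; rfl
    rw [this]; exact Submodule.smul_mem _ _ ig

noncomputable def Bi (g h : C(S2, ℝ)) : ℝ := ∫ x, g x * h x ∂sig

theorem intC (μ : Measure S2) [IsFiniteMeasure μ] (g : C(S2, ℝ)) : Integrable (fun x => g x) μ :=
  g.continuous.integrable_of_hasCompactSupport (HasCompactSupport.of_compactSpace _)

theorem intCC (μ : Measure S2) [IsFiniteMeasure μ] (g h : C(S2, ℝ)) :
    Integrable (fun x => g x * h x) μ := intC μ (g * h)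

theorem Bi_self {g : C(S2, ℝ)} (h : Bi g g = 0) : g = 0 := by
  have h1 : (fun x => g x * g x) =ᵐ[sig] 0 :=
    (integral_eq_zero_iff_of_nonneg (fun x => mul_self_nonneg (g x)) (intCC sig g g)).1 h
  have h2 : (fun x => g x * g x) = 0 :=
    (Continuous.ae_eq_iff_eq sig (g * g).continuous continuous_const).1 h1
  ext x
  have := congrFun h2 x
  exact mul_self_eq_zero.1 this

noncomputable def BiL (D : ℕ) : PP D →ₗ[ℝ] (PP D →ₗ[ℝ] ℝ) :=
  LinearMap.mk₂ ℝ (fun g h => Bi g.1 h.1)
    (fun g g' h => by
      simp only [Bi, Submodule.coe_add, ContinuousMap.add_apply, add_mul]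
      exact integral_add (intCC sig _ _) (intCC sig _ _))
    (fun c g h => by
      simp only [Bi, Submodule.coe_smul, ContinuousMap.smul_apply, smul_eq_mul, mul_assoc]
      exact integral_const_mul _ _)
    (fun g h h' => by
      simp only [Bi, Submodule.coe_add, ContinuousMap.add_apply, mul_add]
      exact integral_add (intCC sig _ _) (intCC sig _ _))
    (fun c g h => by
      simp only [Bi, Submodule.coe_smul, ContinuousMap.smul_apply, smul_eq_mul]
      rw [← integral_const_mul]
      congr 1; ext x; ring)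

theorem BiL_surj (D : ℕ) : Function.Surjective (BiL D) := by
  have hinj : Function.Injective (BiL D) := by
    rw [injective_iff_map_eq_zero]
    intro g hg
    have h1 : Bi g.1 g.1 = 0 := by
      have := LinearMap.congr_fun hg g
      simpa [BiL] using this
    exact Subtype.ext (Bi_self h1)
  exact (LinearMap.injective_iff_surjective_of_finrank_eq_finrank
    (Subspace.dual_finrank_eq (K := ℝ) (V := PP D)).symm).1 hinj

theorem Bi_cmp (φ : E ≃ₗᵢ[ℝ] E) (g h : C(S2, ℝ)) : Bi (cmp φ.symm g) h = Bi g (cmp φ h) := by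
  have := int_act φ (fun x => g (actH φ.symm x) * h x)
  simp only [Bi, cmp, ContinuousMap.coe_mk]
  rw [← this]
  congr 1; ext x
  have : actH φ.symm (actH φ x) = x := by ext1; simp
  rw [this]

/-- no division when the polynomial kernel is contained in a bounded degree -/
theorem inf_kernel (φ ψ : E ≃ₗᵢ[ℝ] E) (A : Set S2) (hA : NullMeasurableSet A sig)
    (h1 : AEDisjoint sig A (actH φ '' A)) (h2 : AEDisjoint sig A (actH ψ '' A))
    (h3 : AEDisjoint sig (actH φ '' A) (actH ψ '' A))
    (hcov : ∀ᵐ x ∂sig, x ∈ A ∪ actH φ '' A ∪ actH ψ '' A) (D0 : ℕ)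
    (hK : ∀ g ∈ alg, (∀ x, g x + g (actH φ.symm x) + g (actH ψ.symm x) = 0) → g ∈ PP D0) :
    False := by
  set L : C(S2, ℝ) → ℝ := fun h => ∫ x in A, h x ∂sig - (1 / 3) * ∫ x, h x ∂sig with hL
  have hLadd : ∀ g h, L (g + h) = L g + L h := by
    intro g h
    simp only [hL, ContinuousMap.add_apply]
    rw [integral_add (intC _ g) (intC _ h), integral_add (intC _ g) (intC _ h)]
    ring
  have hLsmul : ∀ (c : ℝ) h, L (c • h) = c * L h := by
    intro c h
    simp only [hL, ContinuousMap.smul_apply, smul_eq_mul]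
    rw [integral_const_mul, integral_const_mul]
    ring
  have hLinv : ∀ h, L h + L (cmp φ h) + L (cmp ψ h) = 0 := by
    intro h
    have e1 := split_int φ ψ A hA h1 h2 h3 hcov (fun x => h x) h.continuous
    have e2 : ∫ x, (cmp φ h) x ∂sig = ∫ x, h x ∂sig := int_act φ (fun x => h x)
    have e3 : ∫ x, (cmp ψ h) x ∂sig = ∫ x, h x ∂sig := int_act ψ (fun x => h x)
    have e4 : ∫ x in A, (cmp φ h) x ∂sig = ∫ x in A, h (actH φ x) ∂sig := rfl
    have e5 : ∫ x in A, (cmp ψ h) x ∂sig = ∫ x in A, h (actH ψ x) ∂sig := rfl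
    simp only [hL]
    rw [e2, e3, e4, e5]
    linarith
  -- projections
  have hproj : ∀ D, ∃ g ∈ PP D, ∀ h ∈ PP D, Bi g h = L h := by
    intro D
    let ℓ : PP D →ₗ[ℝ] ℝ :=
      { toFun := fun h => L h.1
        map_add' := fun g h => hLadd _ _
        map_smul' := fun c h => hLsmul _ _ }
    obtain ⟨g, hg⟩ := BiL_surj D ℓ
    refine ⟨g.1, g.2, fun h hh => ?_⟩
    exact LinearMap.congr_fun hg ⟨h, hh⟩
  have hker : ∀ D, ∀ g ∈ PP D, (∀ h ∈ PP D, Bi g h = L h) → g ∈ PP D0 := by
    intro D g hg hgL
    refine hK g (PP_le_alg D hg) ?_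
    set T : C(S2, ℝ) := g + cmp φ.symm g + cmp ψ.symm g with hT
    have hTm : T ∈ PP D := add_mem (add_mem hg (cmp_mem _ hg)) (cmp_mem _ hg)
    have hB : ∀ h ∈ PP D, Bi T h = 0 := by
      intro h hh
      have e0 : Bi T h = Bi g h + Bi (cmp φ.symm g) h + Bi (cmp ψ.symm g) h := by
        simp only [Bi, hT, ContinuousMap.add_apply, add_mul]
        have i1 : Integrable (fun x => g x * h x + (cmp φ.symm g) x * h x) sig :=
          (intCC sig g h).add (intCC sig (cmp φ.symm g) h)
        rw [integral_add i1 (intCC sig (cmp ψ.symm g) h),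
          integral_add (intCC sig g h) (intCC sig (cmp φ.symm g) h)]
      rw [e0, Bi_cmp, Bi_cmp, hgL h hh, hgL _ (cmp_mem _ hh), hgL _ (cmp_mem _ hh)]
      exact hLinv h
    have hT0 := Bi_self (hB T hTm)
    intro x
    have := congrArg (fun f : C(S2, ℝ) => f x) hT0
    exact this
  obtain ⟨g, hg, hgL⟩ := hproj D0
  have hall : ∀ h ∈ alg, Bi g h = L h := by
    intro h hh
    obtain ⟨D, hD⟩ := exists_PP h hh
    obtain ⟨g', hg', hgL'⟩ := hproj (max D D0)
    have hg'' := hker _ g' hg' hgL'
    have hz : Bi (g' - g) (g' - g) = 0 := by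
      have hm : g' - g ∈ PP D0 := sub_mem hg'' hg
      have e1 : Bi (g' - g) (g' - g) = Bi g' (g' - g) - Bi g (g' - g) := by
        simp only [Bi]
        rw [← integral_sub (intCC sig g' (g' - g)) (intCC sig g (g' - g))]
        congr 1; ext x
        simp only [ContinuousMap.sub_apply]; ring
      rw [e1, hgL _ hm, hgL' _ (PP_mono (le_max_right _ _) hm), sub_self]
    have hgg : g' = g := sub_eq_zero.1 (Bi_self hz)
    rw [← hgg]
    exact hgL' h (PP_mono (le_max_left _ _) hD)
  -- density
  have hsep : alg.SeparatesPoints := by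
    intro x y hxy
    have : ∃ i, (x : E) i ≠ (y : E) i := by
      by_contra hcon
      push Not at hcon
      apply hxy
      ext i
      exact hcon i
    obtain ⟨i, hi⟩ := this
    exact ⟨coord i, ⟨coord i, Algebra.subset_adjoin ⟨i, rfl⟩, rfl⟩, hi⟩
  have htop := ContinuousMap.subalgebra_topologicalClosure_eq_top_of_separatesPoints alg hsep
  have hall2 : ∀ h : C(S2, ℝ), Bi g h = L h := by
    intro h
    have hcl : IsClosed {h : C(S2, ℝ) | Bi g h = L h} := by
      refine isClosed_eq ?_ ?_
      · have : (Bi g) = fun h => ∫ x, (g * h) x ∂sig := rfl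
        rw [this]
        exact (cont_int sig).comp (continuous_const.mul continuous_id)
      · exact (cont_int (sig.restrict A)).sub (continuous_const.mul (cont_int sig))
    have hm : h ∈ alg.topologicalClosure := by rw [htop]; trivial
    exact hcl.closure_subset_iff.2 (fun k hk => hall k hk) hm
  -- a.e. identification
  have hFint : Integrable (fun x => (g x + 1 / 3) - A.indicator (fun _ => (1 : ℝ)) x) sig := by
    exact ((intC sig g).add (integrable_const _)).sub ((integrable_const _).indicator₀ hA)
  have hFz : ∀ h : C(S2, ℝ),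
      ∫ x, h x • ((g x + 1 / 3) - A.indicator (fun _ => (1 : ℝ)) x) ∂sig = 0 := by
    intro h
    have e1 : (fun x => h x • ((g x + 1 / 3) - A.indicator (fun _ => (1 : ℝ)) x)) =
        fun x => (g x * h x + (1 / 3) * h x) - A.indicator (fun x => h x) x := by
      ext x
      by_cases hx : x ∈ A
      · simp [hx]; ring
      · simp [hx]; ring
    rw [e1, integral_sub, integral_add, integral_const_mul, integral_indicator₀ hA]
    · have := hall2 h
      simp only [Bi, hL] at this
      rw [this]; ring
    · exact intCC sig g h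
    · exact (intC sig h).const_mul _
    · exact (intCC sig g h).add ((intC sig h).const_mul _)
    · exact (intC sig h).indicator₀ hA
  have : Fact (Module.finrank ℝ E = 2 + 1) := ⟨by simp⟩
  have hae : ∀ᵐ x ∂sig, (g x + 1 / 3) - A.indicator (fun _ => (1 : ℝ)) x = 0 := by
    refine ae_eq_zero_of_integral_contMDiff_smul_eq_zero (𝓡 2) hFint.locallyIntegrable ?_
    intro k hk _
    exact hFz ⟨k, hk.continuous⟩
  -- g + 1/3 is idempotent
  have hid : ∀ x, (g x + 1 / 3) * (g x + 1 / 3) = g x + 1 / 3 := by
    have h5 : (fun x => (g x + 1 / 3) * (g x + 1 / 3)) =ᵐ[sig] fun x => g x + 1 / 3 := by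
      filter_upwards [hae] with x hx
      have hx' : g x + 1 / 3 = A.indicator (fun _ => (1 : ℝ)) x := by linarith
      rw [hx']
      by_cases hxA : x ∈ A
      · simp [hxA]
      · simp [hxA]
    have hc1 : Continuous fun x => (g x + 1 / 3) * (g x + 1 / 3) :=
      (g.continuous.add continuous_const).mul (g.continuous.add continuous_const)
    have hc2 : Continuous fun x => g x + 1 / 3 := g.continuous.add continuous_const
    exact fun x => congrFun ((Continuous.ae_eq_iff_eq sig hc1 hc2).1 h5) x
  have hconst : ∃ c : ℝ, ∀ x, g x = c := by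
    have hpc : PreconnectedSpace S2 := by
      apply isPreconnected_iff_preconnectedSpace.1
      exact (isConnected_sphere (by
        rw [← Module.finrank_eq_rank']
        simp) (0 : E) zero_le_one).isPreconnected
    have hcl : ∀ x y, g x = g y := by
      have hopen : IsClopen {x : S2 | g x + 1 / 3 = 1} := by
        have hc : {x : S2 | g x + 1 / 3 = 1} = {x : S2 | 1 / 2 < g x + 1 / 3} := by
          ext x
          simp only [Set.mem_ofPred_eq]
          constructor
          · intro h; rw [h]; norm_num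
          · intro h
            have := hid x
            have h6 : (g x + 1 / 3) * ((g x + 1 / 3) - 1) = 0 := by linarith
            rcases mul_eq_zero.1 h6 with h7 | h7
            · rw [h7] at h; norm_num at h
            · linarith
        constructor
        · exact isClosed_eq (g.continuous.add continuous_const) continuous_const
        · rw [hc]; exact isOpen_lt continuous_const (g.continuous.add continuous_const)
      rcases isClopen_iff.1 hopen with h | h
      · intro x y
        have hx0 : ∀ x, g x + 1 / 3 = 0 := by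
          intro x
          have h6 : (g x + 1 / 3) * ((g x + 1 / 3) - 1) = 0 := by
            have := hid x; linarith
          rcases mul_eq_zero.1 h6 with h7 | h7
          · exact h7
          · exfalso
            have : x ∈ {x : S2 | g x + 1 / 3 = 1} := by
              show g x + 1 / 3 = 1
              linarith
            rw [h] at this; exact this
        linarith [hx0 x, hx0 y]
      · intro x y
        have hx1 : ∀ x, g x + 1 / 3 = 1 := by
          intro x
          have : x ∈ {x : S2 | g x + 1 / 3 = 1} := by rw [h]; trivial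
          exact this
        linarith [hx1 x, hx1 y]
    by_cases hne : Nonempty S2
    · obtain ⟨x0⟩ := hne
      exact ⟨g x0, fun x => hcl x x0⟩
    · exact ⟨0, fun x => (hne ⟨x⟩).elim⟩
  obtain ⟨c, hc⟩ := hconst
  have hs : sig ≠ 0 := Measure.toSphere_ne_zero (volume : Measure E)
  have hsr : sig.real univ ≠ 0 := by
    rw [measureReal_def]
    intro h0
    rcases (ENNReal.toReal_eq_zero_iff _).1 h0 with h6 | h6
    · exact hs (Measure.measure_univ_eq_zero.1 h6)
    · exact measure_ne_top _ _ h6
  have hone := hall2 1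
  have hinv1 := hLinv 1
  have ec : ∀ χ : E ≃ₗᵢ[ℝ] E, cmp χ 1 = 1 := by intro χ; ext x; rfl
  rw [ec, ec] at hinv1
  have hL1 : L 1 = 0 := by linarith
  rw [hL1] at hone
  have hc0 : c = 0 := by
    have : Bi g 1 = c * sig.real univ := by
      simp only [Bi, hc, ContinuousMap.one_apply, mul_one]
      rw [integral_const]; simp [mul_comm]
    rw [this] at hone
    rcases mul_eq_zero.1 hone with h | h
    · exact h
    · exact absurd h hsr
  have hne : Nonempty S2 := by
    by_contra hcon
    rw [not_nonempty_iff] at hcon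
    exact hs (Measure.eq_zero_of_isEmpty _)
  obtain ⟨x0⟩ := hne
  have := hid x0
  rw [hc x0, hc0] at this
  norm_num at this

end Pool.Agent.Helper213.Div
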