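import Pool.Agent.Helper213.Div.Kernel

set_option autoImplicit false

open MeasureTheory Matrix Set Filter Topology

namespace Pool.Agent.Helper213.Div

/-- `x = ρ y` on the sphere -/
def IsImg (ρ : Matrix (Fin 3) (Fin 3) ℝ) (y x : S2) : Prop :=
  (x : E) = WithLp.toLp 2 (ρ *ᵥ (y : E).ofLp)

theorem isImg_symm (M : O3) (x : S2) : IsImg M.1 (actH (isoE M).symm x) x := by
  unfold IsImg
  rw [← isoE_apply]
  rw [actH_coe]
  simp

theorem kernel_infinite (ρ τ : O3) (A : Set S2) (hA : NullMeasurableSet A sig)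
    (h1 : AEDisjoint sig A (actH (isoE ρ) '' A)) (h2 : AEDisjoint sig A (actH (isoE τ) '' A))
    (h3 : AEDisjoint sig (actH (isoE ρ) '' A) (actH (isoE τ) '' A))
    (hcov : ∀ᵐ x ∂sig, x ∈ A ∪ actH (isoE ρ) '' A ∪ actH (isoE τ) '' A)
    (K : Submodule ℝ C(S2, ℝ))
    (hK : ∀ g : C(S2, ℝ), g ∈ K ↔ (g ∈ alg ∧ ∀ x y z : S2, IsImg ρ.1 y x → IsImg τ.1 z x →
      g x + g y + g z = 0)) : ¬ FiniteDimensional ℝ K := by
  classical
  intro hfin
  -- a finite spanning set lies in some PP D
  have hfg : K.FG := (Submodule.fg_top K).1 (Module.Finite.fg_top)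
  obtain ⟨s, hs⟩ := hfg
  have hsalg : ∀ g ∈ s, g ∈ alg := by
    intro g hg
    have : g ∈ K := by rw [← hs]; exact Submodule.subset_span hg
    exact ((hK g).1 this).1
  have hD : ∃ D, ∀ g ∈ s, g ∈ PP D := by
    clear hs
    induction s using Finset.induction_on with
    | empty => exact ⟨0, fun g hg => by simp at hg⟩
    | insert g s _ ih =>
      obtain ⟨D, hD⟩ := ih (fun g hg => hsalg g (Finset.mem_insert_of_mem hg))
      obtain ⟨D', hD'⟩ := exists_PP g (hsalg g (Finset.mem_insert_self _ _))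
      refine ⟨max D D', fun h hh => ?_⟩
      rcases Finset.mem_insert.1 hh with h1 | h1
      · rw [h1]; exact PP_mono (le_max_right _ _) hD'
      · exact PP_mono (le_max_left _ _) (hD h h1)
  obtain ⟨D, hD⟩ := hD
  have hKD : K ≤ PP D := by
    rw [← hs, Submodule.span_le]
    intro g hg
    exact hD g hg
  refine inf_kernel (isoE ρ) (isoE τ) A hA h1 h2 h3 hcov D ?_
  intro g hg hgx
  apply hKD
  rw [hK]
  refine ⟨hg, fun x y z hy hz => ?_⟩
  have ey : y = actH (isoE ρ).symm x := by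
    ext1
    rw [actH_coe, hy, ← isoE_apply]
    simp
  have ez : z = actH (isoE τ).symm x := by
    ext1
    rw [actH_coe, hz, ← isoE_apply]
    simp
  rw [ey, ez]
  exact hgx x

end Pool.Agent.Helper213.Div
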