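import Pool.Agent.Helper213.Div.Fiber2

set_option autoImplicit false

open MeasureTheory Matrix Set Filter Topology
open scoped Pointwise ENNReal

namespace Pool.Agent.Helper213.Div

theorem Mt_neg (d : ℕ) (τ : Matrix (Fin 3) (Fin 3) ℝ) : Mt d (-τ) = (-1 : ℝ) ^ d • Mt d τ := by
  have : -τ = (-1 : ℝ) • τ := by simp
  rw [this, Mt_smul]

theorem mem_closure_O3 (d : ℕ) (ρ : Matrix (Fin 3) (Fin 3) ℝ) (hρ : ρᵀ * ρ = 1) (K : O3) :
    K ∈ closure {τ : O3 | (Td d ρ τ.1).det ≠ 0} := by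
  rcases det_O3 K with hK | hK
  · have hA : ((1 + Mt d ρ) + (1 : ℝ) • 1).det ≠ 0 := by
      rw [one_smul]; exact det_two_add _ (Mt_orth d ρ hρ)
    have := mem_closure_good d (1 + Mt d ρ) 1 hA K hK
    simp only [← Td_eq] at this
    exact this
  · have hA : ((1 + Mt d ρ) + ((-1 : ℝ) ^ d) • 1).det ≠ 0 := by
      rcases neg_one_pow_eq_or ℝ d with h | h
      · rw [h, one_smul]; exact det_two_add _ (Mt_orth d ρ hρ)
      · rw [h, neg_smul, one_smul]
        have : (1 : Matrix (Fin d → Fin 3) (Fin d → Fin 3) ℝ) + Mt d ρ + -1 = Mt d ρ := by abel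
        rw [this]
        intro h0
        have h1 := congrArg Matrix.det (Mt_orth d ρ hρ)
        rw [Matrix.det_mul, h0, mul_zero, Matrix.det_one] at h1
        exact zero_ne_one h1
    have hneg : (-K).1.det = 1 := by
      have : (-K).1 = -K.1 := rfl
      rw [this, Matrix.det_neg, hK]; simp
      norm_num
    have h2 := mem_closure_good d (1 + Mt d ρ) ((-1 : ℝ) ^ d) hA (-K) hneg
    have hc : Continuous fun M : O3 => -M :=
      Continuous.subtype_mk (continuous_neg.comp continuous_subtype_val) _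
    have h3 : -(-K) ∈ closure {τ : O3 | (Td d ρ τ.1).det ≠ 0} := by
      refine map_mem_closure hc h2 ?_
      intro M hM
      show (Td d ρ (-M).1).det ≠ 0
      have : (-M).1 = -M.1 := rfl
      rw [this, Td_eq, one_smul, Mt_neg]
      exact hM
    rwa [neg_neg] at h3

theorem residual_fiber_O3 (ρ : Matrix (Fin 3) (Fin 3) ℝ) (hρ : ρᵀ * ρ = 1) :
    ∀ᶠ τ : O3 in residual O3, ∀ d, (Td d ρ τ.1).det ≠ 0 := by
  rw [eventually_countable_forall]
  intro d
  refine residual_of_dense_open (s := {τ : O3 | (Td d ρ τ.1).det ≠ 0}) ?_ ?_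
  · exact isOpen_ne_fun (continuous_Td d _ _ continuous_const continuous_subtype_val)
      continuous_const
  · intro K
    exact mem_closure_O3 d ρ hρ K

theorem nq_pos (q : Fin 4 → ℝ) (hq : q ≠ 0) : 0 < nq q := by
  by_contra hcon
  push Not at hcon
  apply hq
  unfold nq at hcon
  have h0 : q 0 = 0 := by nlinarith [sq_nonneg (q 0), sq_nonneg (q 1), sq_nonneg (q 2), sq_nonneg (q 3)]
  have h1 : q 1 = 0 := by nlinarith [sq_nonneg (q 0), sq_nonneg (q 1), sq_nonneg (q 2), sq_nonneg (q 3)]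
  have h2 : q 2 = 0 := by nlinarith [sq_nonneg (q 0), sq_nonneg (q 1), sq_nonneg (q 2), sq_nonneg (q 3)]
  have h3 : q 3 = 0 := by nlinarith [sq_nonneg (q 0), sq_nonneg (q 1), sq_nonneg (q 2), sq_nonneg (q 3)]
  ext i
  fin_cases i
  · exact h0
  · exact h1
  · exact h2
  · exact h3

theorem Qm_orth (q : Fin 4 → ℝ) : (Qm q)ᵀ * Qm q = nq q ^ 2 • 1 := by
  ext i j
  fin_cases i <;> fin_cases j <;>
    simp [Qm, nq, Matrix.mul_apply, Fin.sum_univ_three] <;> ring

theorem Qm_det (q : Fin 4 → ℝ) : (Qm q).det = nq q ^ 3 := by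
  rw [Matrix.det_fin_three]
  simp [Qm, nq]
  ring

theorem exists_rot (q : Fin 4 → ℝ) (hq : q ≠ 0) :
    ∃ τ : SO3, nq q • τ.1 = Qm q := by
  have hn : nq q ≠ 0 := (nq_pos q hq).ne'
  have horth : ((nq q)⁻¹ • Qm q)ᵀ * ((nq q)⁻¹ • Qm q) = 1 := by
    rw [Matrix.transpose_smul, Matrix.smul_mul, Matrix.mul_smul, Qm_orth, smul_smul, smul_smul]
    have : (nq q)⁻¹ * ((nq q)⁻¹ * nq q ^ 2) = 1 := by field_simp
    rw [← mul_assoc] at this
    rw [this, one_smul]
  have hdet : ((nq q)⁻¹ • Qm q).det = 1 := by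
    rw [Matrix.det_smul, Qm_det]
    simp
    field_simp
  refine ⟨⟨(nq q)⁻¹ • Qm q, ?_⟩, ?_⟩
  · rw [Matrix.mem_specialOrthogonalGroup_iff, Matrix.mem_orthogonalGroup_iff']
    exact ⟨horth, hdet⟩
  · show nq q • ((nq q)⁻¹ • Qm q) = Qm q
    rw [smul_smul, mul_inv_cancel₀ hn, one_smul]

theorem rot_surj (τ : SO3) : ∃ q : Fin 4 → ℝ, q ≠ 0 ∧ nq q • τ.1 = Qm q := by
  rcases decomp (toO3 τ) τ.2.2 with h | ⟨u, v, hu, hv, h⟩
  · refine ⟨q1, ?_, ?_⟩
    · intro h0
      have := congrFun h0 0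
      simp [q1] at this
    · have h1 : τ.1 = 1 := congrArg Subtype.val h
      rw [h1]
      have h2 : Qm (q1 : Fin 4 → ℝ) = 1 := by
        ext i j
        fin_cases i <;> fin_cases j <;> simp [Qm, q1]
      have h3 : nq (q1 : Fin 4 → ℝ) = 1 := by simp [nq, q1]
      rw [h2, h3, one_smul]
  · have hu' := nv_ne u hu
    have hv' := nv_ne v hv
    have h1 : τ.1 = (refl u).1 * (refl v).1 := congrArg Subtype.val h
    set q : Fin 4 → ℝ := ![-(u 0 * v 0 + u 1 * v 1 + u 2 * v 2),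
      u 1 * v 2 - u 2 * v 1, u 2 * v 0 - u 0 * v 2, u 0 * v 1 - u 1 * v 0] with hq
    have hn : nq q = nv (fun i => u i) * nv (fun i => v i) := by
      simp only [nq, nv, hq, Fin.sum_univ_three]
      simp
      ring
    have hQ : Rn (fun i => u i) * Rn (fun i => v i) = Qm q := by
      ext i j
      rw [Matrix.mul_apply]
      simp only [Rn, Qm, hq, Fin.sum_univ_three]
      fin_cases i <;> fin_cases j <;> simp <;> ring
    refine ⟨q, ?_, ?_⟩
    · intro h0
      have : nq q = 0 := by rw [h0]; simp [nq]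
      rw [this] at hn
      exact mul_ne_zero hu' hv' hn.symm
    · rw [← hQ, Rn_eq u hu', Rn_eq v hv', Matrix.smul_mul, Matrix.mul_smul, smul_smul, hn, h1]

end Pool.Agent.Helper213.Div
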