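import Pool.Agent.Helper213.Div.Generic

set_option autoImplicit false

open MeasureTheory Matrix Set Filter Topology
open scoped Pointwise ENNReal

namespace Pool.Agent.Helper213.Div

abbrev V8 := (Fin 4 → ℝ) × (Fin 4 → ℝ)

instance instHaarV8 : (volume : Measure V8).IsAddHaarMeasure :=
  Measure.prod.instIsAddHaarMeasure (volume : Measure (Fin 4 → ℝ))
    (volume : Measure (Fin 4 → ℝ))

theorem null_of_lines (P : V8 → ℝ) (hP : Continuous P) (q0 : V8)
    (h : ∀ v : V8, (volume : Measure ℝ) {t | P (q0 + t • v) = 0} = 0) :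
    (volume : Measure V8) {x | P x = 0} = 0 := by
  set Z : Set V8 := {x | P (q0 + x) = 0} with hZ
  have hZm : MeasurableSet Z :=
    (isClosed_eq (hP.comp (continuous_const.add continuous_id)) continuous_const).measurableSet
  have hS : MeasurableSet {y : V8 × ℝ | P (q0 + y.2 • y.1) = 0} :=
    (isClosed_eq (hP.comp (continuous_const.add (continuous_snd.smul continuous_fst)))
      continuous_const).measurableSet
  have h1 : ((volume : Measure V8).prod (volume : Measure ℝ))
      {y : V8 × ℝ | P (q0 + y.2 • y.1) = 0} = 0 := by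
    rw [Measure.measure_prod_null hS]
    exact Filter.Eventually.of_forall fun v => h v
  have hS' : MeasurableSet {y : ℝ × V8 | P (q0 + y.1 • y.2) = 0} :=
    (isClosed_eq (hP.comp (continuous_const.add (continuous_fst.smul continuous_snd)))
      continuous_const).measurableSet
  have h2 : ((volume : Measure ℝ).prod (volume : Measure V8))
      {y : ℝ × V8 | P (q0 + y.1 • y.2) = 0} = 0 := by
    rw [← Measure.prod_swap, Measure.map_apply measurable_swap hS']
    exact h1
  rw [Measure.measure_prod_null hS'] at h2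
  have h3 : ∀ᵐ t : ℝ, t ≠ 0 := by
    rw [ae_iff]; simp
  obtain ⟨t, ht, ht0⟩ := (h2.and h3).exists
  have h4 : (volume : Measure V8) ((fun x => t • x) ⁻¹' Z) = 0 := ht
  rw [Measure.addHaar_preimage_smul _ ht0] at h4
  have h5 : (volume : Measure V8) Z = 0 := by
    rcases mul_eq_zero.1 h4 with h6 | h6
    · exfalso
      rw [ENNReal.ofReal_eq_zero] at h6
      have : 0 < |(t ^ Module.finrank ℝ V8)⁻¹| := abs_pos.2 (inv_ne_zero (pow_ne_zero _ ht0))
      linarith
    · exact h6
  have h7 : {x | P x = 0} = (fun x => -q0 + x) ⁻¹' Z := by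
    ext x; simp [hZ]
  rw [h7, measure_preimage_add]
  exact h5

section quat
variable {R : Type*} [CommRing R]

/-- Euler-Rodrigues numerators -/
def Qm (q : Fin 4 → R) : Matrix (Fin 3) (Fin 3) R :=
  !![q 0 ^ 2 + q 1 ^ 2 - q 2 ^ 2 - q 3 ^ 2, 2 * (q 1 * q 2 - q 0 * q 3), 2 * (q 1 * q 3 + q 0 * q 2);
     2 * (q 1 * q 2 + q 0 * q 3), q 0 ^ 2 - q 1 ^ 2 + q 2 ^ 2 - q 3 ^ 2, 2 * (q 2 * q 3 - q 0 * q 1);
     2 * (q 1 * q 3 - q 0 * q 2), 2 * (q 2 * q 3 + q 0 * q 1), q 0 ^ 2 - q 1 ^ 2 - q 2 ^ 2 + q 3 ^ 2]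

def nq (q : Fin 4 → R) : R := q 0 ^ 2 + q 1 ^ 2 + q 2 ^ 2 + q 3 ^ 2

def DET (d : ℕ) (q q' : Fin 4 → R) : R :=
  ((nq q * nq q') ^ d • (1 : Matrix (Fin d → Fin 3) (Fin d → Fin 3) R)
    + nq q' ^ d • Mt d (Qm q) + nq q ^ d • Mt d (Qm q')).det

theorem nq_map {S : Type*} [CommRing S] (f : R →+* S) (q : Fin 4 → R) :
    nq (fun i => f (q i)) = f (nq q) := by simp [nq]

theorem Qm_map {S : Type*} [CommRing S] (f : R →+* S) (q : Fin 4 → R) :
    Qm (fun i => f (q i)) = (Qm q).map f := by
  have h2 : f 2 = 2 := map_ofNat f 2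
  ext i j
  fin_cases i <;> fin_cases j <;> simp [Qm, h2]

theorem DET_map {S : Type*} [CommRing S] (f : R →+* S) (d : ℕ) (q q' : Fin 4 → R) :
    DET d (fun i => f (q i)) (fun i => f (q' i)) = f (DET d q q') := by
  unfold DET
  rw [RingHom.map_det, nq_map, nq_map, Qm_map, Qm_map, Mt_map, Mt_map]
  congr 1
  ext i j
  simp only [RingHom.mapMatrix_apply, Matrix.map_apply, Matrix.add_apply, Matrix.smul_apply,
    Matrix.one_apply, map_add, smul_eq_mul, map_mul, map_pow]
  by_cases hij : i = j
  · simp [hij]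
  · simp [hij]

end quat

/-- base quaternion -/
def q1 {R : Type*} [CommRing R] : Fin 4 → R := ![1, 0, 0, 0]

theorem DET_q1 {R : Type*} [CommRing R] (d : ℕ) :
    DET d (q1 : Fin 4 → R) q1 = 3 ^ Fintype.card (Fin d → Fin 3) := by
  have h1 : Qm (q1 : Fin 4 → R) = 1 := by
    ext i j
    fin_cases i <;> fin_cases j <;> simp [Qm, q1]
  have h2 : nq (q1 : Fin 4 → R) = 1 := by simp [nq, q1]
  unfold DET
  rw [h1, h2, Mt_one]
  have : (((1 : R) * 1) ^ d • (1 : Matrix (Fin d → Fin 3) (Fin d → Fin 3) R)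
    + (1 : R) ^ d • (1 : Matrix (Fin d → Fin 3) (Fin d → Fin 3) R)
    + (1 : R) ^ d • (1 : Matrix (Fin d → Fin 3) (Fin d → Fin 3) R)) =
      (3 : R) • (1 : Matrix (Fin d → Fin 3) (Fin d → Fin 3) R) := by
    simp only [one_mul, one_pow, one_smul]
    have : (3 : R) = 1 + 1 + 1 := by norm_num
    rw [this, add_smul, add_smul, one_smul]
  rw [this, Matrix.det_smul, Matrix.det_one, mul_one]

theorem DET_cont (d : ℕ) : Continuous fun p : V8 => DET d p.1 p.2 := by
  unfold DET
  apply Continuous.matrix_det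
  refine continuous_matrix fun i j => ?_
  have hq : ∀ (s : V8 → Fin 4 → ℝ), Continuous s → Continuous fun p => nq (s p) := by
    intro s hs
    have : ∀ k, Continuous fun p => s p k := fun k => (continuous_apply k).comp hs
    unfold nq
    fun_prop
  have hM : ∀ (s : V8 → Fin 4 → ℝ), Continuous s →
      Continuous fun p => Mt d (Qm (s p)) i j := by
    intro s hs
    have hk : ∀ k, Continuous fun p => s p k := fun k => (continuous_apply k).comp hs
    unfold Mt
    refine continuous_finsetProd _ fun k _ => ?_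
    have : ∀ a b : Fin 3, Continuous fun p => Qm (s p) a b := by
      intro a b
      fin_cases a <;> fin_cases b <;> simp [Qm] <;> fun_prop
    exact this _ _
  simp only [Matrix.add_apply, Matrix.smul_apply, smul_eq_mul]
  exact ((((hq _ continuous_fst).mul (hq _ continuous_snd)).pow d).mul continuous_const).add
    (((hq _ continuous_snd).pow d).mul (hM _ continuous_fst)) |>.add
    (((hq _ continuous_fst).pow d).mul (hM _ continuous_snd))

theorem DET_null (d : ℕ) : (volume : Measure V8) {p | DET d p.1 p.2 = 0} = 0 := by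
  refine null_of_lines (fun p => DET d p.1 p.2) (DET_cont d) (q1, q1) fun v => ?_
  -- the polynomial along the line
  set F : Polynomial ℝ := DET d
    (fun i => Polynomial.C (q1 i) + Polynomial.X * Polynomial.C (v.1 i))
    (fun i => Polynomial.C (q1 i) + Polynomial.X * Polynomial.C (v.2 i)) with hF
  have hev : ∀ t : ℝ, F.eval t = DET d (q1 + t • v.1) (q1 + t • v.2) := by
    intro t
    have := DET_map (Polynomial.evalRingHom t) d
      (fun i => Polynomial.C (q1 i) + Polynomial.X * Polynomial.C (v.1 i))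
      (fun i => Polynomial.C (q1 i) + Polynomial.X * Polynomial.C (v.2 i))
    rw [← hF] at this
    rw [Polynomial.coe_evalRingHom] at this
    rw [← this]
    congr 1
    · ext i; simp; ring
    · ext i; simp; ring
  have hne : F ≠ 0 := by
    intro h0
    have := hev 0
    rw [h0] at this
    simp only [Polynomial.eval_zero, zero_smul, add_zero] at this
    rw [DET_q1] at this
    exact (pow_ne_zero _ (by norm_num : (3 : ℝ) ≠ 0)) this.symm
  have hset : {t : ℝ | DET d ((q1, q1) + t • v : V8).1 ((q1, q1) + t • v : V8).2 = 0} ⊆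
      (F.roots.toFinset : Set ℝ) := by
    intro t ht
    simp only [Set.mem_ofPred_eq] at ht
    rw [Finset.mem_coe, Multiset.mem_toFinset, Polynomial.mem_roots hne]
    show F.eval t = 0
    rw [hev]; exact ht
  exact measure_mono_null hset (Finset.measure_zero _ _)

/-- relation with the operator -/
theorem Td_of_DET (d : ℕ) (q q' : Fin 4 → ℝ) (G H : Matrix (Fin 3) (Fin 3) ℝ)
    (hG : nq q • G = Qm q) (hH : nq q' • H = Qm q') (h : DET d q q' ≠ 0) :
    (Td d G H).det ≠ 0 := by
  intro h0
  apply h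
  unfold DET
  rw [← hG, ← hH, Mt_smul, Mt_smul]
  have : ((nq q * nq q') ^ d • (1 : Matrix (Fin d → Fin 3) (Fin d → Fin 3) ℝ)
      + nq q' ^ d • nq q ^ d • Mt d G + nq q ^ d • nq q' ^ d • Mt d H) =
      (nq q * nq q') ^ d • Td d G H := by
    unfold Td
    rw [smul_add, smul_add, smul_smul, smul_smul, mul_pow, mul_comm (nq q' ^ d)]
  rw [this, Matrix.det_smul, h0, mul_zero]

end Pool.Agent.Helper213.Div
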