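import Pool.Agent.Helper213.Div.KernelFin

set_option autoImplicit false

open MeasureTheory Matrix Set Filter Topology

namespace Pool.Agent.Helper213.Div

theorem det_neg_aux (d : ℕ) (ρ : Matrix (Fin 3) (Fin 3) ℝ) (hρ : ρᵀ * ρ = 1) :
    ((-1 : ℝ) ^ d • (1 + Mt d ρ) + 1).det ≠ 0 := by
  rcases neg_one_pow_eq_or ℝ d with h | h
  · rw [h, one_smul]; exact det_two_add _ (Mt_orth d ρ hρ)
  · rw [h, neg_smul, one_smul]
    have : -(1 + Mt d ρ) + 1 = -Mt d ρ := by abel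
    rw [this, Matrix.det_neg]
    intro h0
    have h1 := congrArg Matrix.det (Mt_orth d ρ hρ)
    have h2 : (Mt d ρ).det = 0 := by
      rcases mul_eq_zero.1 h0 with h3 | h3
      · exfalso; exact (pow_ne_zero _ (by norm_num : (-1 : ℝ) ≠ 0)) h3
      · exact h3
    rw [Matrix.det_mul, h2, mul_zero, Matrix.det_one] at h1
    exact zero_ne_one h1

theorem ae_fiber_neg (ρ : Matrix (Fin 3) (Fin 3) ℝ) (hρ : ρᵀ * ρ = 1) :
    ∀ᵐ q : Fin 4 → ℝ, ∀ τ : Matrix (Fin 3) (Fin 3) ℝ, nq q • τ = -Qm q →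
      ∀ d, (Td d ρ τ).det ≠ 0 := by
  have h1 : ∀ᵐ q : Fin 4 → ℝ, ∀ d, DQ d ((-1 : ℝ) ^ d • (1 + Mt d ρ)) q ≠ 0 := by
    rw [ae_all_iff]
    intro d
    rw [ae_iff]
    have := DQ_null d ((-1 : ℝ) ^ d • (1 + Mt d ρ)) (det_neg_aux d ρ hρ)
    simpa using this
  filter_upwards [h1] with q hq τ hτ d h0
  apply hq d
  unfold DQ
  have e1 : Qm q = nq q • (-τ) := by rw [smul_neg, hτ, neg_neg]
  rw [e1, Mt_smul, Mt_neg, ← smul_add, ← smul_add, Matrix.det_smul, Matrix.det_smul]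
  have : (1 + Mt d ρ + Mt d τ).det = 0 := h0
  rw [this, mul_zero, mul_zero]

theorem rot_surj_O3 (τ : O3) : ∃ q : Fin 4 → ℝ, q ≠ 0 ∧
    (nq q • τ.1 = Qm q ∨ nq q • τ.1 = -Qm q) := by
  rcases det_O3 τ with h | h
  · obtain ⟨q, hq, hq2⟩ := rot_surj ⟨τ.1, τ.2, h⟩
    exact ⟨q, hq, Or.inl hq2⟩
  · have hneg : (-τ).1.det = 1 := by
      have : (-τ).1 = -τ.1 := rfl
      rw [this, Matrix.det_neg, h]; simp
      norm_num
    obtain ⟨q, hq, hq2⟩ := rot_surj ⟨(-τ).1, (-τ).2, hneg⟩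
    refine ⟨q, hq, Or.inr ?_⟩
    have : (-τ).1 = -τ.1 := rfl
    rw [← hq2]
    show _ = -(nq q • (-τ.1))
    rw [smul_neg, neg_neg]

end Pool.Agent.Helper213.Div
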