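import Pool.Agent.Helper213.Div.Sphere

set_option autoImplicit false

open MeasureTheory Matrix Set
open scoped Pointwise ENNReal

namespace Pool.Agent.Helper213.Div

theorem actH_image_eq (φ : E ≃ₗᵢ[ℝ] E) (A : Set S2) :
    actH φ '' A = actH φ.symm ⁻¹' A := by
  ext y
  simp only [Set.mem_image, Set.mem_preimage]
  constructor
  · rintro ⟨z, hz, rfl⟩
    have : actH φ.symm (actH φ z) = z := by ext1; simp
    rw [this]; exact hz
  · intro h
    exact ⟨_, h, by ext1; simp⟩

theorem nullMeas_image (φ : E ≃ₗᵢ[ℝ] E) {A : Set S2} (hA : NullMeasurableSet A sig) :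
    NullMeasurableSet (actH φ '' A) sig := by
  rw [actH_image_eq]
  exact hA.preimage (mp_act φ.symm).quasiMeasurePreserving

theorem setInt_image (φ : E ≃ₗᵢ[ℝ] E) (A : Set S2) (f : S2 → ℝ) :
    ∫ x in actH φ '' A, f x ∂sig = ∫ x in A, f (actH φ x) ∂sig :=
  (mp_act φ).setIntegral_image_emb (actH φ).measurableEmbedding f A

theorem int_act (φ : E ≃ₗᵢ[ℝ] E) (f : S2 → ℝ) :
    ∫ x, f (actH φ x) ∂sig = ∫ x, f x ∂sig :=
  (mp_act φ).integral_comp (actH φ).measurableEmbedding f

theorem split_int (φ ψ : E ≃ₗᵢ[ℝ] E) (A : Set S2) (hA : NullMeasurableSet A sig)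
    (h1 : AEDisjoint sig A (actH φ '' A)) (h2 : AEDisjoint sig A (actH ψ '' A))
    (h3 : AEDisjoint sig (actH φ '' A) (actH ψ '' A))
    (hcov : ∀ᵐ x ∂sig, x ∈ A ∪ actH φ '' A ∪ actH ψ '' A)
    (f : S2 → ℝ) (hf : Continuous f) :
    ∫ x, f x ∂sig = ∫ x in A, f x ∂sig + ∫ x in A, f (actH φ x) ∂sig
      + ∫ x in A, f (actH ψ x) ∂sig := by
  have hi : ∀ s : Set S2, IntegrableOn f s sig := fun s => (integrable_cont hf).integrableOn
  have e1 : ∫ x, f x ∂sig = ∫ x in A ∪ actH φ '' A ∪ actH ψ '' A, f x ∂sig := by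
    rw [Measure.restrict_eq_self_of_ae_mem hcov]
  rw [e1, setIntegral_union₀ (h2.union_left h3) (nullMeas_image ψ hA) (hi _) (hi _),
    setIntegral_union₀ h1 (nullMeas_image φ hA) (hi _) (hi _), setInt_image, setInt_image]

theorem mono_int (φ ψ : E ≃ₗᵢ[ℝ] E) (hdet : ∀ d, (Td d (mat φ) (mat ψ)).det ≠ 0)
    (A : Set S2) (hA : NullMeasurableSet A sig)
    (h1 : AEDisjoint sig A (actH φ '' A)) (h2 : AEDisjoint sig A (actH ψ '' A))
    (h3 : AEDisjoint sig (actH φ '' A) (actH ψ '' A))
    (hcov : ∀ᵐ x ∂sig, x ∈ A ∪ actH φ '' A ∪ actH ψ '' A) (d : ℕ) (i : Fin d → Fin 3) :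
    ∫ x, mono d i x ∂sig = 3 * ∫ x in A, mono d i x ∂sig := by
  set a : (Fin d → Fin 3) → ℝ := fun i => ∫ x in A, mono d i x ∂sig with ha
  set s : (Fin d → Fin 3) → ℝ := fun i => ∫ x, mono d i x ∂sig with hs
  have hintA : ∀ j, Integrable (mono d j) (sig.restrict A) := fun j =>
    (integrable_cont (mono_cont d j)).restrict
  have hint : ∀ j, Integrable (mono d j) sig := fun j => integrable_cont (mono_cont d j)
  have eA : ∀ (χ : E ≃ₗᵢ[ℝ] E) (j : Fin d → Fin 3),
      ∫ x in A, mono d j (actH χ x) ∂sig = ∑ k, Mt d (mat χ) j k * a k := by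
    intro χ j
    simp only [mono_act]
    rw [integral_finsetSum _ (fun k _ => (hintA k).const_mul _)]
    refine Finset.sum_congr rfl fun k _ => ?_
    rw [integral_const_mul]
  have eS : ∀ (χ : E ≃ₗᵢ[ℝ] E) (j : Fin d → Fin 3),
      s j = ∑ k, Mt d (mat χ) j k * s k := by
    intro χ j
    have : s j = ∫ x, mono d j (actH χ x) ∂sig := (int_act χ (mono d j)).symm
    rw [this]
    simp only [mono_act]
    rw [integral_finsetSum _ (fun k _ => (hint k).const_mul _)]
    refine Finset.sum_congr rfl fun k _ => ?_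
    rw [integral_const_mul]
  have key : Td d (mat φ) (mat ψ) *ᵥ (s - 3 • a) = 0 := by
    ext j
    have f1 : s j = a j + ∑ k, Mt d (mat φ) j k * a k + ∑ k, Mt d (mat ψ) j k * a k := by
      have := split_int φ ψ A hA h1 h2 h3 hcov (mono d j) (mono_cont d j)
      rw [eA φ j, eA ψ j] at this
      exact this
    have g1 := eS φ j
    have g2 := eS ψ j
    have t1 : (Td d (mat φ) (mat ψ) *ᵥ s) j = 3 * s j := by
      simp only [Td, Matrix.add_mulVec, Matrix.one_mulVec, Pi.add_apply]
      have m1 : (Mt d (mat φ) *ᵥ s) j = s j := g1.symm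
      have m2 : (Mt d (mat ψ) *ᵥ s) j = s j := g2.symm
      rw [m1, m2]; ring
    have t2 : (Td d (mat φ) (mat ψ) *ᵥ a) j = s j := by
      simp only [Td, Matrix.add_mulVec, Matrix.one_mulVec, Pi.add_apply]
      rw [f1]; rfl
    rw [Matrix.mulVec_sub, Matrix.mulVec_smul, Pi.sub_apply, Pi.smul_apply, t1, t2]
    simp
  have hz := Matrix.eq_zero_of_mulVec_eq_zero (hdet d) key
  have := congrFun hz i
  simp only [Pi.sub_apply, Pi.smul_apply, Pi.zero_apply] at this
  have h4 : s i = 3 * a i := by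
    have h5 : (3 : ℕ) • a i = 3 * a i := by simp
    linarith
  exact h4

/-- coordinate functions -/
noncomputable def coord (i : Fin 3) : C(S2, ℝ) :=
  ⟨fun x => (x : E) i, (continuous_apply i).comp ((PiLp.continuous_ofLp 2 _).comp
    continuous_subtype_val)⟩

theorem mono_mul (d e : ℕ) (i : Fin d → Fin 3) (j : Fin e → Fin 3) (x : S2) :
    mono d i x * mono e j x = mono (d + e) (Fin.append i j) x := by
  simp [mono, Fin.prod_univ_add]

theorem closure_mono (g : C(S2, ℝ)) (hg : g ∈ Submonoid.closure (Set.range coord)) :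
    ∃ (d : ℕ) (i : Fin d → Fin 3), ∀ x, g x = mono d i x := by
  induction hg using Submonoid.closure_induction with
  | mem g hg =>
    obtain ⟨i, rfl⟩ := hg
    exact ⟨1, fun _ => i, fun x => by simp [mono, coord]⟩
  | one => exact ⟨0, Fin.elim0, fun x => by simp [mono]⟩
  | mul g h _ _ ihg ihh =>
    obtain ⟨d, i, hi⟩ := ihg
    obtain ⟨e, j, hj⟩ := ihh
    exact ⟨d + e, Fin.append i j, fun x => by
      rw [ContinuousMap.mul_apply, hi, hj, mono_mul]⟩

theorem cont_int (μ : Measure S2) [IsFiniteMeasure μ] :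
    Continuous fun g : C(S2, ℝ) => ∫ x, g x ∂μ := by
  have hi : ∀ g : C(S2, ℝ), Integrable (fun x => g x) μ := fun g =>
    g.continuous.integrable_of_hasCompactSupport (HasCompactSupport.of_compactSpace _)
  refine (LipschitzWith.of_dist_le_mul (K := ⟨μ.real univ, measureReal_nonneg⟩)
    fun g h => ?_).continuous
  rw [Real.dist_eq, ← integral_sub (hi g) (hi h)]
  have h1 := norm_integral_le_of_norm_le_const (μ := μ) (f := fun x => g x - h x) (C := dist g h)
    (Filter.Eventually.of_forall fun x => by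
      rw [← dist_eq_norm]; exact ContinuousMap.dist_apply_le_dist x)
  rw [Real.norm_eq_abs] at h1
  calc |∫ x, (g x - h x) ∂μ| ≤ dist g h * μ.real univ := h1
    _ = _ := by rw [mul_comm]; rfl

theorem no_split (φ ψ : E ≃ₗᵢ[ℝ] E) (hdet : ∀ d, (Td d (mat φ) (mat ψ)).det ≠ 0)
    (A : Set S2) (hA : NullMeasurableSet A sig)
    (h1 : AEDisjoint sig A (actH φ '' A)) (h2 : AEDisjoint sig A (actH ψ '' A))
    (h3 : AEDisjoint sig (actH φ '' A) (actH ψ '' A))
    (hcov : ∀ᵐ x ∂sig, x ∈ A ∪ actH φ '' A ∪ actH ψ '' A) : False := by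
  have hm := mono_int φ ψ hdet A hA h1 h2 h3 hcov
  -- Stone-Weierstrass
  set alg : Subalgebra ℝ C(S2, ℝ) := Algebra.adjoin ℝ (Set.range coord) with halg
  set W : Set C(S2, ℝ) := {g | ∫ x, g x ∂sig = 3 * ∫ x in A, g x ∂sig} with hW
  have hWc : IsClosed W :=
    isClosed_eq (cont_int sig) (continuous_const.mul (cont_int (sig.restrict A)))
  have hi : ∀ (μ : Measure S2) [IsFiniteMeasure μ] (g : C(S2, ℝ)), Integrable (fun x => g x) μ :=
    fun μ _ g =>
      g.continuous.integrable_of_hasCompactSupport (HasCompactSupport.of_compactSpace _)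
  have hsub : (alg : Set C(S2, ℝ)) ⊆ W := by
    intro g hg
    have hg' : g ∈ Submodule.span ℝ (Submonoid.closure (Set.range coord) : Set C(S2, ℝ)) := by
      rw [← Algebra.adjoin_eq_span]; exact hg
    clear hg
    induction hg' using Submodule.span_induction with
    | mem g hg =>
      obtain ⟨d, i, hi⟩ := closure_mono g hg
      show ∫ x, g x ∂sig = 3 * ∫ x in A, g x ∂sig
      simp only [hi]
      exact hm d i
    | zero =>
      show ∫ x, (0 : C(S2, ℝ)) x ∂sig = 3 * ∫ x in A, (0 : C(S2, ℝ)) x ∂sig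
      simp
    | add g h hg hh ig ih =>
      show ∫ x, (g + h) x ∂sig = 3 * ∫ x in A, (g + h) x ∂sig
      simp only [ContinuousMap.add_apply]
      rw [integral_add (hi _ g) (hi _ h), integral_add (hi _ g) (hi _ h)]
      have e1 : ∫ x, g x ∂sig = 3 * ∫ x in A, g x ∂sig := ig
      have e2 : ∫ x, h x ∂sig = 3 * ∫ x in A, h x ∂sig := ih
      rw [e1, e2]; ring
    | smul c g hg ig =>
      show ∫ x, (c • g) x ∂sig = 3 * ∫ x in A, (c • g) x ∂sig
      simp only [ContinuousMap.smul_apply, smul_eq_mul]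
      rw [integral_const_mul, integral_const_mul]
      have e1 : ∫ x, g x ∂sig = 3 * ∫ x in A, g x ∂sig := ig
      rw [e1]; ring
  have hsep : alg.SeparatesPoints := by
    intro x y hxy
    have : ∃ i, (x : E) i ≠ (y : E) i := by
      by_contra hcon
      push Not at hcon
      apply hxy
      ext i
      exact hcon i
    obtain ⟨i, hi⟩ := this
    exact ⟨coord i, ⟨coord i, Algebra.subset_adjoin ⟨i, rfl⟩, rfl⟩, hi⟩
  have htop := ContinuousMap.subalgebra_topologicalClosure_eq_top_of_separatesPoints alg hsep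
  have hall : ∀ g : C(S2, ℝ), ∫ x, g x ∂sig = 3 * ∫ x in A, g x ∂sig := by
    intro g
    have hg : g ∈ alg.topologicalClosure := by rw [htop]; trivial
    exact hWc.closure_subset_iff.2 hsub hg
  -- equality of measures
  have hmeas : (3 : ℝ≥0∞) • sig.restrict A = sig := by
    have : IsFiniteMeasure ((3 : ℝ≥0∞) • sig.restrict A) :=
      Measure.smul_finite _ (by simp)
    apply ext_of_forall_integral_eq_of_IsFiniteMeasure
    intro f
    rw [integral_smul_measure]
    have := hall ⟨fun x => f x, f.continuous⟩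
    simp only [ContinuousMap.coe_mk] at this
    rw [this]
    simp
  have hA3 : sig A = 3 * sig A := by
    conv_lhs => rw [← hmeas]
    simp
  have hfin : sig A ≠ ∞ := measure_ne_top _ _
  have hA0 : sig A = 0 := by
    by_contra hne
    have h4 : (sig A).toReal = 3 * (sig A).toReal := by
      conv_lhs => rw [hA3]
      simp
    have h5 : (sig A).toReal = 0 := by linarith
    rcases (ENNReal.toReal_eq_zero_iff _).1 h5 with h6 | h6
    · exact hne h6
    · exact hfin h6
  have hres : sig.restrict A = 0 := Measure.restrict_eq_zero.2 hA0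
  have hs0 : sig = 0 := by rw [← hmeas, hres, smul_zero]
  exact (Measure.toSphere_ne_zero (volume : Measure E)) hs0

end Pool.Agent.Helper213.Div
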