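import Pool.Agent.Helper213.Div.Path

set_option autoImplicit false

open MeasureTheory Matrix Set Filter Topology Metric
open scoped ENNReal

namespace Pool.Agent.Helper213.Div

/-- points of density more than one half -/
def Full (A : Set S2) (x : S2) : Prop :=
  ∀ᶠ r in 𝓝[>] (0 : ℝ), sig (closedBall x r) < 2 * sig (A ∩ closedBall x r)

theorem ae_full (A : Set S2) : ∀ᵐ x ∂(sig.restrict A), Full A x := by
  have hemb : MeasurableEmbedding ((↑) : S2 → E) :=
    MeasurableEmbedding.subtype_coe (isClosed_sphere.measurableSet)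
  set μ : Measure E := sig.map (↑) with hμ
  haveI : IsFiniteMeasure μ := by rw [hμ]; infer_instance
  have h1 := Besicovitch.ae_tendsto_measure_inter_div μ ((↑) '' A : Set E)
  rw [hμ, hemb.restrict_map, hemb.ae_map_iff, Set.preimage_image_eq _ Subtype.val_injective] at h1
  filter_upwards [h1] with x hx
  have h2 : ∀ᶠ r in 𝓝[>] (0 : ℝ), (1 / 2 : ℝ≥0∞) <
      μ ((↑) '' A ∩ closedBall (x : E) r) / μ (closedBall (x : E) r) := by
    refine hx.eventually (lt_mem_nhds ?_)
    rw [ENNReal.div_lt_iff (by simp) (by simp)]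
    norm_num
  filter_upwards [h2] with r hr
  have h3 : μ ((↑) '' A ∩ closedBall (x : E) r) = sig (A ∩ closedBall x r) := by
    rw [hμ, hemb.map_apply]
    congr 1
    rw [Set.preimage_inter, Set.preimage_image_eq _ Subtype.val_injective]
    rfl
  have h4 : μ (closedBall (x : E) r) = sig (closedBall x r) := by
    rw [hμ, hemb.map_apply]; rfl
  rw [h3, h4] at hr
  have h5 := ENNReal.mul_lt_of_lt_div hr
  calc sig (closedBall x r) = 2 * (1 / 2 * sig (closedBall x r)) := by
        rw [← mul_assoc, one_div, ENNReal.mul_inv_cancel (by simp) (by simp), one_mul]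
    _ < 2 * sig (A ∩ closedBall x r) :=
        (ENNReal.mul_lt_mul_iff_right (by simp) (by simp)).2 h5

theorem full_disj {A B : Set S2} (hB : NullMeasurableSet B sig) (hAB : AEDisjoint sig A B) (z : S2)
    (h1 : Full A z) (h2 : Full B z) : False := by
  obtain ⟨r, hr1, hr2⟩ := (h1.and h2).exists
  have h3 : sig (A ∩ closedBall z r) + sig (B ∩ closedBall z r) ≤ sig (closedBall z r) := by
    rw [← measure_union₀ (hB.inter (isClosed_closedBall.measurableSet.nullMeasurableSet))
      (hAB.mono inter_subset_left inter_subset_left)]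
    exact measure_mono (union_subset inter_subset_right inter_subset_right)
  have h4 : sig (closedBall z r) + sig (closedBall z r) <
      2 * sig (A ∩ closedBall z r) + 2 * sig (B ∩ closedBall z r) := ENNReal.add_lt_add hr1 hr2
  rw [← mul_add] at h4
  have h5 : 2 * (sig (A ∩ closedBall z r) + sig (B ∩ closedBall z r)) ≤
      2 * sig (closedBall z r) := by gcongr
  rw [two_mul (sig (closedBall z r))] at h5
  exact absurd (h4.trans_le h5) (lt_irrefl _)

theorem dist_act (φ : E ≃ₗᵢ[ℝ] E) (x y : S2) : dist (actH φ x) (actH φ y) = dist x y := by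
  rw [Subtype.dist_eq, Subtype.dist_eq, actH_coe, actH_coe, φ.dist_map]

theorem D_act (φ : E ≃ₗᵢ[ℝ] E) (A : Set S2) (x : S2) (r : ℝ) :
    sig (A ∩ closedBall (actH φ x) r) = sig (actH φ ⁻¹' A ∩ closedBall x r) := by
  rw [← (mp_act φ).measure_preimage_emb (actH φ).measurableEmbedding]
  congr 1
  ext y
  simp only [mem_preimage, mem_inter_iff, mem_closedBall, dist_act]

theorem act_mul (φ ψ : E ≃ₗᵢ[ℝ] E) (x : S2) : actH (φ * ψ) x = actH φ (actH ψ x) := by
  ext1; rfl

theorem act_one (x : S2) : actH 1 x = x := by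
  ext1; rfl

theorem act_inv (φ : E ≃ₗᵢ[ℝ] E) (x : S2) : actH φ (actH φ⁻¹ x) = x := by
  rw [← act_mul, mul_inv_cancel, act_one]

theorem act_inv' (φ : E ≃ₗᵢ[ℝ] E) (x : S2) : actH φ⁻¹ (actH φ x) = x := by
  rw [← act_mul, inv_mul_cancel, act_one]

/-- isometries preserving all ball densities -/
noncomputable def invGrp (A : Set S2) : Subgroup (E ≃ₗᵢ[ℝ] E) where
  carrier := {g | ∀ x r, sig (A ∩ closedBall (actH g x) r) = sig (A ∩ closedBall x r)}
  mul_mem' := by
    intro a b ha hb x r
    rw [act_mul, ha, hb]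
  one_mem' := by
    intro x r
    rw [act_one]
  inv_mem' := by
    intro a ha x r
    have := ha (actH a⁻¹ x) r
    rw [act_inv] at this
    exact this.symm

theorem invGrp_univ (g : E ≃ₗᵢ[ℝ] E) : g ∈ invGrp univ := by
  intro x r
  rw [D_act, preimage_univ]

theorem lim_D {A : Set S2} (hA : NullMeasurableSet A sig) (y : S2) (r : ℝ) (c : ℝ≥0∞)
    (h : ∀ r' > r, c ≤ sig (A ∩ closedBall y r')) : c ≤ sig (A ∩ closedBall y r) := by
  have h1 := tendsto_measure_biInter_gt (μ := sig) (s := fun r' : ℝ => A ∩ closedBall y r') (a := r)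
    (fun r' _ => hA.inter isClosed_closedBall.measurableSet.nullMeasurableSet)
    (fun i j _ hij => inter_subset_inter_right _ (closedBall_subset_closedBall hij))
    ⟨r + 1, by simp, measure_ne_top _ _⟩
  have h2 : (⋂ r' > r, A ∩ closedBall y r') ⊆ A ∩ closedBall y r := by
    intro z hz
    simp only [mem_iInter, mem_inter_iff, mem_closedBall] at hz ⊢
    refine ⟨(hz (r + 1) (by simp)).1, ?_⟩
    exact le_of_forall_gt_imp_ge_of_dense fun r' hr' => (hz r' hr').2
  have h3 : c ≤ sig (⋂ r' > r, A ∩ closedBall y r') := by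
    refine ge_of_tendsto h1 ?_
    filter_upwards [self_mem_nhdsWithin] with r' hr'
    exact h r' hr'
  exact h3.trans (measure_mono h2)

theorem D_closure {A : Set S2} (hA : NullMeasurableSet A sig) (x y : S2)
    (h : ∀ ε > 0, ∃ g ∈ invGrp A, dist (actH g x) y < ε) (r : ℝ) :
    sig (A ∩ closedBall x r) = sig (A ∩ closedBall y r) := by
  apply le_antisymm
  · refine lim_D hA y r _ fun r' hr' => ?_
    obtain ⟨g, hg, hd⟩ := h (r' - r) (by linarith)
    rw [← hg x r]
    exact measure_mono (inter_subset_inter_right _ (closedBall_subset_closedBall' (by linarith)))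
  · refine lim_D hA x r _ fun r' hr' => ?_
    obtain ⟨g, hg, hd⟩ := h (r' - r) (by linarith)
    rw [← hg x r']
    rw [dist_comm] at hd
    exact measure_mono (inter_subset_inter_right _ (closedBall_subset_closedBall' (by linarith)))

theorem full_closure {A : Set S2} (hA : NullMeasurableSet A sig) (x y : S2)
    (h : ∀ ε > 0, ∃ g ∈ invGrp A, dist (actH g x) y < ε) (hx : Full A x) : Full A y := by
  have h1 := D_closure hA x y h
  have h2 := D_closure (A := univ) MeasurableSet.univ.nullMeasurableSet x y (fun ε hε => by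
    obtain ⟨g, _, hd⟩ := h ε hε
    exact ⟨g, invGrp_univ g, hd⟩)
  simp only [univ_inter] at h2
  unfold Full at hx ⊢
  filter_upwards [hx] with r hr
  rw [← h1, ← h2]; exact hr

theorem full_act (φ : E ≃ₗᵢ[ℝ] E) {A : Set S2} (x : S2) (hx : Full (actH φ ⁻¹' A) x) :
    Full A (actH φ x) := by
  unfold Full at hx ⊢
  filter_upwards [hx] with r hr
  have h2 := D_act φ univ x r
  rw [preimage_univ, univ_inter, univ_inter] at h2
  rw [h2, D_act]; exact hr

end Pool.Agent.Helper213.Div
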