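import Pool.Agent.Helper213.Div.Ord1

set_option autoImplicit false

open MeasureTheory Matrix Set Filter Topology Metric
open scoped ENNReal

namespace Pool.Agent.Helper213.Div

theorem eig (M : O3) : ∃ u : Fin 3 → ℝ, u ≠ 0 ∧ (M.1 *ᵥ u = u ∨ M.1 *ᵥ u = -u) := by
  have hM := O3_orth M
  have hM' : M.1 * M.1ᵀ = 1 := mul_eq_one_comm.1 hM
  have key : ∀ ε : ℝ, ε * ε = 1 → M.1.det = ε → (M.1 - ε • (1 : Matrix (Fin 3) (Fin 3) ℝ)).det = 0 := by
    intro ε hε hdet
    have e1 : M.1 - ε • (1 : Matrix (Fin 3) (Fin 3) ℝ) = M.1 * (1 - ε • M.1ᵀ) := by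
      rw [mul_sub, mul_one, mul_smul_comm, hM']
    have e2 : (1 - ε • M.1ᵀ) = ((-ε) • (M.1 - ε • (1 : Matrix (Fin 3) (Fin 3) ℝ)))ᵀ := by
      rw [transpose_smul, transpose_sub, transpose_smul, transpose_one, smul_sub, smul_smul]
      have : -ε * ε = -1 := by linarith
      rw [this, neg_smul, neg_smul, one_smul]; abel
    have e3 : (M.1 - ε • (1 : Matrix (Fin 3) (Fin 3) ℝ)).det =
        ε * ((-ε) ^ 3 * (M.1 - ε • (1 : Matrix (Fin 3) (Fin 3) ℝ)).det) := by
      conv_lhs => rw [e1, det_mul, hdet, e2, det_transpose, det_smul]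
      simp
    have e4 : ε * (-ε) ^ 3 = -1 := by
      have : ε * (-ε) ^ 3 = -((ε * ε) * (ε * ε)) := by ring
      rw [this, hε]; norm_num
    have e5 : (M.1 - ε • (1 : Matrix (Fin 3) (Fin 3) ℝ)).det =
        (ε * (-ε) ^ 3) * (M.1 - ε • (1 : Matrix (Fin 3) (Fin 3) ℝ)).det := by
      rw [mul_assoc]; exact e3
    rw [e4] at e5
    linarith
  rcases det_O3 M with h | h
  · obtain ⟨v, hv, hv0⟩ := Matrix.exists_mulVec_eq_zero_iff.2 (key 1 (by norm_num) h)
    refine ⟨v, hv, Or.inl ?_⟩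
    rw [one_smul, Matrix.sub_mulVec, Matrix.one_mulVec, sub_eq_zero] at hv0
    exact hv0
  · obtain ⟨v, hv, hv0⟩ := Matrix.exists_mulVec_eq_zero_iff.2 (key (-1) (by norm_num) h)
    refine ⟨v, hv, Or.inr ?_⟩
    rw [Matrix.sub_mulVec, Matrix.smul_mulVec, Matrix.one_mulVec, sub_eq_zero] at hv0
    rw [hv0, neg_one_smul]

theorem eigS (T : E ≃ₗᵢ[ℝ] E) : ∃ u : S2, T (u : E) = u ∨ T (u : E) = -(u : E) := by
  obtain ⟨v, hv, h⟩ := eig (isoE.symm T)
  have hT : ∀ x : E, T x = WithLp.toLp 2 ((isoE.symm T).1 *ᵥ x.ofLp) := by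
    intro x
    rw [← isoE_apply, MulEquiv.apply_symm_apply]
  set w : E := WithLp.toLp 2 v with hw
  have hw0 : w ≠ 0 := by
    intro h0
    apply hv
    have := congrArg WithLp.ofLp h0
    exact this
  have h1 : T w = w ∨ T w = -w := by
    rcases h with h | h
    · left; rw [hT, hw]; show WithLp.toLp 2 ((isoE.symm T).1 *ᵥ v) = _; rw [h]
    · right; rw [hT, hw]; show WithLp.toLp 2 ((isoE.symm T).1 *ᵥ v) = _; rw [h]; rfl
  have hn : ‖w‖ ≠ 0 := norm_ne_zero_iff.2 hw0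
  refine ⟨⟨(‖w‖)⁻¹ • w, ?_⟩, ?_⟩
  · rw [mem_sphere_iff_norm, sub_zero, norm_smul, norm_inv, norm_norm, inv_mul_cancel₀ hn]
  · simp only [map_smul]
    rcases h1 with h1 | h1
    · left; rw [h1]
    · right; rw [h1, smul_neg]

theorem ex_angle (a b : ℝ) (h : a ^ 2 + b ^ 2 = 1) :
    ∃ ω : Real.Angle, ω.cos = a ∧ ω.sin = b := by
  set z : ℂ := ⟨a, b⟩ with hz
  have hn : ‖z‖ = 1 := by
    rw [← sq_eq_sq₀ (norm_nonneg _) zero_le_one, ← Complex.normSq_eq_norm_sq, Complex.normSq_mk]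
    linarith
  refine ⟨(z.arg : Real.Angle), ?_, ?_⟩
  · have := Complex.norm_mul_cos_arg z
    rw [hn, one_mul] at this
    rw [Real.Angle.cos_coe, this]
  · have := Complex.norm_mul_sin_arg z
    rw [hn, one_mul] at this
    rw [Real.Angle.sin_coe, this]

/-- rotation about the third axis -/
noncomputable def Rz (ω : Real.Angle) (x : E) : E :=
  WithLp.toLp 2 ![ω.cos * x 0 - ω.sin * x 1, ω.sin * x 0 + ω.cos * x 1, x 2]

theorem Rz_add (a b : Real.Angle) (x : E) : Rz a (Rz b x) = Rz (a + b) x := by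
  ext i
  fin_cases i <;> simp [Rz, Real.Angle.cos_add, Real.Angle.sin_add] <;> ring

theorem Rz_zero (x : E) : Rz 0 x = x := by
  ext i
  fin_cases i <;> simp [Rz]

theorem Rz_cont (x : E) : Continuous fun ω => Rz ω x := by
  unfold Rz
  refine (PiLp.continuous_toLp 2 _).comp ?_
  refine continuous_pi fun i => ?_
  fin_cases i
  · exact (Real.Angle.continuous_cos.mul continuous_const).sub
      (Real.Angle.continuous_sin.mul continuous_const)
  · exact (Real.Angle.continuous_sin.mul continuous_const).add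
      (Real.Angle.continuous_cos.mul continuous_const)
  · exact continuous_const

theorem Rz_trans (x y : E) (hx : ‖x‖ = 1) (hy : ‖y‖ = 1) (h : x 2 = y 2) : ∃ ω, Rz ω x = y := by
  have h1 : x 0 ^ 2 + x 1 ^ 2 + x 2 ^ 2 = 1 := by
    have := EuclideanSpace.real_norm_sq_eq x
    rw [hx, Fin.sum_univ_three] at this
    linarith
  have h2 : y 0 ^ 2 + y 1 ^ 2 + y 2 ^ 2 = 1 := by
    have := EuclideanSpace.real_norm_sq_eq y
    rw [hy, Fin.sum_univ_three] at this
    linarith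
  set s := x 0 ^ 2 + x 1 ^ 2 with hs
  have h3 : y 0 ^ 2 + y 1 ^ 2 = s := by rw [h] at h1; linarith
  by_cases hs0 : s = 0
  · have a0 : x 0 = 0 := by nlinarith [sq_nonneg (x 0), sq_nonneg (x 1)]
    have a1 : x 1 = 0 := by nlinarith [sq_nonneg (x 0), sq_nonneg (x 1)]
    have b0 : y 0 = 0 := by nlinarith [sq_nonneg (y 0), sq_nonneg (y 1)]
    have b1 : y 1 = 0 := by nlinarith [sq_nonneg (y 0), sq_nonneg (y 1)]
    refine ⟨0, ?_⟩
    rw [Rz_zero]
    ext i
    fin_cases i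
    · exact a0.trans b0.symm
    · exact a1.trans b1.symm
    · exact h
  · obtain ⟨ω, hc, hsn⟩ := ex_angle ((x 0 * y 0 + x 1 * y 1) / s) ((x 0 * y 1 - x 1 * y 0) / s) (by
      rw [div_pow, div_pow, ← add_div, div_eq_one_iff_eq (pow_ne_zero _ hs0)]
      have : (x 0 * y 0 + x 1 * y 1) ^ 2 + (x 0 * y 1 - x 1 * y 0) ^ 2 =
        (x 0 ^ 2 + x 1 ^ 2) * (y 0 ^ 2 + y 1 ^ 2) := by ring
      rw [this, h3, ← hs, sq])
    refine ⟨ω, ?_⟩
    ext i
    fin_cases i
    · show ω.cos * x 0 - ω.sin * x 1 = y 0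
      rw [hc, hsn]
      field_simp
      rw [hs]; ring
    · show ω.sin * x 0 + ω.cos * x 1 = y 1
      rw [hc, hsn]
      field_simp
      rw [hs]; ring
    · exact h

end Pool.Agent.Helper213.Div
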