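import Pool.Agent.Helper213.Div.Ord2

set_option autoImplicit false

open MeasureTheory Matrix Set Filter Topology Metric
open scoped ENNReal

namespace Pool.Agent.Helper213.Div

theorem mulApp (f g : E ≃ₗᵢ[ℝ] E) (x : E) : (f * g) x = f (g x) := rfl

/-- third basis vector -/
noncomputable def e3 : E := EuclideanSpace.single 2 1

theorem norm_e3 : ‖e3‖ = 1 := by simp [e3]

theorem struct (T : E ≃ₗᵢ[ℝ] E) (h : T e3 = e3 ∨ T e3 = -e3) :
    (∀ x, T (T x) = x) ∨ ∃ θ : Real.Angle, ∀ x, T (T x) = Rz θ x := by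
  have hM : (mat T)ᵀ * mat T = 1 := by
    have := O3_orth (isoE.symm T)
    rwa [← mat_isoE, MulEquiv.apply_symm_apply] at this
  obtain ⟨σ, hσ, hσT⟩ : ∃ σ : ℝ, σ * σ = 1 ∧ T e3 = σ • e3 := by
    rcases h with h | h
    · exact ⟨1, by norm_num, by rw [h, one_smul]⟩
    · exact ⟨-1, by norm_num, by rw [h, neg_one_smul]⟩
  have c0 : mat T 0 2 = 0 := by
    have : mat T 0 2 = (T e3) 0 := rfl
    rw [this, hσT]; simp [e3]
  have c1 : mat T 1 2 = 0 := by
    have : mat T 1 2 = (T e3) 1 := rfl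
    rw [this, hσT]; simp [e3]
  have c2 : mat T 2 2 = σ := by
    have : mat T 2 2 = (T e3) 2 := rfl
    rw [this, hσT]; simp [e3]
  have hσ0 : σ ≠ 0 := by
    intro h0; rw [h0] at hσ; norm_num at hσ
  have ent : ∀ i j, mat T 0 i * mat T 0 j + mat T 1 i * mat T 1 j + mat T 2 i * mat T 2 j =
      if i = j then 1 else 0 := by
    intro i j
    have := congrFun (congrFun hM i) j
    rw [Matrix.mul_apply, Fin.sum_univ_three, Matrix.one_apply] at this
    simpa [Matrix.transpose_apply] using this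
  have h02 := ent 0 2
  have h12 := ent 1 2
  rw [c0, c1, c2] at h02 h12
  have d0 : mat T 2 0 = 0 := by
    have : mat T 2 0 * σ = 0 := by simpa using h02
    exact (mul_eq_zero.1 this).resolve_right hσ0
  have d1 : mat T 2 1 = 0 := by
    have : mat T 2 1 * σ = 0 := by simpa using h12
    exact (mul_eq_zero.1 this).resolve_right hσ0
  have h00 := ent 0 0
  have h11 := ent 1 1
  have h01 := ent 0 1
  rw [d0] at h00 h01
  rw [d1] at h11 h01
  simp only [if_true, mul_zero, add_zero] at h00 h11 h01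
  rw [if_neg (by decide)] at h01
  set a := mat T 0 0
  set b := mat T 0 1
  set c := mat T 1 0
  set d := mat T 1 1
  have hT : ∀ x : E, T x = WithLp.toLp 2 ![a * x 0 + b * x 1, c * x 0 + d * x 1, σ * x 2] := by
    intro x
    ext i
    rw [mat_apply, Fin.sum_univ_three]
    fin_cases i
    · show a * x 0 + b * x 1 + mat T 0 2 * x 2 = a * x 0 + b * x 1
      rw [c0]; ring
    · show c * x 0 + d * x 1 + mat T 1 2 * x 2 = c * x 0 + d * x 1
      rw [c1]; ring
    · show mat T 2 0 * x 0 + mat T 2 1 * x 1 + mat T 2 2 * x 2 = σ * x 2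
      rw [c2, d0, d1]; ring
  have hl : (a * d - b * c) * (a * d - b * c) = 1 := by
    have : (a * d - b * c) * (a * d - b * c) =
      (a * a + c * c) * (b * b + d * d) - (a * b + c * d) * (a * b + c * d) := by ring
    rw [this, h00, h11, h01]; ring
  have hb : b = -((a * d - b * c) * c) := by
    have : -((a * d - b * c) * c) = b * (a * a + c * c) - a * (a * b + c * d) := by ring
    rw [this, h00, h01]; ring
  have hd : d = (a * d - b * c) * a := by
    have : (a * d - b * c) * a = d * (a * a + c * c) - c * (a * b + c * d) := by ring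
    rw [this, h00, h01]; ring
  rcases mul_self_eq_one_iff.1 hl with h1 | h1
  · right
    rw [h1] at hb hd
    obtain ⟨ω, hc, hs⟩ := ex_angle a c (by nlinarith)
    refine ⟨ω + ω, fun x => ?_⟩
    rw [hT (T x), hT x]
    ext i
    fin_cases i
    · show a * (a * x 0 + b * x 1) + b * (c * x 0 + d * x 1) =
        (ω + ω).cos * x 0 - (ω + ω).sin * x 1
      rw [Real.Angle.cos_add, Real.Angle.sin_add, hc, hs, hb, hd]; ring
    · show c * (a * x 0 + b * x 1) + d * (c * x 0 + d * x 1) =
        (ω + ω).sin * x 0 + (ω + ω).cos * x 1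
      rw [Real.Angle.cos_add, Real.Angle.sin_add, hc, hs, hb, hd]; ring
    · show σ * (σ * x 2) = x 2
      rw [← mul_assoc, hσ, one_mul]
  · left
    rw [h1] at hb hd
    intro x
    rw [hT (T x), hT x]
    ext i
    fin_cases i
    · show a * (a * x 0 + b * x 1) + b * (c * x 0 + d * x 1) = x 0
      have : a * (a * x 0 + b * x 1) + b * (c * x 0 + d * x 1) =
        (a * a + c * c) * x 0 := by rw [hb, hd]; ring
      rw [this, h00, one_mul]
    · show c * (a * x 0 + b * x 1) + d * (c * x 0 + d * x 1) = x 1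
      have : c * (a * x 0 + b * x 1) + d * (c * x 0 + d * x 1) =
        (a * a + c * c) * x 1 := by rw [hb, hd]; ring
      rw [this, h00, one_mul]
    · show σ * (σ * x 2) = x 2
      rw [← mul_assoc, hσ, one_mul]

theorem circ3 (T : E ≃ₗᵢ[ℝ] E) (hT : ∀ n : ℕ, 0 < n → T ^ n ≠ 1)
    (h : T e3 = e3 ∨ T e3 = -e3) (x y : E) (hx : ‖x‖ = 1) (hy : ‖y‖ = 1) (hxy : x 2 = y 2)
    (ε : ℝ) (hε : 0 < ε) : ∃ n : ℤ, dist (((T ^ 2) ^ n) x) y < ε := by
  rcases struct T h with h1 | ⟨θ, h1⟩
  · exfalso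
    apply hT 2 (by norm_num)
    ext1 x
    rw [pow_two]; exact h1 x
  · have hS : ∀ x, (T ^ 2) x = Rz θ x := fun x => by rw [pow_two]; exact h1 x
    have hSi : ∀ x, (T ^ 2)⁻¹ x = Rz (-θ) x := by
      intro x
      apply (T ^ 2).injective
      have : (T ^ 2) ((T ^ 2)⁻¹ x) = x := by
        rw [← mulApp, mul_inv_cancel]; rfl
      rw [this, hS, Rz_add, add_neg_cancel, Rz_zero]
    have hpow : ∀ n : ℕ, ∀ x, ((T ^ 2) ^ n) x = Rz (n • θ) x := by
      intro n
      induction n with
      | zero => intro x; rw [pow_zero, zero_smul, Rz_zero]; rfl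
      | succ n ih =>
        intro x
        rw [pow_succ', mulApp, ih, hS, Rz_add, succ_nsmul']
    have hpowi : ∀ n : ℕ, ∀ x, ((T ^ 2)⁻¹ ^ n) x = Rz (-(n • θ)) x := by
      intro n
      induction n with
      | zero => intro x; rw [pow_zero, zero_smul, neg_zero, Rz_zero]; rfl
      | succ n ih =>
        intro x
        rw [pow_succ', mulApp, ih, hSi, Rz_add, succ_nsmul', neg_add]
    have hz : ∀ n : ℤ, ∀ x, ((T ^ 2) ^ n) x = Rz (n • θ) x := by
      intro n x
      obtain ⟨m, rfl | rfl⟩ := n.eq_nat_or_neg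
      · rw [zpow_natCast, hpow, natCast_zsmul]
      · rw [_root_.zpow_neg, ← _root_.inv_zpow, zpow_natCast, hpowi, neg_smul, natCast_zsmul]
    have hord : addOrderOf θ = 0 := by
      rw [addOrderOf_eq_zero_iff']
      intro n hn h0
      apply hT (2 * n) (by omega)
      ext1 x
      rw [pow_mul, hpow, h0, Rz_zero]; rfl
    have : Fact (0 < 2 * Real.pi) := ⟨Real.two_pi_pos⟩
    have hdense : DenseRange (fun n : ℤ => n • (θ : AddCircle (2 * Real.pi))) :=
      AddCircle.denseRange_zsmul_iff.2 hord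
    obtain ⟨ω, hω⟩ := Rz_trans x y hx hy hxy
    have hopen : IsOpen {ω : Real.Angle | dist (Rz ω x) y < ε} :=
      isOpen_lt ((Rz_cont x).dist continuous_const) continuous_const
    obtain ⟨n, hn⟩ := hdense.exists_mem_open hopen ⟨ω, by
      show dist (Rz ω x) y < ε
      rw [hω, dist_self]; exact hε⟩
    refine ⟨n, ?_⟩
    rw [hz]
    exact hn

end Pool.Agent.Helper213.Div
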