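import Pool.Agent.Helper213.Div.Ord3

set_option autoImplicit false

open MeasureTheory Matrix Set Filter Topology Metric
open scoped ENNReal

namespace Pool.Agent.Helper213.Div

theorem norm_S2 (x : S2) : ‖(x : E)‖ = 1 := by
  have := x.2
  rwa [mem_sphere_iff_norm, sub_zero] at this

theorem coord2 (x : E) : x 2 = inner ℝ x e3 := by
  simp [e3, EuclideanSpace.inner_single_right]

theorem circle (T : E ≃ₗᵢ[ℝ] E) (hT : ∀ n : ℕ, 0 < n → T ^ n ≠ 1) :
    ∃ u : S2, ∀ x y : S2, inner ℝ (x : E) (u : E) = inner ℝ (y : E) (u : E) →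
      ∀ ε > 0, ∃ n : ℤ, dist (actH ((T ^ 2) ^ n) x) y < ε := by
  obtain ⟨u, hu⟩ := eigS T
  refine ⟨u, ?_⟩
  intro x y hxy ε hε
  set k : E ≃ₗᵢ[ℝ] E := Submodule.reflection (ℝ ∙ ((u : E) - e3))ᗮ with hk
  have hku : k (u : E) = e3 := by
    rw [hk]
    exact Submodule.reflection_sub (by rw [norm_S2, norm_e3])
  have hki : k⁻¹ e3 = (u : E) := by
    rw [← hku, ← mulApp, inv_mul_cancel]; rfl
  have hT' : ∀ n : ℕ, 0 < n → (k * T * k⁻¹) ^ n ≠ 1 := by
    intro n hn h0
    rw [conj_pow] at h0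
    apply hT n hn
    have : T ^ n = k⁻¹ * (k * T ^ n * k⁻¹) * k := by group
    rw [this, h0]; group
  have he : (k * T * k⁻¹) e3 = e3 ∨ (k * T * k⁻¹) e3 = -e3 := by
    rw [mulApp, mulApp, hki]
    rcases hu with h | h
    · left; rw [h, hku]
    · right; rw [h, map_neg, hku]
  have hin : ∀ z : S2, (k (z : E)) 2 = inner ℝ (z : E) (u : E) := by
    intro z
    rw [coord2, ← hku, k.inner_map_map]
  obtain ⟨n, hn⟩ := circ3 (k * T * k⁻¹) hT' he (k (x : E)) (k (y : E))
    (by rw [k.norm_map, norm_S2]) (by rw [k.norm_map, norm_S2]) (by rw [hin, hin, hxy]) ε hε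
  refine ⟨n, ?_⟩
  rw [conj_pow, conj_zpow, mulApp, mulApp] at hn
  have h1 : k⁻¹ (k (x : E)) = x := by rw [← mulApp, inv_mul_cancel]; rfl
  rw [h1, k.dist_map] at hn
  rw [Subtype.dist_eq, actH_coe]
  exact hn

theorem geo (u v : S2) (α : ℝ) (hc : -1 < inner ℝ (u : E) (v : E))
    (hα : 2 * α ^ 2 ≤ 1 + inner ℝ (u : E) (v : E)) :
    ∃ z : S2, inner ℝ (z : E) (u : E) = α ∧ inner ℝ (z : E) (v : E) = α := by
  set c : ℝ := inner ℝ (u : E) (v : E) with hcd
  obtain ⟨w, hw0, hwu, hwv⟩ : ∃ w : E, w ≠ 0 ∧ inner ℝ w (u : E) = 0 ∧ inner ℝ w (v : E) = 0 := by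
    set K : Submodule ℝ E := Submodule.span ℝ (({(u : E), (v : E)} : Finset E) : Set E) with hK
    have h1 : Module.finrank ℝ K ≤ 2 :=
      (finrank_span_finset_le_card _).trans Finset.card_le_two
    have h2 : Module.finrank ℝ K + Module.finrank ℝ Kᗮ = 3 := by
      rw [K.finrank_add_finrank_orthogonal]; simp
    have h3 : Kᗮ ≠ ⊥ := by
      intro h0
      rw [h0, finrank_bot] at h2
      omega
    obtain ⟨w, hw, hw0⟩ := Submodule.exists_mem_ne_zero_of_ne_bot h3
    rw [Submodule.mem_orthogonal'] at hw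
    refine ⟨w, hw0, hw _ (Submodule.subset_span (by simp)), hw _ (Submodule.subset_span (by simp))⟩
  have hwn : ‖w‖ ≠ 0 := norm_ne_zero_iff.2 hw0
  have hpos : 0 < 1 + c := by linarith
  have huu : inner ℝ (u : E) (u : E) = 1 := by rw [real_inner_self_eq_norm_sq, norm_S2]; norm_num
  have hvv : inner ℝ (v : E) (v : E) = 1 := by rw [real_inner_self_eq_norm_sq, norm_S2]; norm_num
  have hvu : inner ℝ (v : E) (u : E) = c := by rw [real_inner_comm]
  have huw : inner ℝ (u : E) w = 0 := by rw [real_inner_comm]; exact hwu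
  have hvw : inner ℝ (v : E) w = 0 := by rw [real_inner_comm]; exact hwv
  have hww : inner ℝ w w = ‖w‖ ^ 2 := real_inner_self_eq_norm_sq w
  set g : ℝ := Real.sqrt (1 - 2 * α ^ 2 / (1 + c)) / ‖w‖ with hg
  have hg2 : g ^ 2 * ‖w‖ ^ 2 = 1 - 2 * α ^ 2 / (1 + c) := by
    rw [hg, div_pow, Real.sq_sqrt, div_mul_cancel₀ _ (pow_ne_zero _ hwn)]
    rw [sub_nonneg, div_le_one hpos]; exact hα
  set β : ℝ := α / (1 + c) with hβ
  have hβ1 : β * (1 + c) = α := by rw [hβ]; field_simp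
  set z : E := β • ((u : E) + v) + g • w with hz
  have hzz : inner ℝ z z = 1 := by
    have : inner ℝ z z = 2 * β ^ 2 * (1 + c) + g ^ 2 * ‖w‖ ^ 2 := by
      rw [hz]
      simp only [inner_add_left, inner_add_right, real_inner_smul_left, real_inner_smul_right,
        huu, hvv, hvu, huw, hvw, hwu, hwv, hww, ← hcd]
      ring
    rw [this, hg2, hβ]
    field_simp
    ring
  have hzn : ‖z‖ = 1 := by
    have h1 := real_inner_self_eq_norm_sq z
    rw [hzz] at h1
    have h2 := norm_nonneg z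
    nlinarith
  refine ⟨⟨z, by rw [mem_sphere_iff_norm, sub_zero, hzn]⟩, ?_, ?_⟩
  · show inner ℝ z (u : E) = α
    rw [hz]
    simp only [inner_add_left, real_inner_smul_left, huu, hvu, hwu]
    linarith
  · show inner ℝ z (v : E) = α
    rw [hz]
    simp only [inner_add_left, real_inner_smul_left, hvv, hwv, ← hcd]
    linarith

end Pool.Agent.Helper213.Div
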