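import Pool.Agent.Helper213.Div.Ord4

set_option autoImplicit false

open MeasureTheory Matrix Set Filter Topology Metric
open scoped ENNReal

namespace Pool.Agent.Helper213.Div

theorem mem_img (φ : E ≃ₗᵢ[ℝ] E) (A : Set S2) (x : S2) : x ∈ actH φ '' A ↔ actH φ⁻¹ x ∈ A := by
  constructor
  · rintro ⟨y, hy, rfl⟩; rw [act_inv']; exact hy
  · intro h; exact ⟨_, h, act_inv φ x⟩

theorem sig_img (φ : E ≃ₗᵢ[ℝ] E) (A : Set S2) : sig (actH φ '' A) = sig A := by
  have : actH φ '' A = actH φ⁻¹ ⁻¹' A := by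
    ext x; exact mem_img φ A x
  rw [this]
  exact (mp_act φ⁻¹).measure_preimage_emb (actH φ⁻¹).measurableEmbedding A

section alg
variable {φ ψ : E ≃ₗᵢ[ℝ] E} {A : Set S2}

theorem not_one (h1 : Disjoint A (actH φ '' A)) (x : S2) (hx : x ∈ A) : actH φ x ∉ A :=
  fun h => (Set.disjoint_left.1 h1 h) ⟨x, hx, rfl⟩

theorem p3 (φ : E ≃ₗᵢ[ℝ] E) : φ ^ 3 = φ * (φ * φ) := by
  rw [pow_succ, pow_two, mul_assoc]

theorem cube (h3 : φ ^ 3 = 1) (x : S2) : actH φ (actH φ (actH φ x)) = x := by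
  have : actH φ (actH φ (actH φ x)) = actH (φ ^ 3) x := by rw [p3, act_mul, act_mul]
  rw [this, h3, act_one]

theorem not_two (h3 : φ ^ 3 = 1) (h1 : Disjoint A (actH φ '' A)) (x : S2) (hx : x ∈ A) :
    actH φ (actH φ x) ∉ A := by
  intro h
  have := not_one h1 _ h
  rw [cube h3] at this
  exact this hx

theorem imp (h3 : φ ^ 3 = 1) (h1 : Disjoint A (actH φ '' A))
    (hU : A ∪ actH φ '' A ∪ actH ψ '' A = univ) (y : S2) (hy : actH (φ * ψ) y ∈ A) : y ∈ A := by
  rw [act_mul] at hy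
  have h : actH ψ y ∈ A ∪ actH φ '' A ∪ actH ψ '' A := by rw [hU]; trivial
  rcases h with (h | h) | h
  · exact absurd hy (not_one h1 _ h)
  · obtain ⟨a, ha, hay⟩ := h
    rw [← hay] at hy
    exact absurd hy (not_two h3 h1 _ ha)
  · obtain ⟨a, ha, hay⟩ := h
    rw [(actH ψ).injective hay] at ha
    exact ha

theorem pole (h3 : φ ^ 3 = 1) : ∃ p : S2, actH φ p = p := by
  obtain ⟨u, h | h⟩ := eigS φ
  · exact ⟨u, by ext1; exact h⟩
  · exfalso
    have h4 : (φ ^ 3) (u : E) = -(u : E) := by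
      rw [p3, mulApp, mulApp, h, map_neg, h, neg_neg, h]
    rw [h3] at h4
    have h5 : (u : E) = -(u : E) := h4
    have h6' : (2 : ℝ) • (u : E) = 0 := by
      rw [two_smul]
      nth_rewrite 2 [h5]
      exact add_neg_cancel _
    have h6 : (u : E) = 0 := (smul_eq_zero.1 h6').resolve_left (by norm_num)
    have h7 := norm_S2 u
    rw [h6, norm_zero] at h7
    exact zero_ne_one h7

theorem infinite_order (h3 : φ ^ 3 = 1) (h1 : Disjoint A (actH φ '' A))
    (hU : A ∪ actH φ '' A ∪ actH ψ '' A = univ) (n : ℕ) (hn : 0 < n) : (φ * ψ) ^ n ≠ 1 := by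
  intro h0
  obtain ⟨p, hp⟩ := pole h3
  have hpA : p ∉ A := by
    intro h
    have := not_one h1 p h
    rw [hp] at this
    exact this h
  have hp' : p ∈ A ∪ actH φ '' A ∪ actH ψ '' A := by rw [hU]; trivial
  rcases hp' with (h | h) | h
  · exact hpA h
  · obtain ⟨a, ha, hap⟩ := h
    rw [← hp] at hap
    rw [(actH φ).injective hap] at ha
    exact hpA ha
  · obtain ⟨y, hy, hyp⟩ := h
    have hdesc : ∀ k : ℕ, actH ((φ * ψ) ^ (k + 1)) y ∉ A := by
      intro k
      induction k with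
      | zero =>
        rw [zero_add, pow_one, act_mul, hyp, hp]; exact hpA
      | succ k ih =>
        intro h
        rw [pow_succ', act_mul] at h
        exact ih (imp h3 h1 hU _ h)
    obtain ⟨k, rfl⟩ : ∃ k, n = k + 1 := ⟨n - 1, by omega⟩
    have := hdesc k
    rw [h0, act_one] at this
    exact this hy

end alg

theorem core (φ ψ : E ≃ₗᵢ[ℝ] E) (h3 : φ ^ 3 = 1) (A : Set S2) (hA : NullMeasurableSet A sig)
    (hinf : ∀ n : ℕ, 0 < n → (φ * ψ) ^ n ≠ 1)
    (h1 : AEDisjoint sig A (actH φ '' A))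
    (hTA : (actH (φ * ψ) ⁻¹' A : Set S2) =ᵐ[sig] A)
    (hZ : sig (A ∪ actH φ '' A ∪ actH φ '' (actH φ '' A))ᶜ = 0) : False := by
  obtain ⟨p, hp⟩ := pole h3
  obtain ⟨u, hcirc⟩ := circle (φ * ψ) hinf
  have hAφ : NullMeasurableSet (actH φ '' A) sig := nullMeas_image φ hA
  have hTinv : φ * ψ ∈ invGrp A := by
    intro x r
    rw [D_act]
    exact measure_congr (hTA.inter (ae_eq_refl _))
  have hfull : ∀ x y : S2, inner ℝ (x : E) (u : E) = inner ℝ (y : E) (u : E) →
      Full A x → Full A y := by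
    intro x y hxy hx
    refine full_closure hA x y (fun ε hε => ?_) hx
    obtain ⟨n, hn⟩ := hcirc x y hxy ε hε
    exact ⟨_, Subgroup.zpow_mem _ (Subgroup.pow_mem _ hTinv 2) n, hn⟩
  -- the constant c
  set c : ℝ := inner ℝ (u : E) (φ (u : E)) with hc
  have hφ3 : ∀ x : E, φ (φ (φ x)) = x := by
    intro x
    have h4 : (φ ^ 3) x = x := by rw [h3]; rfl
    rw [p3] at h4
    exact h4
  have hpE : φ (p : E) = p := congrArg Subtype.val hp
  set m : ℝ := inner ℝ (p : E) (u : E) with hm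
  have e1 : inner ℝ (p : E) (φ (u : E)) = m := by
    rw [hm, ← φ.inner_map_map (p : E) (u : E), hpE]
  have e2 : inner ℝ (p : E) (φ (φ (u : E))) = m := by
    rw [← e1, ← φ.inner_map_map (p : E) (φ (u : E)), hpE]
  have f1 : inner ℝ (φ (u : E)) (φ (φ (u : E))) = c := by rw [φ.inner_map_map]
  have f2 : inner ℝ (φ (φ (u : E))) (u : E) = c := by
    have : inner ℝ (φ (φ (u : E))) (φ (φ (φ (u : E)))) = c := by
      rw [φ.inner_map_map, f1]
    rwa [hφ3] at this
  have g1 : inner ℝ (φ (u : E)) (u : E) = c := by rw [real_inner_comm]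
  have g2 : inner ℝ (φ (φ (u : E))) (φ (u : E)) = c := by rw [real_inner_comm, f1]
  have g3 : inner ℝ (u : E) (φ (φ (u : E))) = c := by rw [real_inner_comm, f2]
  have n1 : inner ℝ (u : E) (u : E) = 1 := by rw [real_inner_self_eq_norm_sq, norm_S2]; norm_num
  have n2 : inner ℝ (φ (u : E)) (φ (u : E)) = 1 := by rw [φ.inner_map_map, n1]
  have n3 : inner ℝ (φ (φ (u : E))) (φ (φ (u : E))) = 1 := by rw [φ.inner_map_map, n2]
  set s : E := (u : E) + φ (u : E) + φ (φ (u : E)) with hs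
  have hss : inner ℝ s s = 3 + 6 * c := by
    rw [hs]
    simp only [inner_add_left, inner_add_right, n1, n2, n3, f1, f2, g1, g2, g3, ← hc]
    ring
  have hps : inner ℝ (p : E) s = 3 * m := by
    rw [hs]
    simp only [inner_add_right, e1, e2, ← hm]
    ring
  have hcs : (3 * m) ^ 2 ≤ 3 + 6 * c := by
    have h5 := real_inner_mul_inner_self_le (p : E) s
    rw [hps, hss, real_inner_self_eq_norm_sq, norm_S2] at h5
    nlinarith
  have hc1 : -1 < c := by nlinarith [sq_nonneg m]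
  have hcle : c ≤ 1 := by
    have h5 := real_inner_mul_inner_self_le (u : E) (φ (u : E))
    rw [← hc, n1, n2] at h5
    nlinarith
  -- no full points in a large region
  have hno : ∀ x : S2, 2 * (inner ℝ (x : E) (u : E) : ℝ) ^ 2 ≤ 1 + c → ¬ Full A x := by
    intro x hx hfx
    obtain ⟨z, hz1, hz2⟩ := geo u (actH φ u) (inner ℝ (x : E) (u : E)) hc1 hx
    have hF1 : Full A z := hfull x z hz1.symm hfx
    have hz3 : inner ℝ ((actH φ⁻¹ z : S2) : E) (u : E) = (inner ℝ (x : E) (u : E) : ℝ) := by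
      rw [← hz2, ← φ.inner_map_map, ← actH_coe, act_inv]
      rfl
    have hF2 : Full A (actH φ⁻¹ z) := hfull x _ hz3.symm hfx
    have hF3 : Full (actH φ '' A) z := by
      have h5 : Full (actH φ ⁻¹' (actH φ '' A)) (actH φ⁻¹ z) := by
        rw [Set.preimage_image_eq _ (actH φ).injective]; exact hF2
      have h6 := full_act φ _ h5
      rwa [act_inv] at h6
    exact full_disj hAφ h1 z hF1 hF3
  -- the open set
  obtain ⟨O, hO, hOne, hOsub⟩ : ∃ O : Set S2, IsOpen O ∧ O.Nonempty ∧ ∀ x ∈ O,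
      2 * (inner ℝ (x : E) (u : E) : ℝ) ^ 2 ≤ 1 + c ∧
      2 * (inner ℝ ((actH φ⁻¹ x : S2) : E) (u : E) : ℝ) ^ 2 ≤ 1 + c ∧
      2 * (inner ℝ ((actH φ⁻¹ (actH φ⁻¹ x) : S2) : E) (u : E) : ℝ) ^ 2 ≤ 1 + c := by
    have hcont : Continuous fun x : S2 => 2 * (inner ℝ (x : E) (u : E) : ℝ) ^ 2 := by fun_prop
    by_cases hc' : c < 1
    · have hpi : actH φ⁻¹ p = p := by
        conv_lhs => rw [← hp]
        rw [act_inv']
      have hm2 : 2 * (inner ℝ (p : E) (u : E) : ℝ) ^ 2 < 1 + c := by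
        rw [← hm]; nlinarith
      refine ⟨{x | 2 * (inner ℝ (x : E) (u : E) : ℝ) ^ 2 < 1 + c} ∩
        (actH φ⁻¹ ⁻¹' {x | 2 * (inner ℝ (x : E) (u : E) : ℝ) ^ 2 < 1 + c} ∩
        (actH φ⁻¹ ⁻¹' (actH φ⁻¹ ⁻¹' {x | 2 * (inner ℝ (x : E) (u : E) : ℝ) ^ 2 < 1 + c}))),
        ?_, ⟨p, ?_, ?_, ?_⟩, ?_⟩
      · have ho : IsOpen {x : S2 | 2 * (inner ℝ (x : E) (u : E) : ℝ) ^ 2 < 1 + c} :=
          isOpen_lt hcont continuous_const
        exact ho.inter ((ho.preimage (actH φ⁻¹).continuous).inter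
          ((ho.preimage (actH φ⁻¹).continuous).preimage (actH φ⁻¹).continuous))
      · exact hm2
      · show 2 * (inner ℝ ((actH φ⁻¹ p : S2) : E) (u : E) : ℝ) ^ 2 < 1 + c
        rw [hpi]; exact hm2
      · show 2 * (inner ℝ ((actH φ⁻¹ (actH φ⁻¹ p) : S2) : E) (u : E) : ℝ) ^ 2 < 1 + c
        rw [hpi, hpi]; exact hm2
      · rintro x ⟨a1, a2, a3⟩
        exact ⟨le_of_lt a1, le_of_lt a2, le_of_lt a3⟩
    · have hc2 : c = 1 := le_antisymm hcle (not_lt.1 hc')
      have hall : ∀ x : S2, 2 * (inner ℝ (x : E) (u : E) : ℝ) ^ 2 ≤ 1 + c := by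
        intro x
        have h5 := real_inner_mul_inner_self_le (x : E) (u : E)
        rw [n1, real_inner_self_eq_norm_sq, norm_S2] at h5
        rw [hc2]; nlinarith
      exact ⟨univ, isOpen_univ, ⟨p, trivial⟩, fun x _ => ⟨hall _, hall _, hall _⟩⟩
  -- null sets
  set N : Set S2 := {x | ¬ Full A x} ∩ A with hN
  have hN0 : sig N = 0 := by
    have h5 := ae_full A
    rw [ae_iff] at h5
    exact le_antisymm ((Measure.le_restrict_apply _ _).trans h5.le) bot_le
  have hcov : O ⊆ N ∪ actH φ '' N ∪ actH φ '' (actH φ '' N) ∪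
      (A ∪ actH φ '' A ∪ actH φ '' (actH φ '' A))ᶜ := by
    intro x hx
    obtain ⟨a1, a2, a3⟩ := hOsub x hx
    by_cases hx' : x ∈ A ∪ actH φ '' A ∪ actH φ '' (actH φ '' A)
    · left
      rcases hx' with (h | h) | h
      · exact Or.inl (Or.inl ⟨hno x a1, h⟩)
      · refine Or.inl (Or.inr ?_)
        rw [mem_img] at h ⊢
        exact ⟨hno _ a2, h⟩
      · refine Or.inr ?_
        rw [mem_img, mem_img] at h ⊢
        exact ⟨hno _ a3, h⟩
    · exact Or.inr hx'
  have hO0 : sig O = 0 := by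
    refine measure_mono_null hcov ?_
    refine measure_union_null (measure_union_null (measure_union_null hN0 ?_) ?_) hZ
    · rw [sig_img, hN0]
    · rw [sig_img, sig_img, hN0]
  exact (hO.measure_pos sig hOne).ne' hO0

theorem order3_ae (φ ψ : E ≃ₗᵢ[ℝ] E) (h3 : φ ^ 3 = 1) (A : Set S2) (hA : NullMeasurableSet A sig)
    (h1 : AEDisjoint sig A (actH φ '' A)) (h2 : AEDisjoint sig A (actH ψ '' A))
    (h12 : AEDisjoint sig (actH φ '' A) (actH ψ '' A))
    (hU : sig (A ∪ actH φ '' A ∪ actH ψ '' A)ᶜ = 0)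
    (hinf : ∀ n : ℕ, 0 < n → (φ * ψ) ^ n ≠ 1) : False := by
  have hAφ : NullMeasurableSet (actH φ '' A) sig := nullMeas_image φ hA
  have hAψ : NullMeasurableSet (actH ψ '' A) sig := nullMeas_image ψ hA
  have h13 : AEDisjoint sig A (actH φ '' (actH φ '' A)) := by
    have e : A ∩ actH φ '' (actH φ '' A) ⊆ actH φ '' (actH φ '' (A ∩ actH φ '' A)) := by
      rintro x ⟨hx, y, ⟨z, hz, rfl⟩, rfl⟩
      refine ⟨_, ⟨z, ⟨hz, ⟨_, hx, cube h3 z⟩⟩, rfl⟩, rfl⟩
    refine measure_mono_null e ?_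
    rw [sig_img, sig_img]; exact h1
  refine core φ ψ h3 A hA hinf h1 ?_ ?_
  · refine ae_eq_of_ae_subset_of_measure_ge ?_ ?_ ?_ (measure_ne_top _ _)
    · have hsub : (actH (φ * ψ) ⁻¹' A) \ A ⊆ actH ψ ⁻¹' (A ∪ actH φ '' A ∪ actH ψ '' A)ᶜ ∪
          actH (φ * ψ) ⁻¹' (A ∩ actH φ '' A) ∪
          actH (φ * ψ) ⁻¹' (A ∩ actH φ '' (actH φ '' A)) := by
        rintro y ⟨hy, hyA⟩
        by_cases h : actH ψ y ∈ A ∪ actH φ '' A ∪ actH ψ '' A
        · rcases h with (h | h) | h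
          · refine Or.inl (Or.inr ⟨hy, actH ψ y, h, ?_⟩)
            rw [act_mul]
          · refine Or.inr ⟨hy, actH ψ y, h, ?_⟩
            rw [act_mul]
          · obtain ⟨a, ha, hay⟩ := h
            rw [(actH ψ).injective hay] at ha
            exact absurd ha hyA
        · exact Or.inl (Or.inl h)
      have hnull : sig ((actH (φ * ψ) ⁻¹' A) \ A) = 0 := by
        refine measure_mono_null hsub (measure_union_null (measure_union_null ?_ ?_) ?_)
        · rw [(mp_act ψ).measure_preimage_emb (actH ψ).measurableEmbedding]; exact hU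
        · rw [(mp_act (φ * ψ)).measure_preimage_emb (actH (φ * ψ)).measurableEmbedding]; exact h1
        · rw [(mp_act (φ * ψ)).measure_preimage_emb (actH (φ * ψ)).measurableEmbedding]; exact h13
      exact ae_le_set.2 hnull
    · rw [(mp_act (φ * ψ)).measure_preimage_emb (actH (φ * ψ)).measurableEmbedding]
    · exact hA.preimage (mp_act (φ * ψ)).quasiMeasurePreserving
  · have hd1 : AEDisjoint sig (A ∪ actH φ '' A) (actH ψ '' A) := h2.union_left h12
    have hUu : (A ∪ actH φ '' A ∪ actH ψ '' A : Set S2) =ᵐ[sig] univ := ae_eq_univ.2 hU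
    have t1 : sig (univ : Set S2) = sig A + sig A + sig A := by
      rw [← measure_congr hUu, measure_union₀ hAψ hd1, measure_union₀ hAφ h1, sig_img,
        sig_img]
    have h23 : AEDisjoint sig (actH φ '' A) (actH φ '' (actH φ '' A)) := by
      have : actH φ '' A ∩ actH φ '' (actH φ '' A) = actH φ '' (A ∩ actH φ '' A) :=
        (Set.image_inter (actH φ).injective).symm
      show sig (actH φ '' A ∩ actH φ '' (actH φ '' A)) = 0
      rw [this, sig_img]; exact h1
    have hd2 : AEDisjoint sig (A ∪ actH φ '' A) (actH φ '' (actH φ '' A)) := h13.union_left h23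
    have t2 : sig (A ∪ actH φ '' A ∪ actH φ '' (actH φ '' A)) = sig A + sig A + sig A := by
      rw [measure_union₀ (nullMeas_image φ hAφ) hd2, measure_union₀ hAφ h1,
        sig_img, sig_img, sig_img]
    have t3 : (A ∪ actH φ '' A ∪ actH φ '' (actH φ '' A) : Set S2) =ᵐ[sig] univ :=
      ae_eq_of_subset_of_measure_ge (subset_univ _) (by rw [t1, t2])
        ((hA.union hAφ).union (nullMeas_image φ hAφ)) (measure_ne_top _ _)
    exact ae_eq_univ.1 t3

theorem order3 (φ ψ : E ≃ₗᵢ[ℝ] E) (h3 : φ ^ 3 = 1) (A : Set S2) (hA : NullMeasurableSet A sig)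
    (h1 : Disjoint A (actH φ '' A)) (h2 : Disjoint A (actH ψ '' A))
    (h12 : Disjoint (actH φ '' A) (actH ψ '' A))
    (hU : A ∪ actH φ '' A ∪ actH ψ '' A = univ) : False :=
  order3_ae φ ψ h3 A hA h1.aedisjoint h2.aedisjoint h12.aedisjoint
    (by rw [hU, compl_univ]; exact measure_empty) (infinite_order h3 h1 hU)

end Pool.Agent.Helper213.Div
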