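import Pool.Agent.Helper213.Div.Ord5

set_option autoImplicit false

open MeasureTheory Matrix Set Filter Topology Metric
open scoped ENNReal

namespace Pool.Agent.Helper213.Div

theorem equi (u v w : S2) : ∃ x : S2, inner ℝ (x : E) (v : E) = (inner ℝ (x : E) (u : E) : ℝ) ∧
    inner ℝ (x : E) (w : E) = (inner ℝ (x : E) (u : E) : ℝ) := by
  obtain ⟨y, hy0, hy1, hy2⟩ : ∃ y : E, y ≠ 0 ∧ inner ℝ y ((u : E) - v) = 0 ∧
      inner ℝ y ((u : E) - w) = 0 := by
    set K : Submodule ℝ E :=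
      Submodule.span ℝ (({(u : E) - v, (u : E) - w} : Finset E) : Set E) with hK
    have h1 : Module.finrank ℝ K ≤ 2 :=
      (finrank_span_finset_le_card _).trans Finset.card_le_two
    have h2 : Module.finrank ℝ K + Module.finrank ℝ Kᗮ = 3 := by
      rw [K.finrank_add_finrank_orthogonal]; simp
    have h3 : Kᗮ ≠ ⊥ := by
      intro h0
      rw [h0, finrank_bot] at h2
      omega
    obtain ⟨w', hw, hw0⟩ := Submodule.exists_mem_ne_zero_of_ne_bot h3
    rw [Submodule.mem_orthogonal'] at hw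
    exact ⟨w', hw0, hw _ (Submodule.subset_span (by simp)), hw _ (Submodule.subset_span (by simp))⟩
  have hn : ‖y‖ ≠ 0 := norm_ne_zero_iff.2 hy0
  refine ⟨⟨(‖y‖)⁻¹ • y, ?_⟩, ?_, ?_⟩
  · rw [mem_sphere_iff_norm, sub_zero, norm_smul, norm_inv, norm_norm, inv_mul_cancel₀ hn]
  · rw [inner_sub_right, sub_eq_zero] at hy1
    simp only [real_inner_smul_left, hy1]
  · rw [inner_sub_right, sub_eq_zero] at hy2
    simp only [real_inner_smul_left, hy2]

theorem core2 (φ ψ T : E ≃ₗᵢ[ℝ] E) (A : Set S2) (hA : NullMeasurableSet A sig)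
    (hinf : ∀ n : ℕ, 0 < n → T ^ n ≠ 1)
    (h1 : AEDisjoint sig A (actH φ '' A)) (h2 : AEDisjoint sig A (actH ψ '' A))
    (h12 : AEDisjoint sig (actH φ '' A) (actH ψ '' A))
    (hU : sig (A ∪ actH φ '' A ∪ actH ψ '' A)ᶜ = 0)
    (hTA : (actH T ⁻¹' A : Set S2) =ᵐ[sig] A) : False := by
  obtain ⟨u, hcirc⟩ := circle T hinf
  have hAφ : NullMeasurableSet (actH φ '' A) sig := nullMeas_image φ hA
  have hAψ : NullMeasurableSet (actH ψ '' A) sig := nullMeas_image ψ hA
  have hTinv : T ∈ invGrp A := by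
    intro x r
    rw [D_act]
    exact measure_congr (hTA.inter (ae_eq_refl _))
  have hfull : ∀ x y : S2, inner ℝ (x : E) (u : E) = inner ℝ (y : E) (u : E) →
      Full A x → Full A y := by
    intro x y hxy hx
    refine full_closure hA x y (fun ε hε => ?_) hx
    obtain ⟨n, hn⟩ := hcirc x y hxy ε hε
    exact ⟨_, Subgroup.zpow_mem _ (Subgroup.pow_mem _ hTinv 2) n, hn⟩
  -- full points of the images
  have himg : ∀ (χ : E ≃ₗᵢ[ℝ] E) (x z : S2), Full A x →
      inner ℝ (z : E) (χ (u : E)) = (inner ℝ (x : E) (u : E) : ℝ) → Full (actH χ '' A) z := by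
    intro χ x z hx hz
    have hz3 : inner ℝ ((actH χ⁻¹ z : S2) : E) (u : E) = (inner ℝ (x : E) (u : E) : ℝ) := by
      rw [← hz, ← χ.inner_map_map, ← actH_coe, act_inv]
    have hF2 : Full A (actH χ⁻¹ z) := hfull x _ hz3.symm hx
    have h5 : Full (actH χ ⁻¹' (actH χ '' A)) (actH χ⁻¹ z) := by
      rw [Set.preimage_image_eq _ (actH χ).injective]; exact hF2
    have h6 := full_act χ _ h5
    rwa [act_inv] at h6
  set v : S2 := actH φ u with hv
  set w : S2 := actH ψ u with hw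
  set a : ℝ := inner ℝ (u : E) (v : E) with ha
  set b : ℝ := inner ℝ (u : E) (w : E) with hb
  set c : ℝ := inner ℝ (v : E) (w : E) with hc
  have n1 : inner ℝ (u : E) (u : E) = 1 := by rw [real_inner_self_eq_norm_sq, norm_S2]; norm_num
  have n2 : inner ℝ (v : E) (v : E) = 1 := by rw [real_inner_self_eq_norm_sq, norm_S2]; norm_num
  have n3 : inner ℝ (w : E) (w : E) = 1 := by rw [real_inner_self_eq_norm_sq, norm_S2]; norm_num
  have g1 : inner ℝ (v : E) (u : E) = a := by rw [real_inner_comm]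
  have g2 : inner ℝ (w : E) (u : E) = b := by rw [real_inner_comm]
  have g3 : inner ℝ (w : E) (v : E) = c := by rw [real_inner_comm]
  set s : E := (u : E) + v + w with hs
  have hss : inner ℝ s s = 3 + 2 * a + 2 * b + 2 * c := by
    rw [hs]
    simp only [inner_add_left, inner_add_right, n1, n2, n3, g1, g2, g3, ← ha, ← hb, ← hc]
    ring
  have hss0 : 0 ≤ 3 + 2 * a + 2 * b + 2 * c := by
    rw [← hss]; exact real_inner_self_nonneg
  have hle : ∀ x y : S2, (inner ℝ (x : E) (y : E) : ℝ) ≤ 1 := by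
    intro x y
    have h5 := real_inner_le_norm (x : E) (y : E)
    rw [norm_S2, norm_S2, mul_one] at h5
    exact h5
  -- the maximal inner product
  obtain ⟨M, hMa, hMb, hMc, hM1, hMex⟩ : ∃ M : ℝ, a ≤ M ∧ b ≤ M ∧ c ≤ M ∧ M ≤ 1 ∧
      ∀ x : S2, 2 * (inner ℝ (x : E) (u : E) : ℝ) ^ 2 ≤ 1 + M → ¬ Full A x := by
    have key : ∀ (B C : Set S2) (p q : S2), NullMeasurableSet C sig → AEDisjoint sig B C →
        -1 < (inner ℝ (p : E) (q : E) : ℝ) →
        (∀ x z : S2, Full A x → inner ℝ (z : E) (p : E) = (inner ℝ (x : E) (u : E) : ℝ) →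
          Full B z) →
        (∀ x z : S2, Full A x → inner ℝ (z : E) (q : E) = (inner ℝ (x : E) (u : E) : ℝ) →
          Full C z) →
        ∀ x : S2, 2 * (inner ℝ (x : E) (u : E) : ℝ) ^ 2 ≤ 1 + inner ℝ (p : E) (q : E) →
          ¬ Full A x := by
      intro B C p q hC hBC hpq hB hCf x hx hfx
      obtain ⟨z, hz1, hz2⟩ := geo p q (inner ℝ (x : E) (u : E)) hpq hx
      exact full_disj hC hBC z (hB x z hfx hz1) (hCf x z hfx hz2)
    have self : ∀ x z : S2, Full A x → inner ℝ (z : E) (u : E) = (inner ℝ (x : E) (u : E) : ℝ) →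
        Full A z := fun x z hx hz => hfull x z hz.symm hx
    rcases le_total a b with hab | hab
    · rcases le_total b c with hbc | hbc
      · exact ⟨c, hab.trans hbc, hbc, le_refl _, hle _ _,
          key _ _ v w hAψ h12 (by rw [← hc]; linarith) (himg φ) (himg ψ)⟩
      · exact ⟨b, hab, le_refl _, hbc, hle _ _,
          key _ _ u w hAψ h2 (by rw [← hb]; linarith) self (himg ψ)⟩
    · rcases le_total a c with hac | hac
      · exact ⟨c, hac, hab.trans hac, le_refl _, hle _ _,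
          key _ _ v w hAψ h12 (by rw [← hc]; linarith) (himg φ) (himg ψ)⟩
      · exact ⟨a, le_refl _, hab, hac, hle _ _,
          key _ _ u v hAφ h1 (by rw [← ha]; linarith) self (himg φ)⟩
  -- the open set
  obtain ⟨O, hO, hOne, hOsub⟩ : ∃ O : Set S2, IsOpen O ∧ O.Nonempty ∧ ∀ x ∈ O,
      2 * (inner ℝ (x : E) (u : E) : ℝ) ^ 2 ≤ 1 + M ∧
      2 * (inner ℝ (x : E) (v : E) : ℝ) ^ 2 ≤ 1 + M ∧
      2 * (inner ℝ (x : E) (w : E) : ℝ) ^ 2 ≤ 1 + M := by
    have hcont : ∀ y : S2, Continuous fun x : S2 => 2 * (inner ℝ (x : E) (y : E) : ℝ) ^ 2 := by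
      intro y; fun_prop
    by_cases hM' : M < 1
    · obtain ⟨x, hx1, hx2⟩ := equi u v w
      set m : ℝ := inner ℝ (x : E) (u : E) with hm
      have hps : inner ℝ (x : E) s = 3 * m := by
        rw [hs]
        simp only [inner_add_right, hx1, hx2, ← hm]
        ring
      have hcs : (3 * m) ^ 2 ≤ 3 + 6 * M := by
        have h5 := real_inner_mul_inner_self_le (x : E) s
        rw [hps, hss, real_inner_self_eq_norm_sq, norm_S2] at h5
        nlinarith
      have hm2 : 2 * m ^ 2 < 1 + M := by nlinarith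
      refine ⟨{x : S2 | 2 * (inner ℝ (x : E) (u : E) : ℝ) ^ 2 < 1 + M} ∩
        ({x : S2 | 2 * (inner ℝ (x : E) (v : E) : ℝ) ^ 2 < 1 + M} ∩
        {x : S2 | 2 * (inner ℝ (x : E) (w : E) : ℝ) ^ 2 < 1 + M}),
        ?_, ⟨x, ?_, ?_, ?_⟩, ?_⟩
      · exact (isOpen_lt (hcont u) continuous_const).inter
          ((isOpen_lt (hcont v) continuous_const).inter (isOpen_lt (hcont w) continuous_const))
      · exact hm2
      · show 2 * (inner ℝ (x : E) (v : E) : ℝ) ^ 2 < 1 + M
        rw [hx1]; exact hm2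
      · show 2 * (inner ℝ (x : E) (w : E) : ℝ) ^ 2 < 1 + M
        rw [hx2]; exact hm2
      · rintro x ⟨a1, a2, a3⟩
        exact ⟨le_of_lt a1, le_of_lt a2, le_of_lt a3⟩
    · have hc2 : M = 1 := le_antisymm hM1 (not_lt.1 hM')
      have hall : ∀ x y : S2, 2 * (inner ℝ (x : E) (y : E) : ℝ) ^ 2 ≤ 1 + M := by
        intro x y
        have h5 := real_inner_mul_inner_self_le (x : E) (y : E)
        rw [real_inner_self_eq_norm_sq, real_inner_self_eq_norm_sq, norm_S2, norm_S2] at h5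
        rw [hc2]; nlinarith
      exact ⟨univ, isOpen_univ, ⟨u, trivial⟩, fun x _ => ⟨hall _ _, hall _ _, hall _ _⟩⟩
  -- null sets
  set N : Set S2 := {x | ¬ Full A x} ∩ A with hN
  have hN0 : sig N = 0 := by
    have h5 := ae_full A
    rw [ae_iff] at h5
    exact le_antisymm ((Measure.le_restrict_apply _ _).trans h5.le) bot_le
  have hback : ∀ (χ : E ≃ₗᵢ[ℝ] E) (x : S2), inner ℝ ((actH χ⁻¹ x : S2) : E) (u : E) =
      (inner ℝ (x : E) ((actH χ u : S2) : E) : ℝ) := by
    intro χ x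
    rw [← χ.inner_map_map, ← actH_coe, act_inv]
    rfl
  have hcov : O ⊆ N ∪ actH φ '' N ∪ actH ψ '' N ∪ (A ∪ actH φ '' A ∪ actH ψ '' A)ᶜ := by
    intro x hx
    obtain ⟨a1, a2, a3⟩ := hOsub x hx
    by_cases hx' : x ∈ A ∪ actH φ '' A ∪ actH ψ '' A
    · left
      rcases hx' with (h | h) | h
      · exact Or.inl (Or.inl ⟨hMex x a1, h⟩)
      · refine Or.inl (Or.inr ?_)
        rw [mem_img] at h ⊢
        exact ⟨hMex _ (by rw [hback]; exact a2), h⟩
      · refine Or.inr ?_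
        rw [mem_img] at h ⊢
        exact ⟨hMex _ (by rw [hback]; exact a3), h⟩
    · exact Or.inr hx'
  have hO0 : sig O = 0 := by
    refine measure_mono_null hcov ?_
    refine measure_union_null (measure_union_null (measure_union_null hN0 ?_) ?_) hU
    · rw [sig_img, hN0]
    · rw [sig_img, hN0]
  exact (hO.measure_pos sig hOne).ne' hO0

end Pool.Agent.Helper213.Div
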