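import Pool.Agent.Helper213.Div.Ord6

set_option autoImplicit false

open MeasureTheory Matrix Set Filter Topology Metric
open scoped ENNReal

namespace Pool.Agent.Helper213.Div

theorem ae_part (φ ψ : E ≃ₗᵢ[ℝ] E) (A B C : Set S2)
    (hAB : sig (A ∩ B) = 0) (hAC : sig (A ∩ C) = 0) (hBC : sig (B ∩ C) = 0)
    (hU : sig (A ∪ B ∪ C)ᶜ = 0)
    (s1 : sig (actH φ '' A \ B) = 0) (s2 : sig (B \ actH φ '' A) = 0)
    (t1 : sig (actH ψ '' A \ C) = 0) (t2 : sig (C \ actH ψ '' A) = 0) :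
    AEDisjoint sig A (actH φ '' A) ∧ AEDisjoint sig A (actH ψ '' A) ∧
      AEDisjoint sig (actH φ '' A) (actH ψ '' A) ∧
      sig (A ∪ actH φ '' A ∪ actH ψ '' A)ᶜ = 0 := by
  refine ⟨?_, ?_, ?_, ?_⟩
  · refine measure_mono_null (t := (A ∩ B) ∪ (actH φ '' A \ B)) ?_ (measure_union_null hAB s1)
    rintro x ⟨hx1, hx2⟩
    by_cases h : x ∈ B
    · exact Or.inl ⟨hx1, h⟩
    · exact Or.inr ⟨hx2, h⟩
  · refine measure_mono_null (t := (A ∩ C) ∪ (actH ψ '' A \ C)) ?_ (measure_union_null hAC t1)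
    rintro x ⟨hx1, hx2⟩
    by_cases h : x ∈ C
    · exact Or.inl ⟨hx1, h⟩
    · exact Or.inr ⟨hx2, h⟩
  · refine measure_mono_null (t := (B ∩ C) ∪ (actH φ '' A \ B) ∪ (actH ψ '' A \ C)) ?_
      (measure_union_null (measure_union_null hBC s1) t1)
    rintro x ⟨hx1, hx2⟩
    by_cases h : x ∈ B
    · by_cases h' : x ∈ C
      · exact Or.inl (Or.inl ⟨h, h'⟩)
      · exact Or.inr ⟨hx2, h'⟩
    · exact Or.inl (Or.inr ⟨hx1, h⟩)
  · refine measure_mono_null (t := (A ∪ B ∪ C)ᶜ ∪ (B \ actH φ '' A) ∪ (C \ actH ψ '' A)) ?_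
      (measure_union_null (measure_union_null hU s2) t2)
    intro x hx
    have hxA : x ∉ A := fun h => hx (Or.inl (Or.inl h))
    have hxB : x ∉ actH φ '' A := fun h => hx (Or.inl (Or.inr h))
    have hxC : x ∉ actH ψ '' A := fun h => hx (Or.inr h)
    by_cases h : x ∈ B
    · exact Or.inl (Or.inr ⟨h, hxB⟩)
    · by_cases h' : x ∈ C
      · exact Or.inr ⟨h', hxC⟩
      · refine Or.inl (Or.inl ?_)
        rintro ((h1 | h1) | h1)
        · exact hxA h1
        · exact h h1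
        · exact h' h1

theorem same_pre (T : E ≃ₗᵢ[ℝ] E) (A : Set S2) (h1 : sig (actH T '' A \ A) = 0)
    (h2 : sig (A \ actH T '' A) = 0) : (actH T ⁻¹' A : Set S2) =ᵐ[sig] A := by
  rw [ae_eq_set]
  constructor
  · have : actH T ⁻¹' A \ A = actH T ⁻¹' (A \ actH T '' A) := by
      rw [Set.preimage_sdiff, Set.preimage_image_eq _ (actH T).injective]
    rw [this, (mp_act T).measure_preimage_emb (actH T).measurableEmbedding]; exact h2
  · have : A \ actH T ⁻¹' A = actH T ⁻¹' (actH T '' A \ A) := by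
      rw [Set.preimage_sdiff, Set.preimage_image_eq _ (actH T).injective]
    rw [this, (mp_act T).measure_preimage_emb (actH T).measurableEmbedding]; exact h1

theorem torsion (φ ψ T : E ≃ₗᵢ[ℝ] E) (A B C : Set S2) (hA : NullMeasurableSet A sig)
    (hAB : sig (A ∩ B) = 0) (hAC : sig (A ∩ C) = 0) (hBC : sig (B ∩ C) = 0)
    (hU : sig (A ∪ B ∪ C)ᶜ = 0)
    (s1 : sig (actH φ '' A \ B) = 0) (s2 : sig (B \ actH φ '' A) = 0)
    (t1 : sig (actH ψ '' A \ C) = 0) (t2 : sig (C \ actH ψ '' A) = 0)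
    (r1 : sig (actH T '' A \ A) = 0) (r2 : sig (A \ actH T '' A) = 0) :
    ∃ n : ℕ, 0 < n ∧ T ^ n = 1 := by
  by_contra hcon
  push Not at hcon
  obtain ⟨p1, p2, p3, p4⟩ := ae_part φ ψ A B C hAB hAC hBC hU s1 s2 t1 t2
  exact core2 φ ψ T A hA hcon p1 p2 p3 p4 (same_pre T A r1 r2)

theorem order3_same (φ ψ : E ≃ₗᵢ[ℝ] E) (A B C : Set S2) (hA : NullMeasurableSet A sig)
    (hAB : sig (A ∩ B) = 0) (hAC : sig (A ∩ C) = 0) (hBC : sig (B ∩ C) = 0)
    (hU : sig (A ∪ B ∪ C)ᶜ = 0)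
    (s1 : sig (actH φ '' A \ B) = 0) (s2 : sig (B \ actH φ '' A) = 0)
    (t1 : sig (actH ψ '' A \ C) = 0) (t2 : sig (C \ actH ψ '' A) = 0)
    (h3 : φ ^ 3 = 1) :
    ∃ n : ℕ, 0 < n ∧ (φ * ψ) ^ n = 1 := by
  by_contra hcon
  push Not at hcon
  obtain ⟨p1, p2, p3, p4⟩ := ae_part φ ψ A B C hAB hAC hBC hU s1 s2 t1 t2
  exact order3_ae φ ψ h3 A hA p1 p2 p3 p4 hcon

/-- no partition at all when a line is preserved -/
theorem common_line (φ ψ : E ≃ₗᵢ[ℝ] E) (A : Set S2) (h1 : Disjoint A (actH φ '' A))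
    (h2 : Disjoint A (actH ψ '' A)) (h12 : Disjoint (actH φ '' A) (actH ψ '' A))
    (hU : A ∪ actH φ '' A ∪ actH ψ '' A = univ) (u u' : S2) (huu : (u' : E) = -(u : E))
    (hφ : actH φ u = u ∨ actH φ u = u') (hψ : actH ψ u = u ∨ actH ψ u = u') : False := by
  have e1 : ∀ χ : E ≃ₗᵢ[ℝ] E, actH χ u = u → actH χ u' = u' := by
    intro χ h
    ext1
    have h5 : χ (u : E) = u := congrArg Subtype.val h
    rw [actH_coe, huu, map_neg, h5]
  have e2 : ∀ χ : E ≃ₗᵢ[ℝ] E, actH χ u = u' → actH χ u' = u := by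
    intro χ h
    ext1
    have h5 : χ (u : E) = u' := congrArg Subtype.val h
    rw [actH_coe, huu, map_neg, h5, huu, neg_neg]
  -- points fixed by one of the maps
  have f1 : ∀ (χ : E ≃ₗᵢ[ℝ] E) (x : S2), Disjoint A (actH χ '' A) → actH χ x = x → x ∉ A := by
    intro χ x hd hx hxA
    exact (Set.disjoint_left.1 hd hxA) ⟨x, hxA, hx⟩
  have cover : ∀ x : S2, x ∈ A ∨ x ∈ actH φ '' A ∨ x ∈ actH ψ '' A := by
    intro x
    have : x ∈ A ∪ actH φ '' A ∪ actH ψ '' A := by rw [hU]; trivial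
    rcases this with (h | h) | h
    · exact Or.inl h
    · exact Or.inr (Or.inl h)
    · exact Or.inr (Or.inr h)
  have pre : ∀ (χ : E ≃ₗᵢ[ℝ] E) (x y : S2), actH χ y = x → x ∈ actH χ '' A → y ∈ A := by
    rintro χ x y hy ⟨z, hz, hzx⟩
    rw [← hy] at hzx
    rw [← (actH χ).injective hzx]; exact hz
  -- if neither `u` nor `u'` is in `A` we are done
  have none : u ∉ A → u' ∉ A → False := by
    intro hu hu'
    rcases cover u with h | h | h
    · exact hu h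
    · rcases hφ with h' | h'
      · exact hu (pre φ u u h' h)
      · exact hu' (pre φ u u' (e2 φ h') h)
    · rcases hψ with h' | h'
      · exact hu (pre ψ u u h' h)
      · exact hu' (pre ψ u u' (e2 ψ h') h)
  rcases hφ with hf | hf
  · exact none (f1 φ u h1 hf) (f1 φ u' h1 (e1 φ hf))
  · rcases hψ with hg | hg
    · exact none (f1 ψ u h2 hg) (f1 ψ u' h2 (e1 ψ hg))
    · by_cases hu : u ∈ A
      · exact (Set.disjoint_left.1 h12 ⟨u, hu, hf⟩) ⟨u, hu, hg⟩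
      · by_cases hu' : u' ∈ A
        · exact (Set.disjoint_left.1 h12 ⟨u', hu', e2 φ hf⟩) ⟨u', hu', e2 ψ hg⟩
        · exact none hu hu'

end Pool.Agent.Helper213.Div
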