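import Pool.Agent.Helper213.Div.Neg

set_option autoImplicit false

open MeasureTheory Matrix Set Filter Topology

namespace Pool.Agent.Helper213.Div

theorem countable_zeros (f : ℝ → ℝ) (hf : ∀ t, AnalyticAt ℝ f t) (t₀ : ℝ) (h0 : f t₀ ≠ 0) :
    {t | f t = 0}.Countable := by
  have h1 : ∀ t, ∀ᶠ z in 𝓝[≠] t, f z ≠ 0 := by
    intro t
    rcases (hf t).eventually_eq_zero_or_eventually_ne_zero with h | h
    · exfalso
      have : AnalyticOnNhd ℝ f univ := fun t _ => hf t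
      exact h0 (this.eqOn_zero_of_preconnected_of_eventuallyEq_zero isPreconnected_univ
        (mem_univ t) h (mem_univ t₀))
    · exact h
  have h2 : ∀ t, {z | z ≠ t → f z ≠ 0} ∈ 𝓝 t := fun t => eventually_nhdsWithin_iff.1 (h1 t)
  obtain ⟨s, hs, hcov⟩ := TopologicalSpace.countable_cover_nhds h2
  refine hs.mono ?_
  intro z hz
  have hz' : z ∈ ⋃ x ∈ s, {z | z ≠ x → f z ≠ 0} := by rw [hcov]; trivial
  obtain ⟨x, hx, hzx⟩ := mem_iUnion₂.1 hz'
  by_contra hne
  have h3 : z ≠ x := fun h => hne (h ▸ hx)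
  exact hzx h3 hz

theorem an_det {n : Type*} [Fintype n] [DecidableEq n] (M : ℝ → Matrix n n ℝ) (t : ℝ)
    (h : ∀ i j, AnalyticAt ℝ (fun t => M t i j) t) : AnalyticAt ℝ (fun t => (M t).det) t := by
  simp only [Matrix.det_apply']
  exact Finset.analyticAt_fun_sum _ fun σ _ =>
    analyticAt_const.mul (Finset.analyticAt_fun_prod _ fun i _ => h _ _)

theorem path_countable (r s : ℝ → Matrix (Fin 3) (Fin 3) ℝ)
    (hr : ∀ i j t, AnalyticAt ℝ (fun t => r t i j) t)
    (hs : ∀ i j t, AnalyticAt ℝ (fun t => s t i j) t) (t₀ : ℝ)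
    (h : ∀ d, (Td d (r t₀) (s t₀)).det ≠ 0) :
    {t | ∃ d, (Td d (r t) (s t)).det = 0}.Countable := by
  rw [Set.ofPred_exists]
  refine countable_iUnion fun d => ?_
  refine countable_zeros (fun t => (Td d (r t) (s t)).det) (fun t => ?_) t₀ (h d)
  refine an_det _ t fun i j => ?_
  simp only [Td, Matrix.add_apply, Mt]
  refine (analyticAt_const.add ?_).add ?_
  · exact Finset.analyticAt_fun_prod _ fun k _ => hr _ _ t
  · exact Finset.analyticAt_fun_prod _ fun k _ => hs _ _ t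

theorem det_trivial (ρ τ : Matrix (Fin 3) (Fin 3) ℝ) (hρ : ρᵀ * ρ = 1) (hτ : τᵀ * τ = 1)
    (h : ρ = 1 ∨ τ = 1 ∨ ρ = τ) (d : ℕ) : (Td d ρ τ).det ≠ 0 := by
  unfold Td
  rcases h with h | h | h
  · subst h
    rw [Mt_one, add_right_comm]
    exact det_two_add _ (Mt_orth d τ hτ)
  · subst h
    rw [Mt_one]
    exact det_two_add _ (Mt_orth d ρ hρ)
  · subst h
    have hX := Mt_orth d ρ hρ
    set X := Mt d ρ with hXd
    have hX' : X * Xᵀ = 1 := mul_eq_one_comm.1 hX
    have e : 1 + X + X = X * (1 + Xᵀ + 1) := by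
      rw [mul_add, mul_add, mul_one, hX']; abel
    rw [e, Matrix.det_mul]
    refine mul_ne_zero ?_ (det_two_add _ (by rw [Matrix.transpose_transpose]; exact hX'))
    intro h0
    have : (Xᵀ * X).det = 0 := by rw [Matrix.det_mul, h0, mul_zero]
    rw [hX, Matrix.det_one] at this
    exact one_ne_zero this

theorem det_Mt_ne (d : ℕ) (X : Matrix (Fin 3) (Fin 3) ℝ) (hX : Xᵀ * X = 1) :
    (Mt d X).det ≠ 0 := by
  intro h2
  have h1 := congrArg Matrix.det (Mt_orth d X hX)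
  rw [Matrix.det_mul, h2, mul_zero, Matrix.det_one] at h1
  exact zero_ne_one h1

theorem det_trivial_neg (ρ τ : Matrix (Fin 3) (Fin 3) ℝ) (hρ : ρᵀ * ρ = 1) (hτ : τᵀ * τ = 1)
    (h : ρ = -1 ∨ τ = -1 ∨ ρ = -τ) (d : ℕ) : (Td d ρ τ).det ≠ 0 := by
  rcases neg_one_pow_eq_or ℝ d with hd | hd
  · have e : ∀ X : Matrix (Fin 3) (Fin 3) ℝ, Mt d (-X) = Mt d X := by
      intro X; rw [Mt_neg, hd, one_smul]
    rcases h with h | h | h
    · have : Td d ρ τ = Td d 1 τ := by unfold Td; rw [h, e]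
      rw [this]; exact det_trivial 1 τ (by simp) hτ (Or.inl rfl) d
    · have : Td d ρ τ = Td d ρ 1 := by unfold Td; rw [h, e]
      rw [this]; exact det_trivial ρ 1 hρ (by simp) (Or.inr (Or.inl rfl)) d
    · have : Td d ρ τ = Td d τ τ := by unfold Td; rw [h, e]
      rw [this]; exact det_trivial τ τ hτ hτ (Or.inr (Or.inr rfl)) d
  · have e : ∀ X : Matrix (Fin 3) (Fin 3) ℝ, Mt d (-X) = -Mt d X := by
      intro X; rw [Mt_neg, hd, neg_one_smul]
    rcases h with h | h | h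
    · have : Td d ρ τ = Mt d τ := by unfold Td; rw [h, e, Mt_one]; abel
      rw [this]; exact det_Mt_ne d τ hτ
    · have : Td d ρ τ = Mt d ρ := by unfold Td; rw [h, e, Mt_one]; abel
      rw [this]; exact det_Mt_ne d ρ hρ
    · have : Td d ρ τ = 1 := by unfold Td; rw [h, e]; abel
      rw [this, Matrix.det_one]; exact one_ne_zero

end Pool.Agent.Helper213.Div
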