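import Pool.Agent.Helper213.Div.Final

set_option autoImplicit false

open MeasureTheory Matrix Set Filter Topology
open scoped Pointwise ENNReal

namespace Pool.Agent.Helper213.Div

abbrev SO3 := Matrix.specialOrthogonalGroup (Fin 3) ℝ

theorem det_O3 (M : O3) : M.1.det = 1 ∨ M.1.det = -1 := by
  have h := congrArg Matrix.det (O3_orth M)
  rw [Matrix.det_mul, Matrix.det_transpose, Matrix.det_one] at h
  exact mul_self_eq_one_iff.1 h

def toO3 (M : SO3) : O3 := ⟨M.1, M.2.1⟩

theorem continuous_toO3 : Continuous toO3 :=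
  Continuous.subtype_mk continuous_subtype_val _

theorem dense_SO3 : Dense {M : SO3 | OneModTwo (toO3 M)} := by
  rw [dense_iff_inter_open]
  rintro U hU ⟨M, hM⟩
  obtain ⟨V, hV, rfl⟩ := isOpen_induced_iff.1 hU
  -- V open in matrices
  have hW : IsOpen {K : O3 | K.1 ∈ V ∧ 0 < K.1.det} := by
    apply IsOpen.inter
    · exact hV.preimage continuous_subtype_val
    · exact isOpen_lt continuous_const (Continuous.matrix_det continuous_subtype_val)
  have hne : ({K : O3 | K.1 ∈ V ∧ 0 < K.1.det}).Nonempty := by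
    refine ⟨toO3 M, hM, ?_⟩
    have : (toO3 M).1.det = 1 := M.2.2
    rw [this]; exact one_pos
  obtain ⟨K, ⟨hKV, hKd⟩, hK⟩ := dense_D.inter_open_nonempty _ hW hne
  have hd : K.1.det = 1 := by
    rcases det_O3 K with h | h
    · exact h
    · rw [h] at hKd; norm_num at hKd
  exact ⟨⟨K.1, K.2, hd⟩, hKV, hK⟩

theorem det_oneModTwo {M K : O3} (hM : OneModTwo M) (hK : OneModTwo K) (d : ℕ) :
    (Td d M.1 K.1).det ≠ 0 := by
  obtain ⟨N, G, hN, hG, hG2⟩ := hM
  obtain ⟨N', H, hN', hH, hH2⟩ := hK
  have hodd : Odd (N * N') := hN.mul hN'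
  refine det_of_two_adic d (N * N') hodd M.1 K.1 ((N' : ℤ) • G) ((N : ℤ) • H) ?_ ?_
    (O3_orth M) (O3_orth K) (Or.inr (Or.inl ?_))
  · ext i j
    have := hG i j
    simp only [Matrix.smul_apply, Matrix.map_apply, smul_eq_mul]
    push_cast
    rw [mul_assoc, mul_left_comm, this]
    simp
  · ext i j
    have := hH i j
    simp only [Matrix.smul_apply, Matrix.map_apply, smul_eq_mul]
    push_cast
    rw [mul_assoc, this]
    simp
  · have hN2 : ((N' : ℤ) : ZMod 2) = 1 := by
      obtain ⟨k, hk⟩ := hN'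
      rw [hk]
      push_cast
      have : (2 : ZMod 2) = 0 := by rfl
      rw [this]; simp
    ext i j
    have h1 : ((G i j - (1 : Matrix (Fin 3) (Fin 3) ℤ) i j : ℤ) : ZMod 2) = 0 := by
      rw [ZMod.intCast_zmod_eq_zero_iff_dvd]
      exact (hG2 i j).two_dvd
    simp only [Matrix.map_apply, Matrix.smul_apply, smul_eq_mul, eq_intCast, Int.cast_mul, hN2,
      one_mul]
    rw [Int.cast_sub, sub_eq_zero] at h1
    rw [h1, Matrix.one_apply, Matrix.one_apply]
    by_cases hij : i = j
    · rw [if_pos hij, if_pos hij]; simp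
    · rw [if_neg hij, if_neg hij]; simp

theorem continuous_Td (d : ℕ) {X : Type*} [TopologicalSpace X] (f g : X → Matrix (Fin 3) (Fin 3) ℝ)
    (hf : Continuous f) (hg : Continuous g) : Continuous fun x => (Td d (f x) (g x)).det := by
  apply Continuous.matrix_det
  refine continuous_matrix fun i j => ?_
  have hM : ∀ s : X → Matrix (Fin 3) (Fin 3) ℝ, Continuous s →
      Continuous fun x => Mt d (s x) i j := by
    intro s hs
    unfold Mt
    refine continuous_finsetProd _ fun k _ => ?_
    exact hs.matrix_elem _ _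
  simp only [Td, Matrix.add_apply]
  exact (continuous_const.add (hM f hf)).add (hM g hg)

theorem residual_O3 :
    ∀ᶠ p : O3 × O3 in residual (O3 × O3), ∀ d, (Td d p.1.1 p.2.1).det ≠ 0 := by
  rw [eventually_countable_forall]
  intro d
  refine residual_of_dense_open (s := {p : O3 × O3 | (Td d p.1.1 p.2.1).det ≠ 0}) ?_ ?_
  · exact isOpen_ne_fun (continuous_Td d _ _ (continuous_subtype_val.comp continuous_fst)
      (continuous_subtype_val.comp continuous_snd)) continuous_const
  · refine (dense_D.prod dense_D).mono ?_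
    rintro ⟨M, K⟩ ⟨hM, hK⟩
    exact det_oneModTwo hM hK d

theorem residual_SO3 :
    ∀ᶠ p : SO3 × SO3 in residual (SO3 × SO3), ∀ d, (Td d p.1.1 p.2.1).det ≠ 0 := by
  rw [eventually_countable_forall]
  intro d
  refine residual_of_dense_open (s := {p : SO3 × SO3 | (Td d p.1.1 p.2.1).det ≠ 0}) ?_ ?_
  · exact isOpen_ne_fun (continuous_Td d _ _ (continuous_subtype_val.comp continuous_fst)
      (continuous_subtype_val.comp continuous_snd)) continuous_const
  · refine (dense_SO3.prod dense_SO3).mono ?_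
    rintro ⟨M, K⟩ ⟨hM, hK⟩
    exact det_oneModTwo hM hK d

end Pool.Agent.Helper213.Div
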