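import Pool.Agent.Helper213.Div.Core

set_option autoImplicit false

open MeasureTheory Matrix Set
open scoped Pointwise

namespace Pool.Agent.Helper213.Div

/-- the unit sphere -/
abbrev S2 := Metric.sphere (0 : E) 1

/-- rotation invariant surface measure -/
noncomputable abbrev sig : Measure S2 := (volume : Measure E).toSphere

theorem mem_S2_map (φ : E ≃ₗᵢ[ℝ] E) (x : S2) : φ (x : E) ∈ Metric.sphere (0 : E) 1 := by
  have := x.2
  simp only [mem_sphere_iff_norm, sub_zero] at this ⊢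
  rw [φ.norm_map]; exact this

/-- action on the sphere, as a homeomorphism -/
noncomputable def actH (φ : E ≃ₗᵢ[ℝ] E) : S2 ≃ₜ S2 where
  toFun x := ⟨φ (x : E), mem_S2_map φ x⟩
  invFun x := ⟨φ.symm (x : E), mem_S2_map φ.symm x⟩
  left_inv x := by ext1; simp
  right_inv x := by ext1; simp
  continuous_toFun := by
    apply Continuous.subtype_mk
    exact φ.continuous.comp continuous_subtype_val
  continuous_invFun := by
    apply Continuous.subtype_mk
    exact φ.symm.continuous.comp continuous_subtype_val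

@[simp] theorem actH_coe (φ : E ≃ₗᵢ[ℝ] E) (x : S2) : ((actH φ x : S2) : E) = φ (x : E) := rfl

theorem cone_image (φ : E ≃ₗᵢ[ℝ] E) (s : Set S2) :
    Ioo (0 : ℝ) 1 • ((↑) '' (actH φ '' s) : Set E) = φ '' (Ioo (0 : ℝ) 1 • ((↑) '' s : Set E)) := by
  ext y
  simp only [Set.mem_smul, Set.mem_image]
  constructor
  · rintro ⟨r, hr, z, ⟨w, ⟨x, hx, rfl⟩, rfl⟩, rfl⟩
    exact ⟨r • (x : E), ⟨r, hr, x, ⟨x, hx, rfl⟩, rfl⟩, by simp⟩
  · rintro ⟨z, ⟨r, hr, w, ⟨x, hx, rfl⟩, rfl⟩, rfl⟩
    exact ⟨r, hr, φ (x : E), ⟨actH φ x, ⟨x, hx, rfl⟩, rfl⟩, by simp⟩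

theorem sig_image (φ : E ≃ₗᵢ[ℝ] E) {s : Set S2} (hs : MeasurableSet s) :
    sig (actH φ '' s) = sig s := by
  have hs' : MeasurableSet (actH φ '' s) := (actH φ).measurableEmbedding.measurableSet_image.2 hs
  rw [sig, Measure.toSphere_apply' _ hs', Measure.toSphere_apply' _ hs, cone_image]
  congr 1
  have h1 : φ '' (Ioo (0 : ℝ) 1 • ((↑) '' s : Set E)) =
      φ.symm ⁻¹' (Ioo (0 : ℝ) 1 • ((↑) '' s : Set E)) := by
    ext y
    simp only [Set.mem_image, Set.mem_preimage]
    constructor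
    · rintro ⟨z, hz, rfl⟩; simpa using hz
    · intro h; exact ⟨φ.symm y, h, by simp⟩
  rw [h1]
  exact (φ.symm.measurePreserving).measure_preimage_equiv (f := φ.symm.toMeasurableEquiv) _

theorem mp_act (φ : E ≃ₗᵢ[ℝ] E) : MeasurePreserving (actH φ) sig sig := by
  refine ⟨(actH φ).measurable, ?_⟩
  ext s hs
  rw [Measure.map_apply (actH φ).measurable hs]
  have h2 : actH φ ⁻¹' s = actH φ.symm '' s := by
    ext y
    simp only [Set.mem_image, Set.mem_preimage]
    constructor
    · intro h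
      exact ⟨actH φ y, h, by ext1; simp⟩
    · rintro ⟨z, hz, rfl⟩
      have : actH φ (actH φ.symm z) = z := by ext1; simp
      rw [this]; exact hz
  rw [h2, sig_image _ hs]

/-- the matrix of an isometry -/
noncomputable def mat (φ : E ≃ₗᵢ[ℝ] E) : Matrix (Fin 3) (Fin 3) ℝ :=
  fun i j => (φ (EuclideanSpace.single j 1)) i

theorem mat_apply (φ : E ≃ₗᵢ[ℝ] E) (x : E) (i : Fin 3) : (φ x) i = ∑ j, mat φ i j * x j := by
  have hx : x = ∑ j, x j • EuclideanSpace.single j (1 : ℝ) := by
    ext k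
    simp [Finset.sum_apply, Pi.single_apply]
  conv_lhs => rw [hx]
  rw [map_sum]
  simp only [map_smul, mat]
  simp [mul_comm]

/-- degree d monomials -/
noncomputable def mono (d : ℕ) (i : Fin d → Fin 3) (x : S2) : ℝ := ∏ k, (x : E) (i k)

theorem mono_act (φ : E ≃ₗᵢ[ℝ] E) (d : ℕ) (i : Fin d → Fin 3) (x : S2) :
    mono d i (actH φ x) = ∑ j, Mt d (mat φ) i j * mono d j x := by
  simp only [mono, actH_coe, mat_apply, Mt]
  rw [Finset.prod_univ_sum]
  simp only [Fintype.piFinset_univ]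
  refine Finset.sum_congr rfl fun y _ => ?_
  rw [Finset.prod_mul_distrib]

theorem mono_cont (d : ℕ) (i : Fin d → Fin 3) : Continuous (mono d i) := by
  unfold mono
  refine continuous_finsetProd _ fun k _ => ?_
  exact (continuous_apply (i k)).comp ((PiLp.continuous_ofLp 2 _).comp continuous_subtype_val)

theorem integrable_cont {f : S2 → ℝ} (hf : Continuous f) : Integrable f sig := by
  have : IsCompact (Set.univ : Set S2) := isCompact_univ
  exact hf.integrable_of_hasCompactSupport (HasCompactSupport.of_compactSpace f)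

end Pool.Agent.Helper213.Div
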