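import Pool.Agent.Helper213.Div.Neg

set_option autoImplicit false

open MeasureTheory Matrix Set Filter Topology

namespace Pool.Agent.Helper213.Div

/-- tensor power as a monoid homomorphism -/
def MtHom {k : Type*} [CommRing k] (d : ℕ) :
    Matrix (Fin 3) (Fin 3) k →* Matrix (Fin d → Fin 3) (Fin d → Fin 3) k where
  toFun := Mt d
  map_one' := Mt_one d
  map_mul' := Mt_mul d

theorem arith_unit (R : Subring ℝ) {k : Type*} [Field k] (π : R →+* k)
    (G H : Matrix (Fin 3) (Fin 3) R) (ρ τ : Matrix (Fin 3) (Fin 3) ℝ)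
    (hG : G.map R.subtype = ρ) (hH : H.map R.subtype = τ)
    (u : MonoidAlgebra k (Matrix (Fin 3) (Fin 3) k))
    (hu : u * (1 + MonoidAlgebra.single (G.map π) 1 + MonoidAlgebra.single (H.map π) 1) = 1)
    (d : ℕ) : (Td d ρ τ).det ≠ 0 := by
  have hinj : Function.Injective R.subtype := Subtype.val_injective
  set T : Matrix (Fin d → Fin 3) (Fin d → Fin 3) R := 1 + Mt d G + Mt d H with hT
  have hk : T.map π = 1 + Mt d (G.map π) + Mt d (H.map π) := by
    rw [Mt_map, Mt_map, hT]
    ext i j
    simp only [Matrix.map_apply, Matrix.add_apply, map_add, Matrix.one_apply]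
    by_cases hij : i = j
    · simp [hij]
    · simp [hij]
  have hr : T.map R.subtype = Td d ρ τ := by
    rw [Td, ← hG, ← hH, Mt_map, Mt_map, hT]
    ext i j
    simp only [Matrix.map_apply, Matrix.add_apply, map_add, Matrix.one_apply]
    by_cases hij : i = j
    · simp [hij]
    · simp [hij]
  have hTk : (T.map π).det ≠ 0 := by
    rw [hk]
    have h1 := congrArg (MonoidAlgebra.lift k (Matrix (Fin d → Fin 3) (Fin d → Fin 3) k)
      (Matrix (Fin 3) (Fin 3) k) (MtHom d)) hu
    rw [map_mul, map_add, map_add, map_one, MonoidAlgebra.lift_single,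
      MonoidAlgebra.lift_single, one_smul, one_smul] at h1
    have h2 := congrArg Matrix.det h1
    rw [Matrix.det_mul, Matrix.det_one] at h2
    intro h0
    have h3 : (1 + (MtHom d) (G.map π) + (MtHom d) (H.map π)).det = 0 := h0
    rw [h3, mul_zero] at h2
    exact zero_ne_one h2
  have hT0 : T.det ≠ 0 := by
    intro h0
    apply hTk
    have := RingHom.map_det π T
    rw [h0, map_zero] at this
    exact this.symm
  intro h0
  apply hT0
  have h1 := RingHom.map_det R.subtype T
  have h2 : (T.map R.subtype).det = 0 := by rw [hr]; exact h0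
  have h3 : R.subtype T.det = 0 := by rw [h1]; exact h2
  exact hinj (by rw [h3, map_zero])

end Pool.Agent.Helper213.Div
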